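import Pool.Agent.Lib.V10.Gen

set_option autoImplicit false

namespace Pool.Agent.Lib.V10

open Filter Topology Set Real
open scoped ContDiff
open Pool.Agent.Lib.MP_3eff7f_gt_h14

theorem nq_nonneg (u : E4) : 0 ≤ nq u := by unfold nq; positivity

theorem n5_nonneg (v : V5) : 0 ≤ n5 v := add_nonneg (sq_nonneg _) (nq_nonneg _)

theorem nq_smul (c : ℝ) (u : E4) : nq (c • u) = c ^ 2 * nq u := by simp [nq]; ring

theorem n5_smul (c : ℝ) (v : V5) : n5 (c • v) = c ^ 2 * n5 v := by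
  simp [n5, nq_smul]; ring

theorem contDiff_nq : ContDiff ℝ ∞ nq := by unfold nq; fun_prop

theorem contDiff_n5 : ContDiff ℝ ∞ n5 :=
  (contDiff_fst.pow 2).add (contDiff_nq.comp contDiff_snd)

theorem E4_ext {x y : E4} (h0 : x 0 = y 0) (h1 : x 1 = y 1) (h2 : x 2 = y 2) (h3 : x 3 = y 3) :
    x = y := by
  ext i
  fin_cases i
  exacts [h0, h1, h2, h3]

theorem vv_tb (θ : ℝ) (v : V5) : vv (tb θ v) = v := by
  have := sin_sq_add_cos_sq (θ * v.1)
  refine Prod.ext rfl (E4_ext ?_ ?_ rfl rfl) <;> simp [vv, tb]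
  · linear_combination v.2 0 * this
  · linear_combination v.2 1 * this

theorem tb_two (θ : ℝ) (v : V5) : (tb θ v).1 2 = θ := rfl

theorem tb_vv (q : E6) : tb (q.1 2) (vv q) = q := by
  have := sin_sq_add_cos_sq (q.1 2 * q.1 3)
  refine Prod.ext (E4_ext ?_ ?_ rfl rfl) rfl <;> simp [vv, tb]
  · linear_combination q.1 0 * this
  · linear_combination q.1 1 * this

theorem rho_tb (θ : ℝ) (v : V5) : rho (tb θ v) = n5 v := by rw [rho, vv_tb]

theorem rho_eq (q : E6) : rho q = q.1 3 ^ 2 + tt q.1 + ‖q.2‖ ^ 2 := by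
  have := sin_sq_add_cos_sq (q.1 2 * q.1 3)
  rw [Complex.sq_norm, Complex.normSq_apply]
  simp [rho, n5, nq, vv, tt]
  linear_combination (q.1 0 ^ 2 + q.1 1 ^ 2) * this

theorem rho_nonneg (q : E6) : 0 ≤ rho q := n5_nonneg _

theorem tt_le_rho (q : E6) : tt q.1 ≤ rho q := by rw [rho_eq]; nlinarith [sq_nonneg ‖q.2‖]

theorem norm_le_rho (q : E6) : ‖q.2‖ ^ 2 ≤ rho q := by rw [rho_eq]; nlinarith [tt_nonneg q.1]

theorem mem_UU {q : E6} (h : rho q < 1 / 4) : q.1 ∈ UU :=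
  ((tt_le_rho q).trans_lt h).trans (by norm_num)

theorem contDiff_vec {E : Type} [NormedAddCommGroup E] [NormedSpace ℝ E] {f0 f1 f2 f3 : E → ℝ}
    (h0 : ContDiff ℝ ∞ f0) (h1 : ContDiff ℝ ∞ f1) (h2 : ContDiff ℝ ∞ f2)
    (h3 : ContDiff ℝ ∞ f3) : ContDiff ℝ ∞ fun y => (![f0 y, f1 y, f2 y, f3 y] : E4) := by
  refine contDiff_pi.2 fun i => ?_
  fin_cases i
  exacts [h0, h1, h2, h3]

theorem contDiff_vv : ContDiff ℝ ∞ vv :=
  ContDiff.prodMk (by fun_prop) (contDiff_vec (by fun_prop) (by fun_prop)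
    (Complex.reCLM.contDiff.comp contDiff_snd) (Complex.imCLM.contDiff.comp contDiff_snd))

theorem contDiff_tb : ContDiff ℝ ∞ fun p : ℝ × V5 => tb p.1 p.2 := by
  refine ContDiff.prodMk (contDiff_vec (by fun_prop) (by fun_prop) (by fun_prop) (by fun_prop)) ?_
  exact Complex.equivRealProdCLM.symm.contDiff.comp
    (f := fun p : ℝ × V5 => (p.2.2 2, p.2.2 3)) (by fun_prop)

theorem contDiff_rho : ContDiff ℝ ∞ rho := contDiff_n5.comp contDiff_vv

theorem norm_aa (q : E6) : ‖aa q‖ = √(rho q) := by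
  rw [aa, norm_mul, Complex.norm_exp_ofReal_mul_I, mul_one, Complex.norm_real,
    norm_of_nonneg (sqrt_nonneg _)]

theorem norm_aa_sq (q : E6) : ‖aa q‖ ^ 2 = rho q := by rw [norm_aa, sq_sqrt (rho_nonneg q)]

theorem aa_ne {q : E6} (h : 0 < rho q) : aa q ≠ 0 :=
  norm_pos_iff.1 (norm_aa q ▸ sqrt_pos.2 h)

theorem n5_ss {q : E6} (h : 0 < rho q) : n5 (ss q) = 1 := by
  rw [ss, n5_smul, inv_pow, sq_sqrt h.le]
  exact inv_mul_cancel₀ h.ne'

theorem smul_ss {q : E6} (h : 0 < rho q) : ‖aa q‖ • ss q = vv q := by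
  rw [norm_aa, ss, smul_inv_smul₀ (sqrt_pos.2 h).ne']

theorem contDiffAt_aa {q : E6} (h : 0 < rho q) : ContDiffAt ℝ ∞ aa q :=
  (Complex.ofRealCLM.contDiff.contDiffAt.comp q (contDiff_rho.contDiffAt.sqrt h.ne')).mul
    (ContDiffAt.cexp ((Complex.ofRealCLM.contDiff.contDiffAt.comp q
      (f := fun q : E6 => 2 * π / 3 * q.1 2) (by fun_prop)).mul contDiffAt_const))

theorem contDiffAt_ss {q : E6} (h : 0 < rho q) : ContDiffAt ℝ ∞ ss q :=
  ((contDiff_rho.contDiffAt.sqrt h.ne').inv (sqrt_pos.2 h).ne').smul contDiff_vv.contDiffAt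

theorem aa_ss_eq {q q' : E6} (h : 0 < rho q) (h' : 0 < rho q') :
    aa q = aa q' ∧ ss q = ss q' ↔ vv q = vv q' ∧ ∃ n : ℤ, q'.1 2 = q.1 2 + 3 * n := by
  constructor
  · rintro ⟨h1, h2⟩
    refine ⟨by rw [← smul_ss h, ← smul_ss h', h1, h2], ?_⟩
    have e : √(rho q) = √(rho q') := by rw [← norm_aa, h1, norm_aa]
    rw [aa, aa, e] at h1
    obtain ⟨n, hn⟩ := Complex.exp_eq_exp_iff_exists_int.1 (mul_left_cancel₀
      (Complex.ofReal_ne_zero.2 (sqrt_pos.2 h').ne') h1.symm)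
    have := congrArg Complex.im hn
    simp at this
    exact ⟨n, mul_left_cancel₀ (show 2 * π / 3 ≠ 0 by positivity) (by linarith)⟩
  · rintro ⟨h1, n, h2⟩
    refine ⟨?_, by rw [ss, ss, rho, rho, h1]⟩
    rw [aa, aa, rho, rho, h1, h2]
    congr 1
    refine Complex.exp_eq_exp_iff_exists_int.2 ⟨-n, ?_⟩
    push_cast
    ring

theorem aa_tb {a : ℂ} {s : V5} (hs : n5 s = 1) {θ : ℝ}
    (h : a = ‖a‖ * Complex.exp ((2 * π / 3 * θ : ℝ) * Complex.I)) (ha : a ≠ 0) :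
    rho (tb θ (‖a‖ • s)) = ‖a‖ ^ 2 ∧ aa (tb θ (‖a‖ • s)) = a ∧ ss (tb θ (‖a‖ • s)) = s := by
  have e : rho (tb θ (‖a‖ • s)) = ‖a‖ ^ 2 := by rw [rho_tb, n5_smul, hs, mul_one]
  refine ⟨e, ?_, ?_⟩
  · rw [aa, e, sqrt_sq (norm_nonneg a), tb_two, ← h]
  · rw [ss, e, sqrt_sq (norm_nonneg a), vv_tb, inv_smul_smul₀ (norm_ne_zero_iff.2 ha)]

theorem exists_aa_ss {a : ℂ} (ha : a ≠ 0) {s : V5} (hs : n5 s = 1) :
    ∃ z, rho z = ‖a‖ ^ 2 ∧ aa z = a ∧ ss z = s :=
  ⟨_, aa_tb hs (θ := 3 / (2 * π) * a.arg) (by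
    rw [show 2 * π / 3 * (3 / (2 * π) * a.arg) = a.arg by field_simp,
      Complex.norm_mul_exp_arg_mul_I]) ha⟩

/-- The local inverse of the handle coordinates. -/
theorem exists_kappa {z : E6} (h : 0 < rho z) : ∃ κ : ℂ × V5 → E6,
    ContDiffAt ℝ ∞ κ (aa z, ss z) ∧ (∀ᶠ y in 𝓝 z, κ (aa y, ss y) = y) ∧
    ∀ p : ℂ × V5, p.1 ≠ 0 → n5 p.2 = 1 →
      rho (κ p) = ‖p.1‖ ^ 2 ∧ aa (κ p) = p.1 ∧ ss (κ p) = p.2 := by
  let u : ℂ := Complex.exp ((2 * π / 3 * z.1 2 : ℝ) * Complex.I)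
  have hu : u ≠ 0 := Complex.exp_ne_zero _
  refine ⟨fun p => tb (z.1 2 + 3 / (2 * π) * (p.1 / u).arg) (‖p.1‖ • p.2), ?_, ?_,
    fun p hp hs => aa_tb hs ?_ hp⟩
  · have h1 : aa z / u ∈ Complex.slitPlane := by
      rw [aa, mul_div_cancel_right₀ _ hu]
      exact Complex.ofReal_mem_slitPlane.2 (sqrt_pos.2 h)
    have h2 : ContDiffAt ℝ ∞ (fun p : ℂ × V5 => (p.1 / u).arg) (aa z, ss z) := by
      simp only [← Complex.log_im]
      exact Complex.imCLM.contDiff.contDiffAt.comp _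
        (((Complex.contDiffAt_log h1).restrict_scalars ℝ).comp (aa z, ss z)
          (f := fun p : ℂ × V5 => p.1 / u) (contDiffAt_fst.div_const u))
    exact contDiff_tb.contDiffAt.comp (aa z, ss z) ((contDiffAt_const.add
      (contDiffAt_const.mul h2)).prodMk ((contDiffAt_fst.norm ℝ (aa_ne h)).smul contDiffAt_snd))
  · have c : ContinuousAt (fun y : E6 => |y.1 2 - z.1 2|) z := by fun_prop
    filter_upwards [contDiff_rho.continuous.continuousAt.eventually (lt_mem_nhds h),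
      c.eventually (gt_mem_nhds (show |z.1 2 - z.1 2| < 1 by simp))] with y a b
    have e : aa y / u = (√(rho y) : ℝ) *
        Complex.exp ((2 * π / 3 * (y.1 2 - z.1 2) : ℝ) * Complex.I) := by
      rw [aa, mul_div_assoc, ← Complex.exp_sub]
      congr 2
      push_cast
      ring
    rw [abs_lt] at b
    rw [smul_ss a, e, Complex.arg_real_mul _ (sqrt_pos.2 a), Complex.arg_exp_mul_I,
      (toIocMod_eq_self _).2 ⟨by nlinarith [pi_pos], by nlinarith [pi_pos]⟩,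
      show z.1 2 + 3 / (2 * π) * (2 * π / 3 * (y.1 2 - z.1 2)) = y.1 2 by field_simp; ring, tb_vv]
  · have e := Complex.norm_mul_exp_arg_mul_I (p.1 / u)
    rw [norm_div, Complex.norm_exp_ofReal_mul_I, div_one, eq_div_iff hu, mul_assoc,
      ← Complex.exp_add] at e
    rw [← e, e]
    conv_lhs => rw [← e]
    congr 2
    push_cast
    have : (π : ℂ) ≠ 0 := Complex.ofReal_ne_zero.2 pi_ne_zero
    field_simp
    ring

theorem sg_sq (e : Bool) : sg e * sg e = 1 := by cases e <;> simp [sg]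

theorem one_add_nq (u : E4) : 0 < 1 + nq u := by linarith [nq_nonneg u]

theorem n5_st (e : Bool) (u : E4) : n5 (st e u) = 1 := by
  have := (one_add_nq u).ne'
  simp only [n5, st, nq_smul, mul_pow, sq (sg e), sg_sq]
  field_simp
  ring

theorem one_add_st (e : Bool) (u : E4) : 1 + sg e * (st e u).1 = 2 / (1 + nq u) := by
  have := (one_add_nq u).ne'
  simp only [st, ← mul_assoc, sg_sq]
  field_simp
  ring

theorem one_add_st_ne (e : Bool) (u : E4) : 1 + sg e * (st e u).1 ≠ 0 := by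
  rw [one_add_st]
  exact (div_pos two_pos (one_add_nq u)).ne'

theorem sti_st (e : Bool) (u : E4) : sti e (st e u) = u := by
  rw [sti, one_add_st]
  exact inv_smul_smul₀ (div_pos two_pos (one_add_nq u)).ne' u

theorem nq_sti {e : Bool} {s : V5} (hs : n5 s = 1) (h : 1 + sg e * s.1 ≠ 0) :
    nq (sti e s) = (1 - sg e * s.1) / (1 + sg e * s.1) := by
  have e1 : nq s.2 = (1 - sg e * s.1) * (1 + sg e * s.1) := by
    rw [n5] at hs
    linear_combination hs + s.1 ^ 2 * sg_sq e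
  rw [sti, nq_smul, e1]
  field_simp

theorem st_sti {e : Bool} {s : V5} (hs : n5 s = 1) (h : 1 + sg e * s.1 ≠ 0) :
    st e (sti e s) = s := by
  have e1 : 1 + nq (sti e s) = 2 / (1 + sg e * s.1) := by rw [nq_sti hs h]; field_simp; ring
  refine Prod.ext ?_ ?_
  · simp only [st]
    rw [e1, nq_sti hs h]
    field_simp
    linear_combination 2 * s.1 * sg_sq e
  · simp only [st]
    rw [e1, sti, smul_smul, show 2 / (2 / (1 + sg e * s.1)) * (1 + sg e * s.1)⁻¹ = 1 by field_simp,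
      one_smul]

theorem exists_st {s : V5} (hs : n5 s = 1) : ∃ e u, nq u ≤ 1 ∧ st e u = s := by
  obtain ⟨e, he⟩ : ∃ e, 0 ≤ sg e * s.1 := by
    rcases le_total 0 s.1 with h | h
    exacts [⟨true, by simpa [sg] using h⟩, ⟨false, by simpa [sg] using h⟩]
  have h : 0 < 1 + sg e * s.1 := by linarith
  exact ⟨e, sti e s, by rw [nq_sti hs h.ne', div_le_one h]; linarith, st_sti hs h.ne'⟩

theorem contDiff_st (e : Bool) : ContDiff ℝ ∞ (st e) :=
  (contDiff_const.mul ((contDiff_const.sub contDiff_nq).div (contDiff_const.add contDiff_nq)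
    fun u => (one_add_nq u).ne')).prodMk ((contDiff_const.div (contDiff_const.add contDiff_nq)
      fun u => (one_add_nq u).ne').smul contDiff_id)

theorem contDiffAt_sti {e : Bool} {s : V5} (h : 1 + sg e * s.1 ≠ 0) :
    ContDiffAt ℝ ∞ (sti e) s :=
  ((contDiffAt_const.add (contDiffAt_const.mul contDiffAt_fst)).inv h).smul contDiffAt_snd

theorem contDiff_emb : ContDiff ℝ ∞ fun p : ℂ × V5 => emb p.1 p.2 := by
  refine contDiff_pi.2 fun i => ?_
  fin_cases i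
  · exact Complex.reCLM.contDiff.comp contDiff_fst
  · exact Complex.imCLM.contDiff.comp contDiff_fst
  all_goals simp [emb]; fun_prop

/-- The left inverse of `emb`. -/
def unemb (f : Fin 7 → ℝ) : ℂ × V5 := (⟨f 0, f 1⟩, f 2, ![f 3, f 4, f 5, f 6])

theorem unemb_emb (a : ℂ) (s : V5) : unemb (emb a s) = (a, s) :=
  Prod.ext rfl (Prod.ext rfl (E4_ext rfl rfl rfl rfl))

theorem contDiff_unemb : ContDiff ℝ ∞ unemb :=
  (Complex.equivRealProdCLM.symm.contDiff.comp (f := fun f : Fin 7 → ℝ => (f 0, f 1))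
    (by fun_prop)).prodMk (ContDiff.prodMk (by fun_prop)
      (contDiff_vec (by fun_prop) (by fun_prop) (by fun_prop) (by fun_prop)))

end Pool.Agent.Lib.V10
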