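import Pool.Agent.Lib.V10.BlueG

set_option autoImplicit false

namespace Pool.Agent.Lib.V10

open Filter Topology Set
open scoped ContDiff
open Pool.Agent.Lib.MP_3eff7f_gt_h14

namespace A92

theorem cd_nsq : ContDiff ℝ ∞ fun ζ : ℂ => Complex.normSq ζ := by
  simp only [Complex.normSq_apply]
  exact (Complex.reCLM.contDiff.mul Complex.reCLM.contDiff).add
    (Complex.imCLM.contDiff.mul Complex.imCLM.contDiff)

theorem cd_ta : ContDiff ℝ ∞ ta :=
  Real.smoothTransition.contDiff.comp ((contDiff_const.mul contDiff_id).sub contDiff_const)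

theorem ta_zero {r : ℝ} (h : r ≤ 1 / 2) : ta r = 0 :=
  Real.smoothTransition.zero_of_nonpos (by linarith)

theorem ta_one {r : ℝ} (h : 1 ≤ r) : ta r = 1 :=
  Real.smoothTransition.one_of_one_le (by linarith)

theorem mu4_pos {r : ℝ} (h : 0 ≤ r) : 0 < mu (1 / 4) r := mu_pos (by norm_num) le_rfl h

theorem Phif_pos (L : ℝ) {r : ℝ} (h : 0 ≤ r) : 0 < Phif L r :=
  div_pos (by positivity) (mu4_pos h)

theorem Phif_out (L : ℝ) {r : ℝ} (h : 1 ≤ r) : Phif L r = (1 + L ^ 2) / r := by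
  rw [Phif, ta_one h, mu_eq _ (by linarith), mul_one]

theorem cd_Phif (L : ℝ) : ContDiff ℝ ∞ fun ζ : ℂ => Phif L (Complex.normSq ζ) :=
  (contDiff_const.add ((contDiff_const.mul (cd_ta.comp cd_nsq)).pow 2)).div
    ((contDiff_mu _).comp cd_nsq) fun ζ => (mu4_pos (Complex.normSq_nonneg ζ)).ne'

theorem eta_pos (l : ℝ) (ζ : ℂ) : 0 < eta l ζ := by unfold eta; positivity

theorem one_le_nsq {ζ : ℂ} (h : 1 < ‖ζ‖) : 1 < Complex.normSq ζ := by
  rw [Complex.normSq_eq_norm_sq]
  nlinarith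

theorem sT_bound : ∃ S ≥ 0, ∀ x, ∃ d, HasDerivAt Real.smoothTransition d x ∧ |d| ≤ S ∧
    (x < 0 → d = 0) := by
  have h1 : ContDiff ℝ 1 Real.smoothTransition := Real.smoothTransition.contDiff
  have hd : ∀ x, HasDerivAt Real.smoothTransition (deriv Real.smoothTransition x) x := fun x =>
    (h1.differentiable (by simp) x).hasDerivAt
  have z0 : ∀ x < 0, deriv Real.smoothTransition x = 0 := fun x hx => by
    have : Real.smoothTransition =ᶠ[𝓝 x] fun _ => 0 := by
      filter_upwards [gt_mem_nhds hx] with y hy using Real.smoothTransition.zero_of_nonpos hy.le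
    rw [this.deriv_eq, deriv_const]
  have z1 : ∀ x > 1, deriv Real.smoothTransition x = 0 := fun x hx => by
    have : Real.smoothTransition =ᶠ[𝓝 x] fun _ => 1 := by
      filter_upwards [lt_mem_nhds hx] with y hy using Real.smoothTransition.one_of_one_le hy.le
    rw [this.deriv_eq, deriv_const]
  obtain ⟨S, hS⟩ := (isCompact_Icc (a := (0 : ℝ)) (b := 1)).exists_bound_of_continuousOn
    (h1.continuous_deriv le_rfl).continuousOn
  have S0 : 0 ≤ S := (norm_nonneg _).trans (hS 0 ⟨le_rfl, zero_le_one⟩)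
  refine ⟨S, S0, fun x => ⟨_, hd x, ?_, z0 x⟩⟩
  rcases lt_or_ge x 0 with h | h
  · simpa [z0 x h] using S0
  · rcases lt_or_ge 1 x with h' | h'
    · simpa [z1 x h'] using S0
    · exact hS x ⟨h, h'⟩

theorem hd_nsq {ζ : ℝ → ℂ} {ζ' : ℂ} {s : ℝ} (h : HasDerivAt ζ ζ' s) :
    HasDerivAt (fun r => Complex.normSq (ζ r))
      (2 * ((ζ s).re * ζ'.re + (ζ s).im * ζ'.im)) s := by
  have a := Complex.reCLM.hasFDerivAt.comp_hasDerivAt s h
  have b := Complex.imCLM.hasFDerivAt.comp_hasDerivAt s h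
  simp only [Complex.normSq_apply]
  refine ((a.mul a).add (b.mul b)).congr_deriv ?_
  simp
  ring

end A92

open A92

theorem st_ADM : St_ADM := by
  refine ⟨fun l hl L => ⟨⟨?_, eta_pos l, fun ζ => ?_, fun v w => ?_, fun ζ v w => ?_,
    fun ζ v hv => ?_⟩, ?_, ?_, fun ζ h => ?_, fun ζ h1 h2 v w => ?_⟩, fun l L ζ h => ⟨?_, ?_⟩⟩
  · exact contDiff_const.mul (contDiff_const.mul ((cd_ta.comp cd_nsq).pow 2)).neg.exp
  · have : Real.exp (-(l * ta (Complex.normSq ζ) ^ 2)) ≤ 1 :=
      Real.exp_le_one_iff.2 (neg_nonpos.2 (by positivity))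
    unfold eta
    linarith
  · simp only [bb_apply]
    exact (cd_Phif L).mul contDiff_const
  · rw [bb_apply, bb_apply]
    ring
  · rw [bb_apply]
    exact mul_pos (Phif_pos L (Complex.normSq_nonneg ζ)) (Complex.normSq_pos.2 hv)
  · unfold eps; positivity
  · have : Real.exp (-l) ≤ 1 := Real.exp_le_one_iff.2 (neg_nonpos.2 hl)
    unfold eps
    linarith
  · rw [eta, eps, ta_one (one_le_nsq h).le, one_pow, mul_one]
  · have a1 := one_le_nsq h1
    have a2 : Complex.normSq ζ < 4 := by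
      rw [Complex.normSq_eq_norm_sq]
      unfold RR at h2
      nlinarith [norm_nonneg ζ]
    have a0 : 0 < Complex.normSq ζ := by linarith
    have e1 : Complex.normSq ((RR : ℂ) / ζ) = 4 / Complex.normSq ζ := by
      rw [map_div₀, Complex.normSq_ofReal, RR]
      norm_num
    have e2 : Complex.normSq (-((RR : ℂ) / ζ ^ 2)) = 4 / Complex.normSq ζ ^ 2 := by
      rw [Complex.normSq_neg, map_div₀, map_pow, Complex.normSq_ofReal, RR]
      norm_num
    have e3 : ∀ a : ℂ, (a * v).re * (a * w).re + (a * v).im * (a * w).im =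
        Complex.normSq a * (v.re * w.re + v.im * w.im) := fun a => by
      simp only [Complex.mul_re, Complex.mul_im, Complex.normSq_apply]
      ring
    rw [bb_apply, bb_apply, e3, e1, e2, Phif_out L a1.le,
      Phif_out L ((one_le_div a0).2 a2.le)]
    field_simp
  · rw [eta, eta, ta_zero h]
    simp
  · simp only [bb, Phif, ta_zero h, mul_zero]

theorem st_ETA : St_ETA := by
  obtain ⟨S, S0, hS⟩ := sT_bound
  refine ⟨40 * S, by positivity, fun ζ ζ' s En hE hζ h2 => ⟨fun l hl hb => ?_, fun L hb => ?_⟩⟩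
  all_goals
    have hr := hd_nsq hζ
    have r0 := Complex.normSq_nonneg (ζ s)
    have r4 : Complex.normSq (ζ s) < 4 := by
      rw [Complex.normSq_eq_norm_sq]
      nlinarith [norm_nonneg (ζ s)]
    have cs : ((ζ s).re * ζ'.re + (ζ s).im * ζ'.im) ^ 2 ≤
        Complex.normSq (ζ s) * (ζ'.re * ζ'.re + ζ'.im * ζ'.im) := by
      rw [Complex.normSq_apply]
      nlinarith [sq_nonneg ((ζ s).re * ζ'.im - (ζ s).im * ζ'.re)]
    have n0 : 0 ≤ ζ'.re * ζ'.re + ζ'.im * ζ'.im := add_nonneg (mul_self_nonneg _) (mul_self_nonneg _)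
    rw [bb_apply] at hb
    generalize (ζ s).re * ζ'.re + (ζ s).im * ζ'.im = ρ at hr cs
    generalize ζ'.re * ζ'.re + ζ'.im * ζ'.im = N at hb cs n0
  · obtain ⟨d, d1, d2, -⟩ := hS (2 * Complex.normSq (ζ s) - 1)
    have t1 : HasDerivAt (fun r => ta (Complex.normSq (ζ r))) (d * (2 * (2 * ρ))) s :=
      d1.comp s ((hr.const_mul 2).sub_const 1)
    refine ⟨_, (((t1.pow 2).const_mul l).neg.exp).const_mul (1 / 4), ?_⟩
    have m0 := mu4_pos r0
    have m1 : mu (1 / 4) (Complex.normSq (ζ s)) ≤ 17 / 4 := by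
      have := psi_le_one (Complex.normSq (ζ s))
      unfold mu
      linarith
    rw [Phif, div_mul_eq_mul_div, div_le_iff₀ m0] at hb
    simp only [Pi.neg_apply, Pi.pow_apply, eta]
    generalize ta (Complex.normSq (ζ s)) = τ at hb ⊢
    have key : |l * (2 * τ * (d * (2 * (2 * ρ))))| ≤ En := by
      refine abs_le_of_sq_le_sq' ?_ hE |> abs_le.2
      have b1 : d ^ 2 ≤ S ^ 2 := sq_le_sq' (abs_le.1 d2).1 (abs_le.1 d2).2
      have b2 : ρ ^ 2 ≤ 4 * N := by nlinarith
      have b3 : (40 * S * l * τ) ^ 2 * N ≤ En ^ 2 * (17 / 4) := by nlinarith [sq_nonneg En]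
      calc (l * (2 * τ * (d * (2 * (2 * ρ))))) ^ 2 = 64 * (l * τ) ^ 2 * (d ^ 2 * ρ ^ 2) := by ring
        _ ≤ 64 * (l * τ) ^ 2 * (S ^ 2 * (4 * N)) := by gcongr
        _ ≤ En ^ 2 := by nlinarith [sq_nonneg En]
    rw [abs_mul, abs_mul, abs_neg, abs_of_pos (Real.exp_pos _), abs_of_pos (by norm_num)]
    have e0 := (Real.exp_pos (-(l * τ ^ 2))).le
    simp only [Nat.cast_ofNat, Nat.add_one_sub_one, pow_one]
    nlinarith [mul_le_mul_of_nonneg_left key e0]
  · obtain ⟨d, d1, d2, d3⟩ := hS (4 * Complex.normSq (ζ s) - 8)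
    have t1 : HasDerivAt (fun r => Real.smoothTransition (4 * Complex.normSq (ζ r) - 8))
        (d * (4 * (2 * ρ))) s := HasDerivAt.comp s (h₂ := Real.smoothTransition) d1
          ((hr.const_mul 4).sub_const 8)
    refine ⟨_, t1, ?_⟩
    rcases lt_or_ge (Complex.normSq (ζ s)) 2 with h | h
    · rw [d3 (by linarith), zero_mul, abs_zero]
      positivity
    · have h1 : 1 < ‖ζ s‖ := by
        rw [Complex.normSq_eq_norm_sq] at h
        nlinarith [norm_nonneg (ζ s)]
      have hb := hb h1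
      rw [Phif_out L (by linarith), div_mul_eq_mul_div, div_le_iff₀ (by linarith)] at hb
      have b2 : |ρ| ≤ 4 * En := by
        refine abs_le_of_sq_le_sq' ?_ (by positivity) |> abs_le.2
        have : N ≤ En ^ 2 * 4 := by nlinarith [sq_nonneg L, sq_nonneg En, mul_nonneg (sq_nonneg L) n0]
        nlinarith
      rw [abs_mul, abs_mul, abs_mul, abs_of_pos (four_pos (α := ℝ)), abs_two]
      nlinarith [mul_le_mul d2 b2 (abs_nonneg _) S0, mul_nonneg S0 hE]

end Pool.Agent.Lib.V10
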