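import Pool.Agent.Lib.V10.BlueG

set_option autoImplicit false

namespace Pool.Agent.Lib.V10

open Filter Topology Set MeasureTheory
open scoped ContDiff Manifold MatrixGroups
open Pool.Agent.Lib.MP_3eff7f_gt_h14

theorem BW_inl (η : ℂ → ℝ) (b : BF ℂ) (k : KK) (q : E6) : BW η b (.inl k) q =
    XP (PP k q) • osum (bil (GG (η q.2) q.1)) (b q.2) + Gram (fun y => FP (PP k y)) q := by
  unfold BW G6
  rw [Sum.elim_inl]

theorem BW_congr {η η' : ℂ → ℝ} {b b' : BF ℂ} (k : KK) (q : E6) (h1 : η q.2 = η' q.2)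
    (h2 : b q.2 = b' q.2) : BW η b (.inl k) q = BW η' b' (.inl k) q := by
  rw [BW_inl, BW_inl, h1, h2]

theorem BW_inr (η η' : ℂ → ℝ) (b b' : BF ℂ) (i : CC × Bool) (q : E6) :
    BW η b (.inr i) q = BW η' b' (.inr i) q := by
  unfold BW
  rw [Sum.elim_inr, Sum.elim_inr]

theorem exists_small {A K v : ℝ} (hA : 0 < A) (hv : 0 < v) :
    ∃ l ≥ 2, A * (1 + (K * l) ^ 2) * √(eps l) ≤ v := by
  have h0 : ∀ n : ℕ, Tendsto (fun l : ℝ => (l / 2) ^ n * Real.exp (-(l / 2))) atTop (𝓝 0) :=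
    fun n => (Real.tendsto_pow_mul_exp_neg_atTop_nhds_zero n).comp
      (tendsto_id.atTop_div_const two_pos)
  have h1 := ((h0 0).add ((h0 2).const_mul (4 * K ^ 2))).const_mul (A / 2)
  simp only [mul_zero, add_zero] at h1
  obtain ⟨l, h2, h3⟩ := ((eventually_ge_atTop 2).and (h1.eventually (gt_mem_nhds hv))).exists
  refine ⟨l, h2, le_of_eq_of_le ?_ h3.le⟩
  have : √(eps l) = 1 / 2 * Real.exp (-(l / 2)) := by
    rw [Real.sqrt_eq_iff_mul_self_eq (by unfold eps; positivity) (by positivity), eps,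
      mul_mul_mul_comm, ← Real.exp_add, show -(l / 2) + -(l / 2) = -l by ring]
    norm_num
  rw [this]
  ring

theorem st_GEO (hC : St_CAP) (hH : St_HALF) (hO : St_OFF) (hV : St_VOL) (hD : St_ADM)
    (h1 : St_WATL) (h2 : St_WMET) (h3 : St_WCPT) : St_GEO := by
  intro D Y _ _
  obtain ⟨δ₁, p1, hH⟩ := hH
  obtain ⟨K, -, hO⟩ := hO
  obtain ⟨A, pA, hV⟩ := hV D Y
  obtain ⟨S, s1, -, s2⟩ := h3 D
  have cp := D.p_cont
  have cK : IsCompact {w : D.W | ‖D.p w‖ ≤ 1 / 2} := by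
    refine (isCompact_iUnion fun a => (s1 a).1.image_of_continuousOn
      (((h1 D).om a).cont.mono (s1 a).2)).of_isClosed_subset
      (isClosed_le cp.norm continuous_const) fun w hw => ?_
    obtain ⟨a, q, hq, e⟩ := s2 w (le_trans hw (by norm_num))
    exact mem_iUnion.2 ⟨a, q, hq, e⟩
  obtain ⟨δ₂, p2, hC⟩ := hC E6 D.W D.atl (BW (eta 0) (bb 0)) _
    {w | Complex.normSq (D.p w) < 1 / 2} (h1 D) (h2 D _ _ (hD.1 0 le_rfl 0).a1) cK
    (isOpen_lt (Complex.continuous_normSq.comp cp) continuous_const) fun w hw => by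
      have : ‖D.p w‖ ≤ 1 / 2 := hw
      change Complex.normSq (D.p w) < 1 / 2
      rw [Complex.normSq_eq_norm_sq]
      nlinarith [norm_nonneg (D.p w)]
  have hk := kap_pos
  refine ⟨min (min δ₁ δ₂) (kap / 16), by positivity, fun v hv => ?_⟩
  obtain ⟨l, hl, hs⟩ := exists_small (K := K) pA hv
  have l0 : 0 ≤ l := by linarith
  have ad := hD.1 l l0 (K * l)
  refine ⟨eta l, eps l, bb (K * l), ad, fun γ En T hE hγ hT hp hδ => ?_,
    fun μ hμ => (hV l hl _ μ hμ).trans (ENNReal.ofReal_le_ofReal hs)⟩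
  simp only [le_min_iff] at hδ
  obtain ⟨e, w, n, g1, g2, g3⟩ := hH D Y l l0 _ γ En T hE hT hδ.1.1 hp hγ
  have per : ∀ s, (w (s + T), n (s + T)) = (w s, n s) := fun s =>
    (Y.i_emb e).injective (by rw [← g1, ← g1, hp s])
  have c1 : ∀ s t, n s = n t := SC14.short_const
    ⟨fun _ => ad.pos, fun _ => ad.le, fun s => ⟨0, hasDerivAt_const _ _, by
      simpa using mul_nonneg hE ad.pos.le⟩⟩ g3 hE hT hδ.2 fun s => congrArg Prod.snd (per s)
  have pw : Function.Periodic w T := fun s => congrArg Prod.fst (per s)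
  have c2 : ∀ s t, w s = w t := by
    by_cases h : ∃ s, ‖D.p (w s)‖ ≤ 1 / 2
    · refine hC _ ?_ w En T hE hT hδ.1.2 pw g2 h
      rintro (k | i) x hx hO
      · have e1 : D.p (D.j (PP k x)) = x.2 := D.p_j _ hx.2
        have e2 : Complex.normSq (D.p (D.j (PP k x))) < 1 / 2 := hO
        rw [e1] at e2
        obtain ⟨a1, a2⟩ := hD.2 l (K * l) x.2 e2.le
        exact BW_congr k x a1 a2
      · exact BW_inr _ _ _ _ i x
    · exact hO D l l0 w En T hE hT hδ.2 pw g2 fun s => not_le.1 fun hs => h ⟨s, hs⟩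
  intro s t
  rw [g1, g1, c1 s t, c2 s t]

end Pool.Agent.Lib.V10
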