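import Pool.Agent.Lib.V10.BlueT

set_option autoImplicit false

namespace Pool.Agent.Lib.V10

open Filter Topology Set

namespace G38

variable {Z A B : Type} {f : Z → A} {g : Z → B}

/-- The gluing relation of a span. -/
def rel (f : Z → A) (g : Z → B) : A ⊕ B → A ⊕ B → Prop
  | .inl a, .inl a' => a = a'
  | .inr b, .inr b' => b = b'
  | .inl a, .inr b => ∃ z, f z = a ∧ g z = b
  | .inr b, .inl a => ∃ z, f z = a ∧ g z = b

/-- The gluing relation as a setoid. -/
def sd (h : ∀ z z', f z = f z' ↔ g z = g z') : Setoid (A ⊕ B) where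
  r := rel f g
  iseqv :=
    { refl := fun x => by cases x <;> rfl
      symm := fun {x y} e => by
        cases x <;> cases y
        exacts [Eq.symm e, e, e, Eq.symm e]
      trans := fun {x y z} e e' => by
        rcases x with a | a <;> rcases y with b | b <;> rcases z with c | c
        · exact Eq.trans e e'
        · exact (show a = b from e) ▸ e'
        · obtain ⟨u, rfl, rfl⟩ := e
          obtain ⟨v, rfl, h2⟩ := e'
          exact (h _ _).2 h2.symm
        · exact (show b = c from e') ▸ e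
        · exact (show b = c from e') ▸ e
        · obtain ⟨u, rfl, rfl⟩ := e
          obtain ⟨v, h2, rfl⟩ := e'
          exact (h _ _).1 h2.symm
        · exact (show a = b from e) ▸ e'
        · exact Eq.trans e e' }

end G38

open G38 in
theorem st_GLUE : St_GLUE := by
  intro Z A B _ _ _ _ _ f g fc fo gc go h hs
  let π : A ⊕ B → Quotient (sd h) := Quotient.mk _
  have hq : IsQuotientMap π := isQuotientMap_quotient_mk'
  have e : ∀ x y, π x = π y ↔ rel f g x y := fun x y => Quotient.eq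
  have eA : IsOpenEmbedding fun a => π (.inl a) := by
    refine .of_continuous_injective_isOpenMap (hq.continuous.comp continuous_inl)
      (fun a a' h => (e _ _).1 h) fun V hV => ?_
    rw [← hq.isOpen_preimage, isOpen_sum_iff]
    constructor
    · refine (congrArg _ ?_).mp hV
      ext a
      exact ⟨fun h => ⟨a, h, rfl⟩, fun ⟨a', h1, h2⟩ => (show a' = a from (e _ _).1 h2) ▸ h1⟩
    · refine (congrArg _ ?_).mp (go _ (hV.preimage fc))
      ext b
      constructor
      · rintro ⟨z, hz, rfl⟩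
        exact ⟨_, hz, (e _ _).2 ⟨z, rfl, rfl⟩⟩
      · rintro ⟨a, h1, h2⟩
        obtain ⟨z, rfl, rfl⟩ := (e _ _).1 h2
        exact ⟨z, h1, rfl⟩
  have eB : IsOpenEmbedding fun b => π (.inr b) := by
    refine .of_continuous_injective_isOpenMap (hq.continuous.comp continuous_inr)
      (fun a a' h => (e _ _).1 h) fun V hV => ?_
    rw [← hq.isOpen_preimage, isOpen_sum_iff]
    constructor
    · refine (congrArg _ ?_).mp (fo _ (hV.preimage gc))
      ext b
      constructor
      · rintro ⟨z, hz, rfl⟩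
        exact ⟨_, hz, (e _ _).2 ⟨z, rfl, rfl⟩⟩
      · rintro ⟨a, h1, h2⟩
        obtain ⟨z, rfl, rfl⟩ := (e _ _).1 h2
        exact ⟨z, h1, rfl⟩
    · refine (congrArg _ ?_).mp hV
      ext a
      exact ⟨fun h => ⟨a, h, rfl⟩, fun ⟨a', h1, h2⟩ => (show a' = a from (e _ _).1 h2) ▸ h1⟩
  have sA : ∀ a a', π (.inl a) ≠ π (.inl a') → ∃ u v : Set (Quotient (sd h)), IsOpen u ∧
      IsOpen v ∧ π (.inl a) ∈ u ∧ π (.inl a') ∈ v ∧ Disjoint u v := fun a a' hn =>
    separated_by_isOpenEmbedding eA fun h => hn (by rw [h])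
  have sB : ∀ a a', π (.inr a) ≠ π (.inr a') → ∃ u v : Set (Quotient (sd h)), IsOpen u ∧
      IsOpen v ∧ π (.inr a) ∈ u ∧ π (.inr a') ∈ v ∧ Disjoint u v := fun a a' hn =>
    separated_by_isOpenEmbedding eB fun h => hn (by rw [h])
  have sAB : ∀ a b, π (.inl a) ≠ π (.inr b) → ∃ u v : Set (Quotient (sd h)), IsOpen u ∧
      IsOpen v ∧ π (.inl a) ∈ u ∧ π (.inr b) ∈ v ∧ Disjoint u v := fun a b hn => by
    by_cases ha : a ∈ range f
    · obtain ⟨z, rfl⟩ := ha
      have : π (.inl (f z)) = π (.inr (g z)) := (e _ _).2 ⟨z, rfl, rfl⟩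
      rw [this] at hn ⊢
      exact sB _ _ hn
    by_cases hb : b ∈ range g
    · obtain ⟨z, rfl⟩ := hb
      have : π (.inl (f z)) = π (.inr (g z)) := (e _ _).2 ⟨z, rfl, rfl⟩
      rw [← this] at hn ⊢
      exact sA _ _ hn
    obtain ⟨U, hU, V, hV, h3⟩ := hs a ha b hb
    refine ⟨_, _, eA.isOpenMap _ (isOpen_interior (s := U)), eB.isOpenMap _
      (isOpen_interior (s := V)), ⟨a, mem_interior_iff_mem_nhds.2 hU, rfl⟩,
      ⟨b, mem_interior_iff_mem_nhds.2 hV, rfl⟩, disjoint_left.2 ?_⟩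
    rintro _ ⟨a', h1, rfl⟩ ⟨b', h2, h4⟩
    obtain ⟨z, rfl, rfl⟩ := (e _ _).1 h4
    exact h3 z (interior_subset h1) (interior_subset h2)
  refine ⟨Quotient (sd h), inferInstance, _, _, ⟨fun x y hn => ?_⟩, eA, eB, fun a b => e _ _,
    fun p => ?_⟩
  · obtain ⟨x | x, rfl⟩ := hq.surjective x <;> obtain ⟨y | y, rfl⟩ := hq.surjective y
    · exact sA _ _ hn
    · exact sAB _ _ hn
    · obtain ⟨u, v, h1, h2, h3, h4, h5⟩ := sAB _ _ hn.symm
      exact ⟨v, u, h2, h1, h4, h3, h5.symm⟩
    · exact sB _ _ hn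
  · obtain ⟨x | x, rfl⟩ := hq.surjective p
    exacts [.inl ⟨x, rfl⟩, .inr ⟨x, rfl⟩]

end Pool.Agent.Lib.V10
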