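import Pool.Agent.Lib.V10.BlueT

set_option autoImplicit false

namespace Pool.Agent.Lib.V10

open Filter Topology Set

namespace H41

variable {Z G E : Type} [TopologicalSpace Z] [Group G] [TopologicalSpace E]

/-- The piece of a curve between two times. -/
def seg (f : C(ℝ, Z)) (a b : ℝ) : C(II, Z) := ⟨fun t => f (a + t * (b - a)), by fun_prop⟩

theorem seg_apply (f : C(ℝ, Z)) (a b : ℝ) (t : II) : seg f a b t = f (a + t * (b - a)) := rfl

theorem seg_add (ho : Hol Z G) (f : C(ℝ, Z)) (a b c : ℝ) :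
    ho.hol (seg f a b) * ho.hol (seg f b c) = ho.hol (seg f a c) := by
  have := ho.sq ⟨fun p => f (a + p.1 * ((b - a) + p.2 * (c - b))), by fun_prop⟩ (seg f a b)
    (seg f b c) (.const II (f a)) (seg f a c) (fun s => by simp [seg_apply])
    (fun s => by simp only [seg_apply, ContinuousMap.coe_mk, Icc.coe_one]; congr 1; ring)
    (fun s => by simp) fun s => by simp [seg_apply]
  rwa [ho.cst, one_mul] at this

theorem hol_const (ho : Hol Z G) {q : C(II, Z)} {z : Z} (h : ∀ t, q t = z) : ho.hol q = 1 := by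
  rw [show q = .const II z from ContinuousMap.ext h, ho.cst]

theorem seg_self (ho : Hol Z G) (f : C(ℝ, Z)) (a : ℝ) : ho.hol (seg f a a) = 1 :=
  hol_const ho (z := f a) fun t => by simp [seg_apply]

/-- The extension of a path to the line. -/
noncomputable def exq (q : C(II, Z)) : C(ℝ, Z) :=
  q.comp ⟨projIcc 0 1 zero_le_one, continuous_projIcc⟩

theorem exq_apply (q : C(II, Z)) (t : ℝ) : exq q t = q (projIcc 0 1 zero_le_one t) := rfl

theorem seg_exq (q : C(II, Z)) : seg (exq q) 0 1 = q := by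
  ext t
  simp [seg_apply, exq_apply]

theorem hol_trans (ho : Hol Z G) {x y z : Z} (p : Path x y) (q : Path y z) :
    ho.hol (p.trans q).toContinuousMap = ho.hol p.toContinuousMap * ho.hol q.toContinuousMap := by
  have e1 : seg (p.trans q).extend 0 (1 / 2) = p.toContinuousMap := by
    ext t
    rw [seg_apply, Path.extend_trans_of_le_half _ _ (by linarith [t.2.2]),
      show 2 * (0 + t * (1 / 2 - 0) : ℝ) = t by ring, Path.extend_extends']
    rfl
  have e2 : seg (p.trans q).extend (1 / 2) 1 = q.toContinuousMap := by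
    ext t
    rw [seg_apply, Path.extend_trans_of_half_le _ _ (by linarith [t.2.1]),
      show 2 * (1 / 2 + t * (1 - 1 / 2) : ℝ) - 1 = t by ring, Path.extend_extends']
    rfl
  rw [← e1, ← e2, seg_add]
  exact congrArg ho.hol (seg_exq (p.trans q).toContinuousMap).symm

theorem hol_symm (ho : Hol Z G) {x y : Z} (p : Path x y) :
    ho.hol p.symm.toContinuousMap = (ho.hol p.toContinuousMap)⁻¹ := by
  have e1 : seg p.extend 1 0 = p.symm.toContinuousMap := by
    ext t
    rw [seg_apply, show (1 + t * (0 - 1) : ℝ) = 1 - t by ring, ← Path.extend_symm_apply,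
      Path.extend_extends']
    rfl
  have e2 : seg p.extend 0 1 = p.toContinuousMap := seg_exq p.toContinuousMap
  rw [← e1, ← e2, eq_inv_iff_mul_eq_one, seg_add, seg_self]

/-- A curve as a path between its end points. -/
def pth (q : C(II, Z)) : Path (q 0) (q 1) := ⟨q, rfl, rfl⟩

theorem pot0 (ho : Hol Z G) (h : ∀ q : C(II, Z), q 0 = q 1 → ho.hol q = 1) :
    ∃ g : Z → G, ∀ q : C(II, Z), ho.hol q = (g (q 0))⁻¹ * g (q 1) := by
  have j : ∀ x : Z, Joined (Quotient.mk (pathSetoid Z) x).out x := fun x =>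
    Quotient.mk_out (s := pathSetoid Z) x
  refine ⟨fun x => ho.hol (j x).somePath.toContinuousMap, fun q => ?_⟩
  have e : Quotient.mk (pathSetoid Z) (q 0) = Quotient.mk (pathSetoid Z) (q 1) :=
    Quotient.sound ⟨pth q⟩
  have := h ((j (q 0)).somePath.trans ((pth q).trans (j (q 1)).somePath.symm)).toContinuousMap
    (by simp [e])
  rw [hol_trans, hol_trans, hol_symm, ← mul_assoc, mul_inv_eq_one] at this
  exact eq_inv_mul_iff_mul_eq.2 this

/-- The image of a curve in `Ω`. -/
def img {F : E → Z} {Ω : Set E} (hF : ContinuousOn F Ω) (q : C(II, E)) (hq : ∀ t, q t ∈ Ω) :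
    C(II, Z) := ⟨fun t => F (q t), hF.comp_continuous q.continuous hq⟩

theorem pot_triv {ho : Hol Z G} {F : E → Z} {Ω : Set E} {g : E → G} (h : ho.Pot F Ω g) :
    ho.Triv F Ω := fun q q' h1 h2 h3 => by rw [h q q' h1 h2, h3, inv_mul_cancel]

theorem pot_mono {ho : Hol Z G} {F : E → Z} {Ω Ω' : Set E} {g : E → G} (h : ho.Pot F Ω g)
    (hs : Ω' ⊆ Ω) : ho.Pot F Ω' g := fun q q' h1 h2 => h q q' (fun t => hs (h1 t)) h2

theorem triv_mono {ho : Hol Z G} {F : E → Z} {Ω Ω' : Set E} (h : ho.Triv F Ω)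
    (hs : Ω' ⊆ Ω) : ho.Triv F Ω' := fun q q' h1 h2 => h q q' (fun t => hs (h1 t)) h2

/-- Freely homotopic loops. -/
theorem free_htp (ho : Hol Z G) (H : C(II × II, Z)) (hH : ∀ t, H (0, t) = H (1, t))
    (a d : C(II, Z)) (ha : ∀ s, a s = H (s, 0)) (hd : ∀ s, d s = H (s, 1)) :
    ho.hol a = 1 ↔ ho.hol d = 1 := by
  have := ho.sq H a ⟨fun t => H (1, t), by fun_prop⟩ ⟨fun t => H (1, t), by fun_prop⟩ d ha
    (fun _ => rfl) (fun t => (hH t).symm) hd
  constructor
  · intro h
    rwa [h, one_mul, left_eq_mul] at this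
  · intro h
    rwa [h, mul_one, mul_eq_right] at this

theorem lift_path {F : E → Z} {Ω : Set E} (h : OMap F Ω) (hi : InjOn F Ω) (q : C(II, Z))
    (hq : ∀ t, q t ∈ F '' Ω) : ∃ r : C(II, E), ∀ t, r t ∈ Ω ∧ F (r t) = q t := by
  choose r h1 h2 using hq
  refine ⟨⟨r, continuous_def.2 fun V hV => ?_⟩, fun t => ⟨h1 t, h2 t⟩⟩
  have : r ⁻¹' V = q ⁻¹' (F '' (V ∩ Ω)) := by
    ext t
    refine ⟨fun ht => ⟨r t, ⟨ht, h1 t⟩, h2 t⟩, fun ⟨y, hy, e⟩ => ?_⟩
    rw [mem_preimage, ← hi hy.2 (h1 t) (e.trans (h2 t).symm)]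
    exact hy.1
  rw [this]
  exact (h.omap _ inter_subset_right (hV.inter h.opn)).preimage q.continuous

end H41

open H41

theorem st_HOL : St_HOL := by
  intro Y _ hY hF
  obtain ⟨x₀⟩ := hY.nonempty
  let t : ∀ y : Y, Path.Homotopic.Quotient x₀ y := fun y => .mk (PathConnectedSpace.somePath x₀ y)
  let cl : ∀ {x y : Y}, Path.Homotopic.Quotient x y → (FundamentalGroup Y x₀)ᵐᵒᵖ :=
    fun {x y} p => MulOpposite.op ((t x).trans (p.trans (t y).symm))
  have c1 : ∀ {x y z : Y} (p : Path.Homotopic.Quotient x y) (q : Path.Homotopic.Quotient y z),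
      cl p * cl q = cl (p.trans q) := fun {x y z} p q => by
    simp only [cl, ← MulOpposite.op_mul, FundamentalGroup.mul_def,
      Path.Homotopic.Quotient.trans_assoc]
    rw [← Path.Homotopic.Quotient.trans_assoc (t y).symm, Path.Homotopic.Quotient.symm_trans,
      Path.Homotopic.Quotient.refl_trans]
  have c2 : ∀ x : Y, cl (.refl x) = 1 := fun x => by
    simp only [cl, Path.Homotopic.Quotient.refl_trans, Path.Homotopic.Quotient.trans_symm]
    rfl
  have c3 : ∀ (q : C(II, Y)) {x y : Y} (p : Path x y), (∀ s, q s = p s) →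
      cl (.mk (pth q)) = cl (.mk p) := by
    rintro q x y ⟨p, rfl, rfl⟩ h
    obtain rfl : q = p := ContinuousMap.ext h
    rfl
  have : ContractibleSpace II := (convex_Icc (0 : ℝ) 1).contractibleSpace ⟨0, by simp⟩
  let ho : Hol Y (FundamentalGroup Y x₀)ᵐᵒᵖ :=
    { hol := fun q => cl (.mk (pth q))
      cst := fun z => (c3 _ (.refl z) fun _ => rfl).trans (c2 z)
      sq := fun H a b c d ha hb hc hd => by
        have h := (SimplyConnectedSpace.paths_homotopic
          ((Path.id.prod (.refl (0 : II))).trans ((Path.refl (1 : II)).prod Path.id))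
          (((Path.refl (0 : II)).prod Path.id).trans (Path.id.prod (.refl (1 : II))))).map H
        rw [Path.map_trans, Path.map_trans] at h
        rw [c3 a ((Path.id.prod (.refl (0 : II))).map H.continuous) ha,
          c3 b (((Path.refl (1 : II)).prod Path.id).map H.continuous) hb,
          c3 c (((Path.refl (0 : II)).prod Path.id).map H.continuous) hc,
          c3 d ((Path.id.prod (.refl (1 : II))).map H.continuous) hd, c1, c1]
        exact congrArg cl (Quotient.sound h) }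
  refine simply_connected_iff_loops_nullhomotopic.2 ⟨hY, fun x γ => ?_⟩
  have h1 : cl (.mk γ) = 1 := (c3 γ.toContinuousMap γ fun _ => rfl).symm.trans
    (hF _ ho γ.toContinuousMap γ.toContinuousMap (fun _ => mem_univ _) (fun _ => rfl) (by simp))
  have h2 : (t x).trans ((Path.Homotopic.Quotient.mk γ).trans (t x).symm) = .refl x₀ :=
    MulOpposite.op_injective h1
  have h3 := congrArg (fun p => (t x).symm.trans (Path.Homotopic.Quotient.trans p (t x))) h2
  simp only [Path.Homotopic.Quotient.trans_assoc, Path.Homotopic.Quotient.symm_trans,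
    Path.Homotopic.Quotient.trans_refl, Path.Homotopic.Quotient.refl_trans] at h3
  rw [← Path.Homotopic.Quotient.trans_assoc, Path.Homotopic.Quotient.symm_trans,
    Path.Homotopic.Quotient.refl_trans] at h3
  exact Quotient.exact h3

theorem st_HPOT : St_HPOT := by
  intro Z G E _ _ _ ho F Ω hF hT
  classical
  let F' : C(Ω, Z) := ⟨fun x => F x, hF.comp_continuous continuous_subtype_val fun x => x.2⟩
  obtain ⟨g, hg⟩ := pot0 (ho.comap F') fun q hq =>
    hT ⟨fun t => q t, by fun_prop⟩ _ (fun t => (q t).2) (fun _ => rfl) (congrArg Subtype.val hq)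
  refine ⟨fun x => if h : x ∈ Ω then g ⟨x, h⟩ else 1, fun q q' h1 h2 => ?_⟩
  have := hg ⟨fun t => ⟨q t, h1 t⟩, by fun_prop⟩
  simp only [dif_pos (h1 _)]
  exact (congrArg ho.hol (ContinuousMap.ext h2)).trans this

theorem st_HLOC : St_HLOC := by
  intro Z G E _ _ _ ho F Ω g h q q' h1 h2
  have lc : IsLocallyConstant fun t : ℝ => ho.hol (seg (exq q') 0 t) * (g (exq q t))⁻¹ := by
    refine (IsLocallyConstant.iff_eventually_eq _).2 fun t => ?_
    obtain ⟨V, hV, hp⟩ := h _ (h1 (projIcc 0 1 zero_le_one t))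
    obtain ⟨ε, hε, hb⟩ := Metric.mem_nhds_iff.1
      ((exq q).continuous.continuousAt.preimage_mem_nhds (x := t) hV)
    filter_upwards [Metric.ball_mem_nhds t hε] with u hu
    have := hp (seg (exq q) t u) (seg (exq q') t u) (fun s => ⟨h1 _, hb (by
      rw [Metric.mem_ball, Real.dist_eq] at hu ⊢
      rw [add_sub_cancel_left, abs_mul, abs_of_nonneg s.2.1]
      exact (mul_le_of_le_one_left (abs_nonneg _) s.2.2).trans_lt hu)⟩) fun s => h2 _
    rw [← seg_add ho _ 0 t u, this]
    simp [seg_apply, mul_assoc]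
  have := lc.apply_eq_of_preconnectedSpace 1 0
  rw [seg_exq, seg_self, one_mul, mul_inv_eq_iff_eq_mul] at this
  simpa [exq_apply] using this

theorem st_HTP : St_HTP := by
  refine ⟨?_, ?_, ?_, ?_⟩
  · intro Z G E _ _ _ ho H Ω hH hT q q' h1 h2 h3
    let K : C(II × II, Z) := ⟨fun p => H p.2 (q p.1), hH.comp_continuous
      (f := fun p : II × II => ((p.2 : ℝ), q p.1)) (by fun_prop) fun p => ⟨p.2.2, h1 _⟩⟩
    exact (free_htp ho K (fun t => congrArg (H t) h3) q' ⟨fun s => K (s, 1), by fun_prop⟩ h2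
      fun _ => rfl).2 (hT q _ h1 (fun _ => rfl) h3)
  · intro Z G E _ _ _ _ ho F Ω hc hF q q' h1 h2 h3
    let K : C(II × II, Z) := ⟨fun p => F (q p.1 + (p.2 : ℝ) • (q 0 - q p.1)), hF.comp_continuous
      (by fun_prop) fun p => hc.add_smul_sub_mem (h1 _) (h1 _) p.2.2⟩
    exact (free_htp ho K (fun t => by simp [K, ← h3]) q' (.const II (F (q 0)))
      (fun s => by simp [K, h2]) fun s => by simp [K]).2 (ho.cst _)
  · intro Z G E _ _ _ ho F Ω h hi
    refine ⟨fun hT q q' h1 h2 h3 => ?_, fun g g' hg hp q q' h1 h2 => ?_⟩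
    · obtain ⟨r, hr⟩ := lift_path h hi q h1
      exact hT r q' (fun t => (hr t).1) (fun t => (h2 t).trans (hr t).2.symm)
        (hi (hr _).1 (hr _).1 (by rw [(hr _).2, (hr _).2, h3]))
    · obtain ⟨r, hr⟩ := lift_path h hi q h1
      rw [hp r q' (fun t => (hr t).1) (fun t => (h2 t).trans (hr t).2.symm), ← (hr 0).2,
        ← (hr 1).2, hg _ (hr _).1, hg _ (hr _).1]
  · intro Z G E E' T _ _ _ _ _ ho F Ω g F' Ω' g' S φ φ' hp hp' hF hS c c' h s hs s' hs'
    obtain ⟨r, hr⟩ := hS.joinedIn s hs s' hs'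
    have a := hp (img c r.toContinuousMap hr) (img hF _ fun t => (h _ (hr t)).1)
      (fun t => (h _ (hr t)).1) fun _ => rfl
    have b := hp' (img c' r.toContinuousMap hr) (img hF (img c r.toContinuousMap hr)
      fun t => (h _ (hr t)).1) (fun t => (h _ (hr t)).2.1) fun t => (h _ (hr t)).2.2
    rw [a] at b
    simp only [img, ContinuousMap.coe_mk, Path.coe_toContinuousMap, r.source, r.target] at b
    rw [inv_mul_eq_iff_eq_mul] at b
    rw [b]
    group

theorem st_HCOV : St_HCOV := by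
  intro Z G ι _ _ ho U V hU hV tU tV pc hj
  classical
  obtain ⟨g₀, h₀⟩ := st_HPOT Z G Z ho id U continuousOn_id tU
  have key : ∀ i, ∃ g, ho.Pot id (V i) g ∧ ∀ z ∈ U ∩ V i, g z = g₀ z := fun i => by
    obtain ⟨g, hg⟩ := st_HPOT Z G Z ho id (V i) continuousOn_id (tV i)
    obtain ⟨z₀, hz₀⟩ := (pc i).nonempty
    refine ⟨fun z => g₀ z₀ * (g z₀)⁻¹ * g z, fun q q' h1 h2 => ?_, fun z hz => ?_⟩
    · rw [hg q q' h1 h2]
      group
    · have := st_HTP.2.2.2 Z G Z Z Z ho id U g₀ id (V i) g (U ∩ V i) id id h₀ hg continuousOn_id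
        (pc i) continuousOn_id continuousOn_id (fun s hs => ⟨hs.1, hs.2, rfl⟩) z₀ hz₀ z hz
      simp only [id] at this
      simp only [this, inv_mul_cancel_right]
  choose g h1 h2 using key
  have h3 : ∀ i j, ∀ z ∈ V i ∩ V j, g i z = g j z := fun i j z hz => by
    obtain ⟨z', hz', r, hr⟩ := hj i j z hz
    have a := h1 i r.toContinuousMap _ (fun t => (hr t).1) fun _ => rfl
    have b := h1 j r.toContinuousMap _ (fun t => (hr t).2) fun _ => rfl
    have m := hr 1
    simp only [Path.coe_toContinuousMap, r.source, r.target] at a b m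
    rw [a, h2 i z' ⟨hz', m.1⟩, h2 j z' ⟨hz', m.2⟩] at b
    simpa using b
  let f : Z → G := fun z => if h : ∃ i, z ∈ V i then g h.choose z else g₀ z
  have f1 : ∀ i, ∀ z ∈ V i, f z = g i z := fun i z hz => by
    have : ∃ i, z ∈ V i := ⟨i, hz⟩
    simp only [f, dif_pos this]
    exact h3 _ _ z ⟨this.choose_spec, hz⟩
  have f0 : ∀ z ∈ U, f z = g₀ z := fun z hz => by
    by_cases h : ∃ i, z ∈ V i
    · obtain ⟨i, hi⟩ := h
      rw [f1 i z hi, h2 i z ⟨hz, hi⟩]
    · exact dif_neg h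
  refine pot_triv (g := f) (st_HLOC Z G Z ho id _ f ?_)
  rintro x (hx | hx)
  · exact ⟨U, hU.mem_nhds hx, fun q q' a b => by
      rw [f0 _ (a 0).2, f0 _ (a 1).2, h₀ q q' (fun t => (a t).2) b]⟩
  · obtain ⟨i, hi⟩ := mem_iUnion.1 hx
    exact ⟨V i, (hV i).mem_nhds hi, fun q q' a b => by
      rw [f1 i _ (a 0).2, f1 i _ (a 1).2, h1 i q q' (fun t => (a t).2) b]⟩

theorem st_HPROD : St_HPROD := by
  intro A B G _ _ _ _ _ ho a₀ b₀ hA hB q q' _ h2 h3
  obtain rfl : q' = q := ContinuousMap.ext h2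
  let r := PathConnectedSpace.somePath b₀ (q' 0).2
  let r' := PathConnectedSpace.somePath a₀ (q' 1).1
  have e1 : ho.hol ⟨fun s => ((q' s).1, (q' 0).2), by fun_prop⟩ = 1 :=
    (free_htp ho ⟨fun p => ((q' p.1).1, r p.2), by fun_prop⟩ (fun t => by simp [h3])
      ⟨fun s => ((q' s).1, b₀), by fun_prop⟩ _ (fun s => by simp) fun s => by simp).1
      (hA ⟨fun s => (q' s).1, by fun_prop⟩ _ (fun _ => mem_univ _) (fun _ => rfl) (by simp [h3]))
  have e2 : ho.hol ⟨fun s => ((q' 1).1, (q' s).2), by fun_prop⟩ = 1 :=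
    (free_htp ho ⟨fun p => (r' p.2, (q' p.1).2), by fun_prop⟩ (fun t => by simp [h3])
      ⟨fun s => (a₀, (q' s).2), by fun_prop⟩ _ (fun s => by simp) fun s => by simp).1
      (hB ⟨fun s => (q' s).2, by fun_prop⟩ _ (fun _ => mem_univ _) (fun _ => rfl) (by simp [h3]))
  have := ho.sq ⟨fun p => ((q' p.1).1, (q' (p.1 * p.2)).2), by fun_prop⟩
    ⟨fun s => ((q' s).1, (q' 0).2), by fun_prop⟩ ⟨fun s => ((q' 1).1, (q' s).2), by fun_prop⟩
    (.const II (q' 0)) q' (fun s => by simp) (fun s => by simp) (fun s => by simp) fun s => by simp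
  rw [e1, e2, ho.cst, one_mul, one_mul] at this
  exact this.symm

end Pool.Agent.Lib.V10
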