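import Pool.Agent.Lib.V10.BlueT

set_option autoImplicit false

namespace Pool.Agent.Lib.V10

open Filter Topology Set MeasureTheory
open scoped ContDiff
open Pool.Agent.Lib.MP_3eff7f_gt_h14

namespace L14

theorem gd_prod {E F ι κ : Type} [NormedAddCommGroup E] [NormedSpace ℝ E] [NormedAddCommGroup F]
    [NormedSpace ℝ F] [Fintype ι] [DecidableEq ι] [Fintype κ] [DecidableEq κ]
    (β : Module.Basis ι ℝ E) (β' : Module.Basis κ ℝ F) (b : E →L[ℝ] E →L[ℝ] ℝ)
    (b' : F →L[ℝ] F →L[ℝ] ℝ) : gd (β.prod β') (osum b b') = gd β b * gd β' b' := by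
  rw [gd, gd, gd, ← Matrix.det_fromBlocks_zero₂₁ _ 0]
  congr 1
  ext (i | i) (j | j) <;> simp [osum_apply]

theorem gd_bil {n : ℕ} (A : Matrix (Fin n) (Fin n) ℝ) :
    gd (Pi.basisFun ℝ (Fin n)) (bil A) = A.det := by
  rw [gd]
  congr 1
  ext i j
  simp [bil_single]

theorem haar_pi (n : ℕ) : (Pi.basisFun ℝ (Fin n)).addHaar = volume := by
  rw [← addHaarMeasure_eq_volume_pi, ← Module.Basis.parallelepiped_basisFun,
    Module.Basis.addHaar_def]

theorem haar6 : β6.addHaar = volume := by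
  rw [β6, Module.Basis.prod_addHaar, haar_pi, ← Complex.toBasis_orthonormalBasisOneI,
    OrthonormalBasis.addHaar_eq_volume]
  rfl

end L14

theorem st_LIN : St_LIN := by
  refine ⟨L14.haar6, ?_, fun b A => ?_, fun A b => ?_⟩
  · rw [β10, Module.Basis.prod_addHaar, L14.haar6, L14.haar_pi]
    rfl
  · rw [β10, L14.gd_prod, L14.gd_bil]
  · rw [β6, L14.gd_prod, L14.gd_bil, gd, Matrix.det_fin_two]
    simp

theorem st_GSM : St_GSM := by
  intro η x h0 h1 v w
  have ht : ContDiff ℝ ∞ fun p : ℝ × E4 => tt p.2 := contDiff_tt.comp contDiff_snd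
  have hm : ContDiff ℝ ∞ fun p : ℝ × E4 => mu p.1 (tt p.2) :=
    ht.add (contDiff_fst.mul (contDiff_psi.comp ht))
  have h := (mu_pos h0 h1 (tt_nonneg x)).ne'
  have hH : ContDiffAt ℝ ∞ (fun p : ℝ × E4 => Hf p.1 (tt p.2)) (η, x) :=
    contDiffAt_fst.div hm.contDiffAt h
  have hB : ContDiffAt ℝ ∞ (fun p : ℝ × E4 => Bf p.1 (tt p.2)) (η, x) :=
    (contDiffAt_const.div (hm.contDiffAt.pow 2) (pow_ne_zero 2 h)).sub hH
  have hL : ContDiffAt ℝ ∞ (fun p : ℝ × E4 => Lf (tt p.2)) (η, x) :=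
    (contDiff_Lf.comp ht).contDiffAt
  simp only [GG, bil_Gm]
  fun_prop

end Pool.Agent.Lib.V10
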