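import Pool.Agent.Lib.V10.Blue

set_option autoImplicit false

namespace Pool.Agent.Lib.V10.M14

open Filter Topology Matrix Set Bundle MeasureTheory
open scoped ContDiff Manifold
open Pool.Agent.Lib.MP_3eff7f_gt_h14

variable {n : ℕ}

theorem fderiv_quad' {G : MF n} {y : Fin n → ℝ}
    (sm : ∀ i j, DifferentiableAt ℝ (fun x => G x i j) y) (v w : Fin n → ℝ) :
    fderiv ℝ (fun y => bil (G y) v v) y w =
      ∑ l, w l * ∑ i, ∑ j, pd l (fun y => G y i j) y * v i * v j := by
  have h : HasFDerivAt (fun y => bil (G y) v v)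
      (∑ i, ∑ j, (v i * v j) • fderiv ℝ (fun y => G y i j) y) y := by
    simp only [bil_eq_sum]
    refine HasFDerivAt.fun_sum fun i _ => HasFDerivAt.fun_sum fun j _ => ?_
    have := (sm i j).hasFDerivAt.const_mul (v i * v j)
    have e : (fun y => G y i j * v i * v j) = fun y => v i * v j * G y i j := by
      funext y; ring
    rw [e]
    exact this
  rw [h.fderiv, fderiv_eq_sum]
  refine Finset.sum_congr rfl fun l _ => ?_
  simp only [ContinuousLinearMap.sum_apply, ContinuousLinearMap.smul_apply, smul_eq_mul, pd]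
  congr 1
  exact Finset.sum_congr rfl fun i _ => Finset.sum_congr rfl fun j _ => by ring

theorem el' {G : MF n} {x : ℝ → Fin n → ℝ} {t : ℝ}
    (sm : ∀ i j, DifferentiableAt ℝ (fun x => G x i j) (x t)) (pos : (G (x t)).PosDef)
    (hx : ContDiffAt ℝ 2 x t) (h : GeodEq G x t)
    {w : ℝ → Fin n → ℝ} {w' : Fin n → ℝ} (hw : HasDerivAt w w' t) :
    HasDerivAt (fun s => bil (G (x s)) (deriv x s) (w s))
      (1 / 2 * fderiv ℝ (fun y => bil (G y) (deriv x t) (deriv x t)) (x t) (w t) +
        bil (G (x t)) (deriv x t) w') t := by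
  have hx1 := (hx.differentiableAt (by simp)).hasDerivAt
  have hx2 := hasDerivAt_deriv_of_two hx
  set v := deriv x t with hv
  set a := deriv (deriv x) t with ha
  have e1 : ∀ i, deriv (fun s => x s i) t = v i := fun i => (hasDerivAt_pi.1 hx1 i).deriv
  have e2 : ∀ i, deriv (deriv fun s => x s i) t = a i := fun i => by
    have : (deriv fun s => x s i) =ᶠ[𝓝 t] fun s => deriv x s i := by
      filter_upwards [eventually_diff hx] with s hs
      exact (hasDerivAt_pi.1 hs.hasDerivAt i).deriv
    rw [this.deriv_eq]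
    exact (hasDerivAt_pi.1 hx2 i).deriv
  let P : Fin n → Fin n → Fin n → ℝ := fun l i j => pd l (fun y => G y i j) (x t)
  have hG : ∀ i j, HasDerivAt (fun s => G (x s) i j) (∑ l, v l * P l i j) t := fun i j => by
    have := (sm i j).hasFDerivAt.comp_hasDerivAt t hx1
    rw [fderiv_eq_sum] at this
    exact this
  have hsym : ∀ i j, G (x t) i j = G (x t) j i := fun i j => by
    rw [← bil_single (G (x t)), bil_symm pos, bil_single]
  have hu : IsUnit (G (x t)).det := pos.det_pos.ne'.isUnit
  have hδ : ∀ j l, ∑ k, G (x t) j k * (G (x t))⁻¹ k l = if j = l then 1 else 0 := fun j l => by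
    rw [← mul_apply, mul_nonsing_inv _ hu, one_apply]
  have key : ∀ j, ∑ k, G (x t) k j * a k =
      -(1 / 2 * ∑ p, ∑ q, (P p q j + P q p j - P j p q) * v p * v q) := fun j => by
    have h1 : ∀ k, a k = -∑ p, ∑ q, Chr G k p q (x t) * v p * v q := fun k => by
      have := h k
      simp only [e1, e2] at this
      linarith
    have h2 : ∀ p q, ∑ k, G (x t) k j * Chr G k p q (x t) = 1 / 2 * (P p q j + P q p j - P j p q) :=
      fun p q => by
        calc ∑ k, G (x t) k j * Chr G k p q (x t)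
            = 1 / 2 * ∑ l, (∑ k, G (x t) j k * (G (x t))⁻¹ k l) * (P p q l + P q p l - P l p q) := by
              simp only [Chr, Finset.mul_sum, Finset.sum_mul]
              rw [Finset.sum_comm]
              exact Finset.sum_congr rfl fun l _ => Finset.sum_congr rfl fun k _ => by
                rw [hsym k j]; ring
          _ = _ := by simp [hδ]
    simp only [h1, mul_neg, Finset.sum_neg_distrib, Finset.mul_sum]
    congr 1
    rw [Finset.sum_comm]
    refine Finset.sum_congr rfl fun p _ => ?_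
    rw [Finset.sum_comm]
    refine Finset.sum_congr rfl fun q _ => ?_
    calc ∑ k, G (x t) k j * (Chr G k p q (x t) * v p * v q)
        = (∑ k, G (x t) k j * Chr G k p q (x t)) * v p * v q := by
          simp only [Finset.sum_mul]
          exact Finset.sum_congr rfl fun k _ => by ring
      _ = _ := by rw [h2]; ring
  simp only [bil_eq_sum (G (x _))]
  have hd : HasDerivAt (fun s => ∑ i, ∑ j, G (x s) i j * deriv x s i * w s j)
      (∑ i, ∑ j, (((∑ l, v l * P l i j) * v i + G (x t) i j * a i) * w t j +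
        G (x t) i j * v i * w' j)) t :=
    HasDerivAt.fun_sum fun i _ => HasDerivAt.fun_sum fun j _ =>
      ((hG i j).mul (hasDerivAt_pi.1 hx2 i)).mul (hasDerivAt_pi.1 hw j)
  refine hd.congr_deriv (Eq.symm ?_)
  rw [fderiv_quad' sm]
  simp only [Finset.sum_add_distrib, add_mul]
  congr 1
  rw [Finset.sum_comm, Finset.sum_comm (f := fun i j => G (x t) i j * a i * w t j),
    ← Finset.sum_add_distrib, Finset.mul_sum]
  refine Finset.sum_congr rfl fun j _ => ?_
  rw [← Finset.sum_mul, ← Finset.sum_mul, key j]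
  have s1 : ∑ i, (∑ l, v l * P l i j) * v i = ∑ p, ∑ q, P p q j * v p * v q := by
    rw [Finset.sum_comm]
    simp only [Finset.sum_mul]
    exact Finset.sum_congr rfl fun i _ => Finset.sum_congr rfl fun l _ => by ring
  have s2 : ∑ p, ∑ q, P q p j * v p * v q = ∑ p, ∑ q, P p q j * v p * v q := by
    rw [Finset.sum_comm]
    exact Finset.sum_congr rfl fun i _ => Finset.sum_congr rfl fun l _ => by ring
  simp only [add_mul, sub_mul, Finset.sum_add_distrib, Finset.sum_sub_distrib, s1, s2]
  ring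

theorem energy' {G : MF n} {x : ℝ → Fin n → ℝ} {t : ℝ}
    (sm : ∀ i j, DifferentiableAt ℝ (fun x => G x i j) (x t)) (pos : (G (x t)).PosDef)
    (hx : ContDiffAt ℝ 2 x t) (h : GeodEq G x t) :
    HasDerivAt (fun s => bil (G (x s)) (deriv x s) (deriv x s)) 0 t := by
  have hx1 := (hx.differentiableAt (by simp)).hasDerivAt
  have hx2 := hasDerivAt_deriv_of_two hx
  have h1 := el' sm pos hx h hx2
  have hG : ∀ i j, HasDerivAt (fun s => G (x s) i j)
      (∑ l, deriv x t l * pd l (fun y => G y i j) (x t)) t := fun i j => by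
    have := (sm i j).hasFDerivAt.comp_hasDerivAt t hx1
    rw [fderiv_eq_sum] at this
    exact this
  have h2 : HasDerivAt (fun s => bil (G (x s)) (deriv x s) (deriv x s))
      (fderiv ℝ (fun y => bil (G y) (deriv x t) (deriv x t)) (x t) (deriv x t) +
        bil (G (x t)) (deriv (deriv x) t) (deriv x t) +
        bil (G (x t)) (deriv x t) (deriv (deriv x) t)) t := by
    simp only [bil_eq_sum (G (x _))]
    refine (HasDerivAt.fun_sum fun i (_ : i ∈ Finset.univ) =>
      HasDerivAt.fun_sum fun j (_ : j ∈ Finset.univ) =>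
      ((hG i j).mul (hasDerivAt_pi.1 hx2 i)).mul (hasDerivAt_pi.1 hx2 j)).congr_deriv (Eq.symm ?_)
    rw [fderiv_quad' sm]
    simp only [Pi.mul_apply, add_mul, Finset.sum_add_distrib]
    congr 2
    simp only [Finset.mul_sum, Finset.sum_mul]
    rw [Finset.sum_comm]
    refine Finset.sum_congr rfl fun i _ => ?_
    rw [Finset.sum_comm]
    exact Finset.sum_congr rfl fun j _ => Finset.sum_congr rfl fun l _ => by ring
  have h3 := h1.unique h2
  rw [bil_symm pos (deriv (deriv x) t)] at h3
  refine h1.congr_deriv ?_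
  linarith

variable {M : Type} [TopologicalSpace M] [ChartedSpace (Fin n → ℝ) M]
  [IsManifold 𝓘(ℝ, Fin n → ℝ) ∞ M] {G : OpenPartialHomeomorph M (Fin n → ℝ) → MF n}

set_option backward.isDefEq.respectTransparency false in
/-- The Riemannian metric with given coefficients in each chart. -/
noncomputable def metric (h : MData2 M G) : RMetric (Fin n → ℝ) M where
  inner q := bil (G (chartAt (Fin n → ℝ) q) (chartAt (Fin n → ℝ) q q))
  symm q v w := bil_symm (h.pos _ (chart_mem_atlas _ q) _ (mem_chart_target _ q)) v w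
  pos q v hv := by
    change 0 < bil _ v v
    rw [bil_apply]
    exact (h.pos _ (chart_mem_atlas _ q) _ (mem_chart_target _ q)).dotProduct_mulVec_pos hv
  isVonNBounded q := bil_bounded (h.pos _ (chart_mem_atlas _ q) _ (mem_chart_target _ q))
  contMDiff := by
    intro p
    rw [contMDiffAt_section]
    have h1 : ContMDiffAt 𝓘(ℝ, Fin n → ℝ) 𝓘(ℝ, (Fin n → ℝ) →L[ℝ] (Fin n → ℝ) →L[ℝ] ℝ) ∞
        (fun q => bil (G (chartAt (Fin n → ℝ) p) (chartAt (Fin n → ℝ) p q))) p := by
      have h2 : ContDiffAt ℝ ∞ (fun x => bil (G (chartAt (Fin n → ℝ) p) x))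
          (chartAt (Fin n → ℝ) p p) :=
        ContDiffAt.sum fun i _ => ContDiffAt.sum fun j _ =>
          smul_const_aux (h.sm _ (chart_mem_atlas _ p) _ (mem_chart_target _ p) i j) _
      exact h2.contMDiffAt.comp p ((contMDiffOn_chart _ (mem_chart_source _ p)).contMDiffAt
        (chart_source_mem_nhds _ p))
    refine h1.congr_of_eventuallyEq ?_
    filter_upwards [chart_source_mem_nhds (Fin n → ℝ) p] with q hq
    ext v w
    have hl := (chartAt (Fin n → ℝ) p).left_inv hq
    rw [hom_trivializationAt_apply]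
    dsimp only
    have := h.compat _ (chart_mem_atlas _ p) _ (chart_mem_atlas _ q) _
      ((chartAt (Fin n → ℝ) p).map_source hq) (by rw [hl]; exact mem_chart_source _ _)
      v w
    rw [inCoordinates_apply_eq₂ hq hq (by simp), triv_symm hq, triv_symm hq]
    simp only [hl] at this
    simp
    exact this

theorem ip_chartVec (h : MData2 M G) {e : OpenPartialHomeomorph M (Fin n → ℝ)}
    (he : e ∈ atlas (Fin n → ℝ) M) {x : Fin n → ℝ} (hx : x ∈ e.target) (v w : Fin n → ℝ) :
    ip (metric h) (e.symm x) (chartVec e x v) (chartVec e x w) = bil (G e x) v w := by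
  rw [chartVec_eq he hx, chartVec_eq he hx]
  exact h.compat e he _ (chart_mem_atlas _ (e.symm x)) x hx (mem_chart_source _ _) v w

theorem coeff_metric (h : MData2 M G) {e : OpenPartialHomeomorph M (Fin n → ℝ)}
    (he : e ∈ atlas (Fin n → ℝ) M) {x : Fin n → ℝ} (hx : x ∈ e.target) :
    coeff (metric h) e x = G e x := by
  ext i j
  rw [coeff, of_apply, ip_chartVec h he hx, bil_single]

set_option backward.isDefEq.respectTransparency false in
theorem speed (h : MData2 M G) {γ : ℝ → M}
    (hγ : ContMDiff 𝓘(ℝ, ℝ) 𝓘(ℝ, Fin n → ℝ) 2 γ) {e : OpenPartialHomeomorph M (Fin n → ℝ)}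
    (he : e ∈ atlas (Fin n → ℝ) M) {t : ℝ} (ht : γ t ∈ e.source) :
    ip (metric h) (γ t) (vel (Fin n → ℝ) γ t) (vel (Fin n → ℝ) γ t) =
      bil (G e (e (γ t))) (deriv (fun s => e (γ s)) t) (deriv (fun s => e (γ s)) t) := by
  have hx := e.map_source ht
  have hc := contDiffAt_chart_curve hγ he ht
  have hd := (hγ t).mdifferentiableAt (by simp)
  have e1 : (vel (Fin n → ℝ) γ t : Fin n → ℝ) =
      deriv (fun s => chartAt (Fin n → ℝ) (γ t) (γ s)) t := by
    simp only [vel, mfderiv, if_pos hd, mfld_simps, fderivWithin_univ]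
    rfl
  have e2 : (fun s => chartAt (Fin n → ℝ) (γ t) (γ s)) =ᶠ[𝓝 t]
      (fun y => chartAt (Fin n → ℝ) (γ t) (e.symm y)) ∘ fun s => e (γ s) := by
    filter_upwards [hγ.continuous.continuousAt.eventually (e.open_source.mem_nhds ht)] with s hs
    simp only [Function.comp_apply, e.left_inv hs]
  have hq : e.symm (e (γ t)) ∈ (chartAt (Fin n → ℝ) (γ t)).source := by
    rw [e.left_inv ht]; exact mem_chart_source _ _
  have h3 := (contDiffAt_tr he (chart_mem_atlas _ (γ t)) hx hq).differentiableAt (by simp)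
  have e3 : deriv (fun s => chartAt (Fin n → ℝ) (γ t) (γ s)) t =
      fderiv ℝ (fun y => chartAt (Fin n → ℝ) (γ t) (e.symm y)) (e (γ t))
        (deriv (fun s => e (γ s)) t) := by
    rw [e2.deriv_eq]
    exact (h3.hasFDerivAt.comp_hasDerivAt t (hc.differentiableAt (by simp)).hasDerivAt).deriv
  have := h.compat e he _ (chart_mem_atlas _ (γ t)) _ hx hq (deriv (fun s => e (γ s)) t)
    (deriv (fun s => e (γ s)) t)
  rw [← this, ← e3, ← e1]
  simp only [e.left_inv ht]
  rfl

theorem geodEq (h : MData2 M G) {γ : ℝ → M} (hγ : IsGeodesic (metric h) γ)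
    {e : OpenPartialHomeomorph M (Fin n → ℝ)} (he : e ∈ atlas (Fin n → ℝ) M) {t : ℝ}
    (ht : γ t ∈ e.source) : GeodEq (G e) (fun s => e (γ s)) t := by
  refine (hγ.2 e he t ht).congr ?_
  filter_upwards [e.open_target.mem_nhds (e.map_source ht)] with y hy
  exact (coeff_metric h he hy).symm

theorem speed_const (h : MData2 M G) {γ : ℝ → M} (hγ : IsGeodesic (metric h) γ) : ∃ E, 0 ≤ E ∧
    ∀ t, ip (metric h) (γ t) (vel (Fin n → ℝ) γ t) (vel (Fin n → ℝ) γ t) = E ^ 2 := by
  have h1 : ∀ t, HasDerivAt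
      (fun t => ip (metric h) (γ t) (vel (Fin n → ℝ) γ t) (vel (Fin n → ℝ) γ t)) 0 t := by
    intro t
    have he := chart_mem_atlas (Fin n → ℝ) (γ t)
    have ht := mem_chart_source (Fin n → ℝ) (γ t)
    have hx := mem_chart_target (Fin n → ℝ) (γ t)
    refine (energy' (fun i j => (h.sm _ he _ hx i j).differentiableAt (by simp)) (h.pos _ he _ hx)
      (contDiffAt_chart_curve hγ.1 he ht) (geodEq h hγ he ht)).congr_of_eventuallyEq ?_
    filter_upwards [hγ.1.continuous.continuousAt.eventually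
      (chart_source_mem_nhds (Fin n → ℝ) (γ t))] with s hs
    exact speed h hγ.1 he hs
  refine ⟨√(ip (metric h) (γ 0) (vel (Fin n → ℝ) γ 0) (vel (Fin n → ℝ) γ 0)), Real.sqrt_nonneg _,
    fun t => ?_⟩
  rw [Real.sq_sqrt, const_of_deriv h1 t 0]
  rw [speed h hγ.1 (chart_mem_atlas _ (γ 0)) (mem_chart_source _ (γ 0)), bil_apply]
  exact (h.pos _ (chart_mem_atlas _ _) _ (mem_chart_target _ _)).posSemidef.dotProduct_mulVec_nonneg _

theorem length_eq {g : RMetric (Fin n → ℝ) M} {γ : ℝ → M} {E : ℝ} (hE : 0 ≤ E)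
    (hs : ∀ t, ip g (γ t) (vel (Fin n → ℝ) γ t) (vel (Fin n → ℝ) γ t) = E ^ 2) (T : ℝ) :
    length g γ 0 T = ENNReal.ofReal (E * T) := by
  simp only [length, hs, Real.sqrt_sq hE, lintegral_const, Measure.restrict_apply_univ,
    Real.volume_Icc, sub_zero]
  rw [← ENNReal.ofReal_mul hE]

theorem det_pull {A A' : Matrix (Fin n) (Fin n) ℝ} {J : (Fin n → ℝ) →L[ℝ] Fin n → ℝ}
    (h : ∀ v w, bil A' (J v) (J w) = bil A v w) : A.det = J.det ^ 2 * A'.det := by
  let J' := LinearMap.toMatrix' (J : (Fin n → ℝ) →ₗ[ℝ] (Fin n → ℝ))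
  have hJ : ∀ v, J' *ᵥ v = J v := fun v => by simp [J', LinearMap.toMatrix'_mulVec]
  have : A = J'ᵀ * A' * J' := by
    ext i j
    rw [← bil_single A, ← h, ← bil_single (J'ᵀ * _ * _), bil_apply, bil_apply, ← mulVec_mulVec,
      ← mulVec_mulVec, dotProduct_mulVec _ J'ᵀ, vecMul_transpose, hJ, hJ]
  rw [this, det_mul, det_mul, det_transpose, ContinuousLinearMap.det, ← LinearMap.det_toMatrix']
  ring

variable [MeasurableSpace M] [BorelSpace M]

theorem muc_agree (h : MData2 M G) {e e' : OpenPartialHomeomorph M (Fin n → ℝ)}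
    (he : e ∈ atlas (Fin n → ℝ) M) (he' : e' ∈ atlas (Fin n → ℝ) M) {A : Set M}
    (hA : MeasurableSet A) (hs : A ⊆ e.source) (hs' : A ⊆ e'.source) :
    muc (G e') e' A = muc (G e) e A := by
  rw [muc_apply _ e hA hs, muc_apply _ e' hA hs']
  have him : e' '' A = (fun y => e' (e.symm y)) '' (e '' A) := by
    rw [image_image]
    exact image_congr fun a ha => by rw [e.left_inv (hs ha)]
  have hinj : InjOn (fun y => e' (e.symm y)) (e '' A) := by
    rintro _ ⟨a, ha, rfl⟩ _ ⟨b, hb, rfl⟩ hab
    simp only [e.left_inv (hs ha), e.left_inv (hs hb)] at hab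
    rw [e'.injOn (hs' ha) (hs' hb) hab]
  have hm : ∀ y ∈ e '' A, y ∈ e.target ∧ e.symm y ∈ e'.source := by
    rintro _ ⟨a, ha, rfl⟩
    exact ⟨e.map_source (hs ha), by rw [e.left_inv (hs ha)]; exact hs' ha⟩
  rw [him, lintegral_image_eq_lintegral_abs_det_fderiv_mul volume (measurableSet_img e hA hs)
    (fun y hy => ((contDiffAt_tr he he' (hm y hy).1 (hm y hy).2).differentiableAt
      (by simp)).hasFDerivAt.hasFDerivWithinAt) hinj]
  refine setLIntegral_congr_fun (measurableSet_img e hA hs) fun y hy => ?_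
  simp only [dens]
  rw [← ENNReal.ofReal_mul (abs_nonneg _),
    det_pull (h.compat e he e' he' y (hm y hy).1 (hm y hy).2),
    Real.sqrt_mul (sq_nonneg _), Real.sqrt_sq_eq_abs]

theorem isVolume_iff (h : MData2 M G) {μ : Measure M} :
    IsVolume (metric h) μ ↔ ∀ e ∈ atlas (Fin n → ℝ) M, ∀ A : Set M, MeasurableSet A →
      A ⊆ e.source → μ A = ∫⁻ x in e '' A, dens (G e) x := by
  refine forall₂_congr fun e he => forall₃_congr fun A hA hs => ?_
  rw [setLIntegral_congr_fun (measurableSet_img e hA hs) (g := dens (G e))]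
  rintro _ ⟨a, ha, rfl⟩
  simp only [dens, coeff_metric h he (e.map_source (hs ha))]

theorem exists_volume [CompactSpace M] [Nonempty M] (h : MData2 M G) :
    ∃ μ : Measure M, IsVolume (metric h) μ := by
  have hms : ∀ x : M, MeasurableSet (chartAt (Fin n → ℝ) x).source :=
    fun x => (chartAt (Fin n → ℝ) x).open_source.measurableSet
  obtain ⟨t, ht⟩ := isCompact_univ.elim_finite_subcover
    (fun x : M => (chartAt (Fin n → ℝ) x).source) (fun x => (chartAt (Fin n → ℝ) x).open_source)
    (fun x _ => mem_iUnion.2 ⟨x, mem_chart_source _ x⟩)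
  obtain ⟨x⟩ := ‹Nonempty M›
  obtain ⟨c, hc⟩ := (insert x (t : Set M)).toFinite.countable.exists_eq_range (insert_nonempty _ _)
  let W : ℕ → Set M := disjointed fun k => (chartAt (Fin n → ℝ) (c k)).source
  have hWm : ∀ k, MeasurableSet (W k) := MeasurableSet.disjointed fun k => hms _
  have hWs : ∀ k, W k ⊆ (chartAt (Fin n → ℝ) (c k)).source := fun k =>
    disjointed_subset (fun k => (chartAt (Fin n → ℝ) (c k)).source) k
  have hWd : Pairwise (Function.onFun Disjoint W) := disjoint_disjointed _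
  have hWu : ⋃ k, W k = univ := by
    rw [iUnion_disjointed, eq_univ_iff_forall]
    intro z
    obtain ⟨p, hp, hz⟩ := mem_iUnion₂.1 (ht (mem_univ z))
    obtain ⟨k, rfl⟩ : p ∈ range c := hc ▸ mem_insert_of_mem _ hp
    exact mem_iUnion.2 ⟨k, hz⟩
  refine ⟨Measure.sum fun k =>
    (muc (G (chartAt (Fin n → ℝ) (c k))) (chartAt (Fin n → ℝ) (c k))).restrict (W k),
    (isVolume_iff h).2 fun e he A hA hs => ?_⟩
  rw [Measure.sum_apply _ hA, ← muc_apply _ e hA hs]
  have : ∀ k, (muc (G (chartAt (Fin n → ℝ) (c k))) (chartAt (Fin n → ℝ) (c k))).restrict (W k) A =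
      muc (G e) e (A ∩ W k) := by
    intro k
    rw [Measure.restrict_apply hA]
    exact muc_agree h he (chart_mem_atlas _ _) (hA.inter (hWm k)) (fun z hz => hs hz.1)
      (fun z hz => hWs k hz.2)
  simp only [this]
  rw [← measure_iUnion (hWd.mono fun i j hij => hij.mono inter_subset_right inter_subset_right)
    (fun k => hA.inter (hWm k)), ← inter_iUnion, hWu, inter_univ]

end Pool.Agent.Lib.V10.M14
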