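import Pool.Agent.Lib.V10.BlueT
import Pool.Agent.Lib.V10.MB14

set_option autoImplicit false

namespace Pool.Agent.Lib.V10

open Filter Topology Matrix Set MeasureTheory
open scoped ContDiff Manifold
open Pool.Agent.Lib.MP_3eff7f_gt_h14

namespace M14

variable {E X : Type} [NormedAddCommGroup E] [NormedSpace ℝ E] [TopologicalSpace X] {n : ℕ}
  (K : (Fin n → ℝ) ≃L[ℝ] E) {𝒜 : Atl E X}

/-- The matrix of a field of forms in linear coordinates. -/
noncomputable def mat (b : BF E) : MF n := fun y =>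
  Matrix.of fun i j => b (K y) (K (Pi.single i 1)) (K (Pi.single j 1))

theorem bil_mat (b : BF E) (y v w : Fin n → ℝ) : bil (mat K b y) v w = b (K y) (K v) (K w) := by
  have h : ∀ u : Fin n → ℝ, K u = ∑ i, u i • K (Pi.single i 1) := fun u =>
    fderiv_eq_sum (K : (Fin n → ℝ) →L[ℝ] E) u
  rw [h v, h w, bil_eq_sum]
  simp only [map_sum, map_smul, ContinuousLinearMap.sum_apply, ContinuousLinearMap.smul_apply,
    smul_eq_mul, mat, of_apply, Finset.mul_sum]
  rw [Finset.sum_comm]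
  exact Finset.sum_congr rfl fun i _ => Finset.sum_congr rfl fun j _ => by ring

/-- `e` is a local inverse of the parametrisation `a`. -/
def Par (a : 𝒜.A) (e : OpenPartialHomeomorph X (Fin n → ℝ)) : Prop :=
  ∀ y ∈ e.target, K y ∈ 𝒜.U a ∧ e.symm y = 𝒜.Φ a (K y)

theorem exists_par (h : 𝒜.Ok) {a : 𝒜.A} {x : E} (hx : x ∈ 𝒜.U a) :
    ∃ e, Par K a e ∧ K.symm x ∈ e.target := by
  obtain ⟨V, hV, hi⟩ := h.linj a x hx
  obtain ⟨V', h1, h2, h3⟩ := mem_nhds_iff.1 (inter_mem hV ((h.om a).opn.mem_nhds hx))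
  have o : IsOpen (K ⁻¹' V') := h2.preimage K.continuous
  have inj : InjOn (fun y => 𝒜.Φ a (K y)) (K ⁻¹' V') := fun y hy y' hy' e =>
    K.injective (hi (h1 hy).1 (h1 hy').1 e)
  refine ⟨(OpenPartialHomeomorph.ofContinuousOpenRestrict (inj.toPartialEquiv _ _)
    ((h.om a).cont.comp K.continuous.continuousOn fun y hy => (h1 hy).2) (fun W hW => ?_) o).symm,
    fun y hy => ⟨(h1 hy).2, rfl⟩, ?_⟩
  · have : (K ⁻¹' V').domRestrict (fun y => 𝒜.Φ a (K y)) '' W =
        𝒜.Φ a '' (K '' (Subtype.val '' W)) := by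
      rw [image_image, image_image]; rfl
    refine this ▸ (h.om a).omap _ ?_ (K.isOpenMap _ (o.isOpenMap_subtype_val W hW))
    rintro _ ⟨_, ⟨y, -, rfl⟩, rfl⟩
    exact (h1 y.2).2
  · change K (K.symm x) ∈ V'
    rwa [K.apply_symm_apply]

theorem Par.src {a : 𝒜.A} {e : OpenPartialHomeomorph X (Fin n → ℝ)} (h : Par K a e) {x : E}
    (hx : K.symm x ∈ e.target) : 𝒜.Φ a x ∈ e.source ∧ e (𝒜.Φ a x) = K.symm x := by
  have := (h _ hx).2
  rw [K.apply_symm_apply] at this
  rw [← this]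
  exact ⟨e.map_target hx, e.right_inv hx⟩

theorem exists_src (h : 𝒜.Ok) (p : X) :
    ∃ e : OpenPartialHomeomorph X (Fin n → ℝ), (∃ a : 𝒜.A, Par K a e) ∧ p ∈ e.source := by
  obtain ⟨a, x, hx, rfl⟩ := h.cov p
  obtain ⟨e, h1, h2⟩ := exists_par K h hx
  exact ⟨e, ⟨a, h1⟩, (h1.src K h2).1⟩

/-- The charts. -/
@[reducible] noncomputable def cs (h : 𝒜.Ok) : ChartedSpace (Fin n → ℝ) X where
  atlas := {e | ∃ a : 𝒜.A, Par K a e}
  chartAt p := (exists_src K h p).choose
  mem_chart_source p := (exists_src K h p).choose_spec.2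
  chart_mem_atlas p := (exists_src K h p).choose_spec.1

theorem trans_eq (h : 𝒜.Ok) {a b : 𝒜.A} {e e' : OpenPartialHomeomorph X (Fin n → ℝ)}
    (he : Par K a e) (he' : Par K b e') {y : Fin n → ℝ} (hy : y ∈ e.target)
    (hy' : e.symm y ∈ e'.source) : ∃ φ : E → E, ContDiffAt ℝ ∞ φ (K y) ∧ φ (K y) ∈ 𝒜.U b ∧
      (∀ᶠ z in 𝓝 (K y), 𝒜.Φ b (φ z) = 𝒜.Φ a z) ∧
      (fun y => e' (e.symm y)) =ᶠ[𝓝 y] fun y => K.symm (φ (K y)) := by
  have h1 := e'.map_source hy'
  obtain ⟨φ, f1, f2, f3⟩ := h.tr a b _ (he y hy).1 _ (he' _ h1).1 (by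
    rw [← (he y hy).2, ← (he' _ h1).2, e'.left_inv hy'])
  refine ⟨φ, f2, f1 ▸ (he' _ h1).1, f3, ?_⟩
  have c : ContinuousAt (fun y => K.symm (φ (K y))) y :=
    K.symm.continuous.continuousAt.comp (f2.continuousAt.comp K.continuous.continuousAt)
  filter_upwards [e.open_target.mem_nhds hy, K.continuous.continuousAt.eventually f3,
    c.eventually (show ∀ᶠ z in 𝓝 (K.symm (φ (K y))), z ∈ e'.target from by
      rw [f1, K.symm_apply_apply]; exact e'.open_target.mem_nhds h1)] with z a1 a2 a3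
  rw [(he z a1).2, ← a2, (he'.src K a3).2]

theorem mfd (h : 𝒜.Ok) : letI := cs K h; IsManifold 𝓘(ℝ, Fin n → ℝ) ∞ X := by
  letI := cs K h
  refine isManifold_of_contDiffOn _ _ _ ?_
  rintro e e' ⟨a, he⟩ ⟨b, he'⟩ x ⟨⟨h1, h2⟩, -⟩
  obtain ⟨φ, f1, -, -, f4⟩ := trans_eq K h he he' h1 h2
  exact ((K.symm.contDiff.contDiffAt.comp x (f1.comp x K.contDiff.contDiffAt)).congr_of_eventuallyEq
    f4).contDiffWithinAt

variable {B : 𝒜.A → BF E}

theorem mat_compat (h : 𝒜.Ok) (hB : Met 𝒜 B) {a b : 𝒜.A}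
    {e e' : OpenPartialHomeomorph X (Fin n → ℝ)} (he : Par K a e) (he' : Par K b e')
    {y : Fin n → ℝ} (hy : y ∈ e.target) (hy' : e.symm y ∈ e'.source) (v w : Fin n → ℝ) :
    bil (mat K (B b) (e' (e.symm y))) (fderiv ℝ (fun y => e' (e.symm y)) y v)
      (fderiv ℝ (fun y => e' (e.symm y)) y w) = bil (mat K (B a) y) v w := by
  obtain ⟨φ, f1, f2, f3, f4⟩ := trans_eq K h he he' hy hy'
  have d : HasFDerivAt (fun y => K.symm (φ (K y))) _ y := K.symm.hasFDerivAt.comp y
    ((f1.differentiableAt (by simp)).hasFDerivAt.comp y K.hasFDerivAt)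
  rw [f4.fderiv_eq, f4.eq_of_nhds, d.fderiv, bil_mat, bil_mat]
  simpa using hB.compat a b _ (he y hy).1 φ f1 f2 f3 (K v) (K w)

theorem mat_sm (hB : Met 𝒜 B) {a : 𝒜.A} {y : Fin n → ℝ} (hy : K y ∈ 𝒜.U a) (i j : Fin n) :
    ContDiffAt ℝ ∞ (fun y => mat K (B a) y i j) y :=
  (hB.sm a _ hy _ _).comp y K.contDiff.contDiffAt

theorem mat_pos (hB : Met 𝒜 B) {a : 𝒜.A} {y : Fin n → ℝ} (hy : K y ∈ 𝒜.U a) :
    (mat K (B a) y).PosDef := by
  refine .of_dotProduct_mulVec_pos ?_ fun v hv => ?_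
  · ext i j
    exact hB.symm a _ hy _ _
  · rw [star_trivial, ← bil_apply, bil_mat]
    exact hB.pos a _ hy _ (by simpa using hv)

open Classical in
/-- The coefficients in a chart. -/
noncomputable def cf (B : 𝒜.A → BF E) (e : OpenPartialHomeomorph X (Fin n → ℝ)) : MF n :=
  if h : ∃ a : 𝒜.A, Par K a e then mat K (B h.choose) else 0

theorem cf_eq (hB : Met 𝒜 B) {a : 𝒜.A} {e : OpenPartialHomeomorph X (Fin n → ℝ)}
    (he : Par K a e) {y : Fin n → ℝ} (hy : y ∈ e.target) : cf K B e y = mat K (B a) y := by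
  have h : ∃ a : 𝒜.A, Par K a e := ⟨a, he⟩
  have h' := h.choose_spec
  rw [cf, dif_pos h]
  ext i j
  have := hB.compat a h.choose _ (he y hy).1 id contDiffAt_id (h' y hy).1 (by
    have o : ∀ᶠ z in 𝓝 (K y), K.symm z ∈ e.target := K.symm.continuous.continuousAt.eventually
      (by rw [K.symm_apply_apply]; exact e.open_target.mem_nhds hy)
    filter_upwards [o] with z hz
    have := (h' _ hz).2.symm.trans (he _ hz).2
    rwa [K.apply_symm_apply] at this) (K (Pi.single i 1)) (K (Pi.single j 1))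
  simpa [mat] using this

theorem cf_ev (hB : Met 𝒜 B) {a : 𝒜.A} {e : OpenPartialHomeomorph X (Fin n → ℝ)}
    (he : Par K a e) {y : Fin n → ℝ} (hy : y ∈ e.target) : cf K B e =ᶠ[𝓝 y] mat K (B a) :=
  Filter.mem_of_superset (e.open_target.mem_nhds hy) fun _ hz => cf_eq K hB he hz

theorem md (h : 𝒜.Ok) (hB : Met 𝒜 B) : letI := cs K h; MData2 X (cf K B) := by
  letI := cs K h
  refine ⟨?_, ?_, ?_⟩
  · rintro e ⟨a, he⟩ x hx i j
    exact (mat_sm K hB (he x hx).1 i j).congr_of_eventuallyEq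
      ((cf_ev K hB he hx).mono fun y hy => by simp only [hy])
  · rintro e ⟨a, he⟩ x hx
    rw [cf_eq K hB he hx]
    exact mat_pos K hB (he x hx).1
  · rintro e ⟨a, he⟩ e' ⟨b, he'⟩ x hx hx' v w
    rw [cf_eq K hB he hx, cf_eq K hB he' (e'.map_source hx')]
    exact mat_compat K h hB he he' hx hx' v w

theorem deriv_K {x : ℝ → Fin n → ℝ} {t : ℝ} (hx : DifferentiableAt ℝ x t) :
    deriv (fun s => K (x s)) t = K (deriv x t) :=
  (K.hasFDerivAt.comp_hasDerivAt t hx.hasDerivAt).deriv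

theorem el_K {b : BF E} {x : ℝ → Fin n → ℝ} {t : ℝ}
    (h : EL (fun y => bil (mat K b y)) x t) : EL b (fun s => K (x s)) t := by
  refine ⟨K.contDiff.contDiffAt.comp t h.1, fun w w' hw => ?_⟩
  have h1 := h.2 (fun s => K.symm (w s)) (K.symm w') (K.symm.hasFDerivAt.comp_hasDerivAt t hw)
  simp only [bil_mat, K.apply_symm_apply] at h1
  rw [deriv_K K (h.1.differentiableAt (by simp))]
  have e : fderiv ℝ (fun y => b (K y) (K (deriv x t)) (K (deriv x t))) (x t) (K.symm (w t)) =
      fderiv ℝ (fun y => b y (K (deriv x t)) (K (deriv x t))) (K (x t)) (w t) := by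
    have := K.comp_right_fderiv (f := fun y => b y (K (deriv x t)) (K (deriv x t))) (x := x t)
    rw [show (fun y => b (K y) (K (deriv x t)) (K (deriv x t))) =
      (fun y => b y (K (deriv x t)) (K (deriv x t))) ∘ K from rfl, this]
    simp
  rw [e] at h1
  refine h1.congr_of_eventuallyEq ?_
  filter_upwards [eventually_diff h.1] with s hs
  rw [deriv_K K hs]

end M14

theorem st_MB : St_MB := fun _ _ _ _ _ _ h =>
  ⟨M14.metric h, fun _ he _ hx => M14.coeff_metric h he hx,
    fun _ hγ _ he _ ht => M14.speed h hγ he ht⟩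

theorem st_MV : St_MV := fun _ _ _ _ _ _ _ _ _ _ h =>
  (M14.exists_volume h).imp fun _ hμ => (M14.isVolume_iff h).1 hμ

theorem st_ML : St_ML := fun _ _ _ _ sm pos _ _ hU hx h =>
  ⟨⟨hx, fun _ _ hw => M14.el' (fun i j => (sm _ hU i j).differentiableAt (by simp)) (pos _ hU)
    hx h hw⟩, M14.energy' (fun i j => (sm _ hU i j).differentiableAt (by simp)) (pos _ hU) hx h⟩

theorem st_MAN : St_MAN := by
  intro E X _ _ _ _ _ _ _ _ _ _ ι _ _ β n hn 𝒜 h
  let σ : ι ≃ Fin n := Fintype.equivFinOfCardEq hn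
  have fd : FiniteDimensional ℝ E := β.finiteDimensional_of_finite
  let K : (Fin n → ℝ) ≃L[ℝ] E := (β.reindex σ).equivFunL.symm
  have hK : ∀ i, K (Pi.single (σ i) 1) = β i := fun i => by
    change (β.reindex σ).equivFun.symm _ = _
    simp [Pi.single_apply]
  have hν : Measure.map K volume = β.addHaar := by
    rw [← addHaarMeasure_eq_volume_pi, ← Module.Basis.parallelepiped_basisFun,
      ← Module.Basis.addHaar_def, Module.Basis.map_addHaar, ← β.addHaar_reindex σ]
    congr 1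
    ext i
    simpa using hK (σ.symm i)
  have hd : ∀ (b : BF E) y, (M14.mat K b y).det = gd β (b (K y)) := fun b y => by
    rw [gd, ← det_submatrix_equiv_self σ]
    congr 1
    ext i j
    simp [M14.mat, hK]
  have me : MeasurableEmbedding K := K.toHomeomorph.measurableEmbedding
  letI := M14.cs K h
  have := M14.mfd K h
  refine ⟨inferInstance, this, fun B hB => ?_⟩
  have m := M14.md K h hB
  obtain ⟨μ, hμ⟩ := M14.exists_volume m
  refine ⟨M14.metric m, μ, hμ, fun a S hS hU => ?_, fun γ hγ => ?_⟩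
  · let ν := β.addHaar.withDensity fun x => ENNReal.ofReal √(gd β (B a x))
    have key : ∃ A, MeasurableSet A ∧ S ⊆ A ∧
        ∀ S' ⊆ A, MeasurableSet S' → μ (𝒜.Φ a '' S') ≤ ν S' := by
      refine hS.induction_on (p := fun S => ∃ A, MeasurableSet A ∧ S ⊆ A ∧
        ∀ S' ⊆ A, MeasurableSet S' → μ (𝒜.Φ a '' S') ≤ ν S') ⟨∅, .empty, Subset.rfl, ?_⟩ ?_ ?_ ?_
      · intro S' h1 _
        simp [subset_empty_iff.1 h1]
      · rintro s t hst ⟨A, h1, h2, h3⟩
        exact ⟨A, h1, hst.trans h2, h3⟩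
      · rintro s t ⟨A, h1, h2, h3⟩ ⟨A', h4, h5, h6⟩
        refine ⟨A ∪ A', h1.union h4, union_subset_union h2 h5, fun S' h7 h8 => ?_⟩
        rw [← measure_inter_add_diff S' h1]
        conv_lhs => rw [← inter_union_diff S' A, image_union]
        exact (measure_union_le _ _).trans (add_le_add (h3 _ inter_subset_right (h8.inter h1))
          (h6 _ (fun x hx => (h7 hx.1).resolve_left hx.2) (h8.diff h1)))
      · intro x hx
        obtain ⟨e, he, hx'⟩ := M14.exists_par K h (hU hx)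
        have o : IsOpen (K.symm ⁻¹' e.target) := e.open_target.preimage K.symm.continuous
        refine ⟨_, mem_nhdsWithin_of_mem_nhds (o.mem_nhds hx'), _, o.measurableSet, Subset.rfl,
          fun S' h1 h2 => le_of_eq ?_⟩
        have e1 : 𝒜.Φ a '' S' = e.source ∩ e ⁻¹' (K ⁻¹' S') := by
          ext p
          constructor
          · rintro ⟨z, hz, rfl⟩
            refine ⟨(he.src K (h1 hz)).1, ?_⟩
            simpa [(he.src K (h1 hz)).2] using hz
          · rintro ⟨p1, p2⟩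
            exact ⟨_, p2, (he _ (e.map_source p1)).2.symm.trans (e.left_inv p1)⟩
        have e2 : e '' (𝒜.Φ a '' S') = K ⁻¹' S' := by
          ext y
          constructor
          · rintro ⟨_, ⟨z, hz, rfl⟩, rfl⟩
            simpa [(he.src K (h1 hz)).2] using hz
          · intro hy
            exact ⟨_, ⟨_, hy, rfl⟩, by simpa using (he.src K (h1 hy)).2⟩
        have m1 : MeasurableSet (K ⁻¹' S') := h2.preimage K.continuous.measurable
        have m2 : MeasurableSet (𝒜.Φ a '' S') := by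
          have hc : Continuous fun p : e.source => e p :=
            continuousOn_iff_continuous_domRestrict.1 e.continuousOn
          have := (MeasurableEmbedding.subtype_coe e.open_source.measurableSet).measurableSet_image.2
            (m1.preimage hc.measurable)
          convert this using 1
          rw [e1]
          ext p
          simp only [mem_inter_iff, mem_preimage, mem_image, Subtype.exists, exists_and_right,
            exists_eq_right]
          exact ⟨fun h => ⟨h.1, h.2⟩, fun ⟨h1, h2⟩ => ⟨h1, h2⟩⟩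
        rw [(M14.isVolume_iff m).1 hμ e ⟨a, he⟩ _ m2 (e1 ▸ inter_subset_left), e2,
          withDensity_apply _ h2, ← hν, me.restrict_map, me.lintegral_map]
        refine setLIntegral_congr_fun m1 fun y hy => ?_
        have hy' : y ∈ e.target := by simpa using h1 hy
        simp only [dens, M14.cf_eq K hB he hy', hd]
    obtain ⟨A, -, h2, h3⟩ := key
    have := h3 S h2 hS.measurableSet
    rwa [withDensity_apply _ hS.measurableSet] at this
  · obtain ⟨En, e1, e2⟩ := M14.speed_const m hγ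
    refine ⟨En, e1, ⟨hγ.1.continuous, fun t a x hx ht => ?_⟩, M14.length_eq e1 e2⟩
    obtain ⟨e, he, hx'⟩ := M14.exists_par K h hx
    have hs := he.src K hx'
    rw [ht] at hs
    refine ⟨fun s => K (e (γ s)), by simp [hs.2], ?_⟩
    filter_upwards [hγ.1.continuous.continuousAt.eventually (e.open_source.mem_nhds hs.1)]
      with s hs
    have hy := e.map_source hs
    have c := contDiffAt_chart_curve hγ.1 (e := e) ⟨a, he⟩ hs
    refine ⟨(he _ hy).1, (he _ hy).2.symm.trans (e.left_inv hs), M14.el_K K ⟨c, fun w w' hw =>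
      M14.el' (fun i j => (M14.mat_sm K hB (he _ hy).1 i j).differentiableAt (by simp))
        (M14.mat_pos K hB (he _ hy).1) c
        ((M14.geodEq m hγ ⟨a, he⟩ hs).congr (M14.cf_ev K hB he hy).symm) hw⟩, ?_⟩
    rw [← e2 s, M14.speed m hγ.1 (e := e) ⟨a, he⟩ hs, M14.cf_eq K hB he hy, M14.bil_mat,
      M14.deriv_K K (c.differentiableAt (by simp))]

end Pool.Agent.Lib.V10
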