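import Mathlib

set_option autoImplicit false

namespace Pool.Agent.Lib.V10.G41

open Matrix ModularGroup
open scoped MatrixGroups

theorem mul_ap (σ σ' : SL(2, ℤ)) (i j : Fin 2) :
    (σ * σ') i j = σ i 0 * σ' 0 j + σ i 1 * σ' 1 j := by
  simp [mul_apply, Fin.sum_univ_two]

theorem T3_mem : T ^ 3 ∈ CongruenceSubgroup.Gamma 3 := by
  have := CongruenceSubgroup.ModularGroup_T_pow_mem_Gamma 3 3 dvd_rfl
  simpa using this

/-- The action of a conjugate of `T ^ (3 k)` on the first column. -/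
theorem col (σ γ : SL(2, ℤ)) (k : ℤ) :
    (σ * T ^ (3 * k) * σ⁻¹ * γ) 0 0 =
        γ 0 0 + 3 * k * (σ 0 0 * γ 1 0 - σ 1 0 * γ 0 0) * σ 0 0 ∧
      (σ * T ^ (3 * k) * σ⁻¹ * γ) 1 0 =
        γ 1 0 + 3 * k * (σ 0 0 * γ 1 0 - σ 1 0 * γ 0 0) * σ 1 0 := by
  have hd : σ 0 0 * σ 1 1 - σ 0 1 * σ 1 0 = 1 := by
    have := σ.det_coe
    rwa [det_fin_two] at this
  have t := coe_T_zpow (3 * k)
  have t00 : (T ^ (3 * k)) 0 0 = 1 := by rw [t]; rfl
  have t01 : (T ^ (3 * k)) 0 1 = 3 * k := by rw [t]; rfl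
  have t10 : (T ^ (3 * k)) 1 0 = 0 := by rw [t]; rfl
  have t11 : (T ^ (3 * k)) 1 1 = 1 := by rw [t]; rfl
  have i00 : σ⁻¹ 0 0 = σ 1 1 := by simp [SpecialLinearGroup.SL2_inv_expl]
  have i01 : σ⁻¹ 0 1 = -σ 0 1 := by simp [SpecialLinearGroup.SL2_inv_expl]
  have i10 : σ⁻¹ 1 0 = -σ 1 0 := by simp [SpecialLinearGroup.SL2_inv_expl]
  have i11 : σ⁻¹ 1 1 = σ 0 0 := by simp [SpecialLinearGroup.SL2_inv_expl]
  simp only [mul_ap, t00, t01, t10, t11, i00, i01, i10, i11]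
  constructor
  · linear_combination γ 0 0 * hd
  · linear_combination γ 1 0 * hd

/-- A normal subgroup that contains `T ^ 3` contains `Γ(3)`. -/
theorem gamma_le (N : Subgroup SL(2, ℤ)) [hN : N.Normal] (h3 : T ^ 3 ∈ N) :
    CongruenceSubgroup.Gamma 3 ≤ N := by
  have hz : ∀ k : ℤ, T ^ (3 * k) = (T ^ 3) ^ k := fun k => by
    rw [_root_.zpow_mul]; rfl
  have key : ∀ n : ℕ, ∀ γ : SL(2, ℤ), γ ∈ CongruenceSubgroup.Gamma 3 →
      γ 0 0 ^ 2 + γ 1 0 ^ 2 < n → γ ∈ N := by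
    intro n
    induction n with
    | zero => intro γ _ h; exfalso; simp at h; nlinarith [sq_nonneg (γ 0 0), sq_nonneg (γ 1 0)]
    | succ n ih =>
      intro γ hγ hn
      have step : ∀ (σ : SL(2, ℤ)) (k : ℤ),
          (γ 0 0 + 3 * k * (σ 0 0 * γ 1 0 - σ 1 0 * γ 0 0) * σ 0 0) ^ 2 +
            (γ 1 0 + 3 * k * (σ 0 0 * γ 1 0 - σ 1 0 * γ 0 0) * σ 1 0) ^ 2 <
              γ 0 0 ^ 2 + γ 1 0 ^ 2 → γ ∈ N := by
        intro σ k h
        have m1 : σ * T ^ (3 * k) * σ⁻¹ ∈ N := hN.conj_mem _ (hz k ▸ N.zpow_mem h3 k) σ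
        have m2 : σ * T ^ (3 * k) * σ⁻¹ ∈ CongruenceSubgroup.Gamma 3 :=
          (CongruenceSubgroup.Gamma_normal 3).conj_mem _ (hz k ▸ Subgroup.zpow_mem _ T3_mem k) σ
        refine (N.mul_mem_cancel_left m1).1 (ih _ (Subgroup.mul_mem _ m2 hγ) ?_)
        rw [(col σ γ k).1, (col σ γ k).2]
        push_cast at hn
        omega
      obtain ⟨g1, g2, g3, -⟩ := CongruenceSubgroup.Gamma_mem.1 hγ
      have hd : γ 0 0 * γ 1 1 - γ 0 1 * γ 1 0 = 1 := by
        have := γ.det_coe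
        rwa [det_fin_two] at this
      have d1 : (3 : ℤ) ∣ γ 0 0 - 1 :=
        (ZMod.intCast_zmod_eq_zero_iff_dvd _ 3).1 (by push_cast; rw [g1, sub_self])
      have d2 : (3 : ℤ) ∣ γ 0 1 := (ZMod.intCast_zmod_eq_zero_iff_dvd _ 3).1 g2
      have d3 : (3 : ℤ) ∣ γ 1 0 := (ZMod.intCast_zmod_eq_zero_iff_dvd _ 3).1 g3
      by_cases hc : γ 1 0 = 0
      · rw [hc, mul_zero, sub_zero] at hd
        have ha : γ 0 0 = 1 := by
          rcases Int.eq_one_or_neg_one_of_mul_eq_one hd with a | a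
          · exact a
          · omega
        obtain ⟨k, hk⟩ := d2
        have : γ = T ^ (3 * k) := by
          ext i j
          rw [coe_T_zpow]
          rw [ha, one_mul] at hd
          fin_cases i <;> fin_cases j <;> simp [ha, hc, hk, hd]
        rw [this, hz]
        exact N.zpow_mem h3 k
      have s1 := fun k => step 1 k
      have s2 := fun k => step S k
      have s3 := fun k => step ⟨!![1, 0; 1, 1], by simp [det_fin_two]⟩ k
      have s4 := fun k => step ⟨!![1, 0; -1, 1], by simp [det_fin_two]⟩ k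
      simp [coe_S] at s1 s2 s3 s4
      generalize γ 0 0 = a at *
      generalize γ 1 0 = c at *
      have ha : a ≠ 0 := by omega
      have h1 : a - c ≠ 0 := by omega
      have h2 : a + c ≠ 0 := by omega
      by_contra hcon
      have e1 := not_lt.1 fun h => hcon (s1 1 h)
      have e2 := not_lt.1 fun h => hcon (s1 (-1) h)
      have e3 := not_lt.1 fun h => hcon (s2 1 h)
      have e4 := not_lt.1 fun h => hcon (s2 (-1) h)
      have e5 := not_lt.1 fun h => hcon (s3 1 h)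
      have e6 := not_lt.1 fun h => hcon (s3 (-1) h)
      have e7 := not_lt.1 fun h => hcon (s4 1 h)
      have e8 := not_lt.1 fun h => hcon (s4 (-1) h)
      have L : ∀ x y : ℤ, x ≠ 0 → 0 ≤ x * y → (0 < x ∧ 0 ≤ y) ∨ (x < 0 ∧ y ≤ 0) := by
        intro x y hx h
        rcases hx.lt_or_gt with h0 | h0
        · exact Or.inr ⟨h0, by nlinarith⟩
        · exact Or.inl ⟨h0, by nlinarith⟩
      have f1 := L c (3 * c + 2 * a) hc (by linarith)
      have f2 := L c (3 * c - 2 * a) hc (by linarith)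
      have f3 := L a (3 * a - 2 * c) ha (by linarith)
      have f4 := L a (3 * a + 2 * c) ha (by linarith)
      have f5 := L (a - c) (3 * (a - c) - (a + c)) h1 (by linarith)
      have f6 := L (a - c) (3 * (a - c) + (a + c)) h1 (by linarith)
      have f7 := L (a + c) (3 * (a + c) + (a - c)) h2 (by linarith)
      have f8 := L (a + c) (3 * (a + c) - (a - c)) h2 (by linarith)
      omega
  intro γ hγ
  refine key ((γ 0 0 ^ 2 + γ 1 0 ^ 2).toNat + 1) γ hγ ?_
  push_cast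
  have := Int.self_le_toNat (γ 0 0 ^ 2 + γ 1 0 ^ 2)
  omega

end Pool.Agent.Lib.V10.G41

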