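import Pool.Agent.Lib.V10.B_HOL
import Pool.Agent.Lib.V10.G41

set_option autoImplicit false

namespace Pool.Agent.Lib.V10

open Filter Topology Set Real
open scoped MatrixGroups
open Pool.Agent.Lib.MP_3eff7f_gt_h14

namespace M41

/-- The universal cover of the complement of the cores. -/
abbrev DD : Type := UpperHalfPlane × ℝ × ℝ

/-- The action on the cover. -/
noncomputable def act (σ : SL(2, ℤ)) (p : DD) : DD :=
  (σ • p.1, σ 0 0 * p.2.1 - σ 0 1 * p.2.2, -(σ 1 0 * p.2.1) + σ 1 1 * p.2.2)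

theorem act_mul (σ σ' : SL(2, ℤ)) (p : DD) : act (σ' * σ) p = act σ' (act σ p) := by
  refine Prod.ext (mul_smul _ _ _) (Prod.ext ?_ ?_) <;> simp only [act, mul_SL] <;> push_cast <;>
    ring

theorem act_one (p : DD) : act 1 p = p := by simp [act]

theorem act_inv (σ : SL(2, ℤ)) (p : DD) : act σ (act σ⁻¹ p) = p := by
  rw [← act_mul, mul_inv_cancel, act_one]

theorem inv_act (σ : SL(2, ℤ)) (p : DD) : act σ⁻¹ (act σ p) = p := by
  rw [← act_mul, inv_mul_cancel, act_one]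

theorem cont_act (σ : SL(2, ℤ)) : Continuous (act σ) := by
  have : Continuous fun z : UpperHalfPlane => σ • z :=
    continuous_const_smul (Matrix.SpecialLinearGroup.mapGL ℝ σ)
  unfold act
  fun_prop

/-- Polar coordinates. -/
noncomputable def rad (t α θ y : ℝ) : E4 := ![√t * cos α, √t * sin α, θ, y]

theorem tt_rad {t : ℝ} (h : 0 ≤ t) (α θ y : ℝ) : tt (rad t α θ y) = t := tt_polar h _ _ _

theorem pol_rad {t : ℝ} (h : 0 ≤ t) (α θ y : ℝ) : Pol (rad t α θ y) α := by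
  rw [Pol, tt_rad h]
  exact ⟨rfl, rfl⟩

theorem eq_rad {x : E4} {α : ℝ} (h : Pol x α) : x = rad (tt x) α (x 2) (x 3) := by
  ext i
  fin_cases i
  exacts [h.1, h.2, rfl, rfl]

theorem cont_rad : Continuous fun p : ℝ × ℝ × ℝ × ℝ => rad p.1 p.2.1 p.2.2.1 p.2.2.2 := by
  refine continuous_pi fun i => ?_
  fin_cases i <;> simp [rad] <;> fun_prop

noncomputable def pol (p : DD) : E4 := rad p.1.im⁻¹ p.2.1 p.1.re p.2.2

theorem cont_pol : Continuous pol :=
  cont_rad.comp (f := fun p : DD => (p.1.im⁻¹, p.2.1, p.1.re, p.2.2))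
    (((UpperHalfPlane.continuous_im.comp continuous_fst).inv₀ fun p => p.1.im_pos.ne').prodMk
      (by fun_prop))

theorem tt_pol (p : DD) : tt (pol p) = p.1.im⁻¹ := tt_rad (inv_pos.2 p.1.im_pos).le _ _ _

theorem tau_pol (p : DD) : tau (pol p) = p.1 := by
  apply Complex.ext
  · rfl
  · simp [tau, tt_pol]

/-- The part of the cover over one sheet. -/
def DP : Set DD := {p | 1 / 2 < p.1.im}

theorem pol_mem {p : DD} : pol p ∈ UU ↔ p ∈ DP := by
  rw [UU, mem_ofPred_eq, tt_pol, inv_lt_comm₀ p.1.im_pos two_pos, ← one_div]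
  rfl

theorem open_DP : IsOpen DP :=
  isOpen_lt continuous_const (UpperHalfPlane.continuous_im.comp continuous_fst)

theorem pc_DP : IsPathConnected DP := by
  have h : IsPathConnected {z : UpperHalfPlane | 1 / 2 < z.im} := by
    rw [UpperHalfPlane.isOpenEmbedding_coe.isInducing.isPathConnected_iff]
    convert (convex_halfSpace_im_gt (1 / 2)).isPathConnected ⟨Complex.I, by simp; norm_num⟩ using 1
    ext z
    refine ⟨?_, fun hz => ⟨⟨z, lt_trans one_half_pos hz⟩, hz, rfl⟩⟩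
    rintro ⟨w, hw, rfl⟩
    exact hw
  have := h.prod (isPathConnected_univ (X := ℝ × ℝ))
  rwa [prod_univ] at this

theorem rel_act (σ : SL(2, ℤ)) (p : DD) : Rel σ (pol p) (pol (act σ p)) := by
  refine ⟨⟨?_, fun h => ?_⟩, p.2.1, 0, pol_rad (inv_pos.2 p.1.im_pos).le _ _ _,
    pol_rad (inv_pos.2 (act σ p).1.im_pos).le _ _ _, (add_zero _).symm.trans (by simp; rfl)⟩
  · have hd : (σ 1 0 : ℂ) * p.1 + σ 1 1 ≠ 0 := by
      simpa [ModularGroup.denom_apply] using UpperHalfPlane.denom_ne_zero σ p.1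
    rw [tau_pol, tau_pol, act, UpperHalfPlane.coe_specialLinearGroup_apply]
    simpa using div_mul_cancel₀ _ hd
  · rw [tt_pol] at h
    exact absurd h (inv_pos.2 p.1.im_pos).ne'

theorem ex_DP (p : DD) : ∃ σ, act σ p ∈ DP := by
  obtain ⟨σ, hσ⟩ := ModularGroup.exists_smul_mem_fd p.1
  have h1 := ModularGroup.three_le_four_mul_im_sq_of_mem_fd hσ
  have h2 := (σ • p.1).im_pos
  exact ⟨σ, show 1 / 2 < (σ • p.1).im by nlinarith⟩

/-- The covering map. -/
noncomputable def Psi (p : DD) : MM := Phi ((ex_DP p).choose • k0) (pol (act (ex_DP p).choose p))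

theorem Psi_eq {σ : SL(2, ℤ)} {p : DD} (h : act σ p ∈ DP) :
    Psi p = Phi (σ • k0) (pol (act σ p)) := by
  refine (Phi_eq (pol_mem.2 (ex_DP p).choose_spec) (pol_mem.2 h)).2
    ⟨σ * (ex_DP p).choose⁻¹, by rw [mul_smul, inv_smul_smul], ?_⟩
  have := rel_act (σ * (ex_DP p).choose⁻¹) (act (ex_DP p).choose p)
  rwa [act_mul, inv_act] at this

theorem cont_Psi : Continuous Psi := by
  refine continuous_iff_continuousAt.2 fun p => ?_
  obtain ⟨σ, h⟩ := ex_DP p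
  have c := cont_pol.comp (cont_act σ)
  refine (((continuousOn_Phi (σ • k0)).continuousAt (isOpen_UU.mem_nhds (pol_mem.2 h))).comp
    (f := pol ∘ act σ) c.continuousAt).congr ?_
  filter_upwards [(cont_act σ).continuousAt.preimage_mem_nhds (open_DP.mem_nhds h)] with q hq
  exact (Psi_eq hq).symm

theorem gam_smul {γ : SL(2, ℤ)} (h : γ ∈ CongruenceSubgroup.Gamma 3) (k : KK) : γ • k = k := by
  obtain ⟨g, rfl⟩ := QuotientGroup.mk_surjective k
  refine Eq.symm (QuotientGroup.eq.2 ?_)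
  simpa [mul_assoc] using (CongruenceSubgroup.Gamma_normal 3).conj_mem _ h g⁻¹

theorem Psi_gam {γ : SL(2, ℤ)} (h : γ ∈ CongruenceSubgroup.Gamma 3) (p : DD) :
    Psi (act γ p) = Psi p := by
  obtain ⟨σ, hσ⟩ := ex_DP (act γ p)
  rw [Psi_eq hσ, ← act_mul] at *
  rw [Psi_eq hσ, mul_smul, gam_smul h]

/-- The lattice translations. -/
noncomputable def sh (m n : ℤ) (p : DD) : DD := (p.1, p.2.1 + 2 * π * m, p.2.2 + 2 * π * n)

theorem act_sh (σ : SL(2, ℤ)) (m n : ℤ) (p : DD) : act σ (sh m n p) =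
    sh (σ 0 0 * m - σ 0 1 * n) (-(σ 1 0 * m) + σ 1 1 * n) (act σ p) := by
  refine Prod.ext rfl (Prod.ext ?_ ?_) <;> simp only [act, sh] <;> push_cast <;> ring

theorem pol_sh (m : ℤ) (p : DD) : pol (sh m 0 p) = pol p := by
  simp [pol, sh, rad, mul_comm (2 * π)]

theorem Psi_sh (m n : ℤ) (p : DD) : Psi (sh m n p) = Psi p := by
  obtain ⟨σ, h⟩ := ex_DP p
  have h' : act σ (sh m n p) ∈ DP := h
  rw [Psi_eq h, Psi_eq h', act_sh]
  refine Eq.symm ((Phi_eq (pol_mem.2 h) ((pol_mem (p := sh _ _ (act σ p))).2 h)).2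
    ⟨1, (one_smul _ _).symm, .shift _ _ (-(σ 1 0 * m) + σ 1 1 * n) ?_ ?_ rfl rfl⟩) <;>
    simp [pol, sh, rad, mul_comm (2 * π), -Int.cast_sub]

theorem rel_rad {σ : SL(2, ℤ)} (hc : σ 1 0 = 0) {t : ℝ} (ht : 0 ≤ t) (α θ y : ℝ) (n : ℤ) :
    Rel σ (rad t α θ y) (rad t (σ 0 0 * α - σ 0 1 * y) (θ + σ 0 0 * σ 0 1)
      (-(σ 1 0 * α) + σ 1 1 * y + 2 * π * n)) :=
  ⟨(base_iff_zero hc).2 ⟨by rw [tt_rad ht, tt_rad ht], rfl⟩, α, n, pol_rad ht _ _ _,
    pol_rad ht _ _ _, rfl⟩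

theorem rad_mem {t : ℝ} (ht : t ∈ Icc (0 : ℝ) 1) (α θ y : ℝ) : rad t α θ y ∈ UU :=
  show tt _ < 2 by rw [tt_rad ht.1]; linarith [ht.2]

end M41

open M41 H41 in
theorem st_MN : St_MN := by
  intro G _ ho hyp
  classical
  choose h hh using fun k => st_HPOT MM G E4 ho (Phi k) UU (continuousOn_Phi k)
    (st_HTP.2.1 MM G E4 ho _ _ convex_UU (continuousOn_Phi k))
  obtain ⟨g, hg⟩ := st_HPOT MM G DD ho Psi univ cont_Psi.continuousOn (by
    intro q q' _ h2 h3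
    obtain ⟨y, ⟨H⟩⟩ := id_nullhomotopic DD
    exact (free_htp ho ⟨fun p => Psi (H (p.2, q p.1)), cont_Psi.comp (by fun_prop)⟩
      (fun t => by simp [h3]) q' (.const II (Psi y)) (fun s => by simp [h2])
      fun s => by simp).2 (ho.cst _))
  -- comparison of the potentials
  have hB : ∀ σ : SL(2, ℤ), ∃ e : G, ∀ p ∈ DP, g (act σ⁻¹ p) = e * h (σ • k0) (pol p) := by
    intro σ
    obtain ⟨p₀, hp₀⟩ := pc_DP.nonempty
    refine ⟨_, fun p hp => mul_inv_eq_iff_eq_mul.1 (st_HTP.2.2.2 MM G DD E4 DD ho Psi univ g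
      (Phi (σ • k0)) UU (h (σ • k0)) DP (act σ⁻¹) pol hg (hh _) cont_Psi.continuousOn pc_DP
      (cont_act _).continuousOn cont_pol.continuousOn (fun s hs => ⟨mem_univ _, pol_mem.2 hs, ?_⟩)
      p hp p₀ hp₀)⟩
    rw [Psi_eq (σ := σ) (by rwa [act_inv]), act_inv]
  -- deck transformations
  have hD : ∀ φ : DD → DD, Continuous φ → (∀ p, Psi (φ p) = Psi p) → ∀ p₀, g (φ p₀) = g p₀ →
      ∀ p, g (φ p) = g p := fun φ c e p₀ h0 p => by
    have := st_HTP.2.2.2 MM G DD DD DD ho Psi univ g Psi univ g univ φ id hg hg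
      cont_Psi.continuousOn isPathConnected_univ c.continuousOn continuousOn_id
      (fun s _ => ⟨mem_univ _, mem_univ _, e s⟩) p (mem_univ _) p₀ (mem_univ _)
    simp only [id] at this
    rwa [h0, mul_inv_cancel, mul_inv_eq_one] at this
  have hR : ∀ (σ : SL(2, ℤ)) (k : KK) (α θ y : ℝ) (n : ℤ), σ 1 0 = 0 →
      h k (rad 0 α θ y) * (h (σ • k) (rad 0 (σ 0 0 * α - σ 0 1 * y) (θ + σ 0 0 * σ 0 1)
        (-(σ 1 0 * α) + σ 1 1 * y + 2 * π * n)))⁻¹ =
      h k (rad 1 α θ y) * (h (σ • k) (rad 1 (σ 0 0 * α - σ 0 1 * y) (θ + σ 0 0 * σ 0 1)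
        (-(σ 1 0 * α) + σ 1 1 * y + 2 * π * n)))⁻¹ := fun σ k α θ y n hc =>
    st_HTP.2.2.2 MM G E4 E4 ℝ ho (Phi k) UU (h k) (Phi (σ • k)) UU (h (σ • k)) (Icc 0 1)
      (fun t => rad t α θ y) (fun t => rad t _ _ _) (hh _) (hh _) (continuousOn_Phi _)
      ((convex_Icc 0 1).isPathConnected ⟨0, by simp⟩)
      (cont_rad.comp (f := fun t : ℝ => (t, α, θ, y)) (by fun_prop)).continuousOn
      (cont_rad.comp (f := fun t : ℝ => (t, _, _, _)) (by fun_prop)).continuousOn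
      (fun s hs => ⟨rad_mem hs _ _ _, rad_mem hs _ _ _, (Phi_eq (rad_mem hs _ _ _)
        (rad_mem hs _ _ _)).2 ⟨σ, rfl, rel_rad hc hs.1 _ _ _ _⟩⟩) 0 (by simp) 1 (by simp)
  let p₀ : DD := (UpperHalfPlane.I, 0, 0)
  have m₀ : p₀ ∈ DP := show (1 / 2 : ℝ) < 1 by norm_num
  have csh : ∀ m n, Continuous (sh m n) := fun m n => by unfold sh; fun_prop
  have hS0 : ∀ (σ : SL(2, ℤ)) (m : ℤ), g (act σ⁻¹ (sh m 0 p₀)) = g (act σ⁻¹ p₀) := fun σ m => by
    obtain ⟨e, he⟩ := hB σ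
    rw [he _ m₀, he (sh m 0 p₀) m₀, pol_sh]
  have hS : ∀ m n p, g (sh m n p) = g p := fun m n p => by
    have e : sh m n p = sh m 0 (sh 0 n p) := by simp [sh]
    rw [e, hD _ (csh m 0) (Psi_sh m 0) p₀ (by simpa [act_one] using hS0 1 m)]
    refine hD _ (csh 0 n) (Psi_sh 0 n) (act ModularGroup.S⁻¹ p₀) ?_ p
    have := hS0 ModularGroup.S n
    rw [act_sh] at this
    simpa [Matrix.SpecialLinearGroup.SL2_inv_expl, ModularGroup.coe_S] using this
  let M : Subgroup SL(2, ℤ) :=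
    { carrier := {γ | ∀ p, g (act γ p) = g p}
      one_mem' := fun p => by rw [act_one]
      mul_mem' := fun {a b} ha hb p => by rw [act_mul, ha, hb]
      inv_mem' := fun {a} ha p => by rw [← ha, act_inv] }
  have hG : ∀ γ ∈ CongruenceSubgroup.Gamma 3, ∀ p, g (act γ p) = g p := by
    refine fun γ hγ => (M.normalCore_le (G41.gamma_le M.normalCore (fun σ => ?_) hγ) :)
    refine hD _ (cont_act _) (Psi_gam ((CongruenceSubgroup.Gamma_normal 3).conj_mem _
      G41.T3_mem σ)) (act σ p₀) ?_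
    obtain ⟨e, he⟩ := hB σ⁻¹
    have t : ((ModularGroup.T ^ 3 : SL(2, ℤ)) : Matrix (Fin 2) (Fin 2) ℤ) = !![1, 3; 0, 1] :=
      ModularGroup.coe_T_zpow 3
    have ti : (act (ModularGroup.T ^ 3) p₀).1.im = 1 := ModularGroup.im_T_zpow_smul _ 3
    have tr : (act (ModularGroup.T ^ 3) p₀).1.re = 3 :=
      (ModularGroup.re_T_zpow_smul _ 3).trans (by simp [p₀])
    have m₁ : act (ModularGroup.T ^ 3) p₀ ∈ DP := show (1 / 2 : ℝ) < _ by rw [ti]; norm_num
    rw [inv_inv] at he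
    rw [act_mul, inv_act, act_mul, he _ m₀, he _ m₁, pol, ti, tr]
    have a := hR (ModularGroup.T ^ 3) (σ⁻¹ • k0) 0 0 0 0 (by rw [t]; rfl)
    rw [gam_smul G41.T3_mem] at a
    have c : Continuous fun s : II => (![0, 0, 3 * (s : ℝ), 0] : E4) := by
      refine continuous_pi fun i => ?_
      fin_cases i <;> simp <;> fun_prop
    have u : ∀ s : II, (![0, 0, 3 * (s : ℝ), 0] : E4) ∈ UU := fun s => by simp [UU, tt]
    have b := hh (σ⁻¹ • k0) ⟨_, c⟩ (img (continuousOn_Phi _) ⟨_, c⟩ u) u fun _ => rfl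
    rw [hyp (σ⁻¹ • k0) _ fun _ => rfl, eq_comm, inv_mul_eq_one] at b
    simp [t, rad] at a b
    rw [b, mul_inv_cancel, eq_comm, mul_inv_eq_one] at a
    simpa [pol, rad, act, p₀] using a.symm
  choose s hs using exists_smul_k0
  choose e he using fun k => hB (s k)
  have key : ∀ (σ : SL(2, ℤ)) (k : KK) (x x' : E4), x ∈ UU → x' ∈ UU → Rel σ x x' → tt x ≠ 0 →
      e k * h k x = e (σ • k) * h (σ • k) x' := by
    intro σ k x x' hx hx' r h0
    obtain ⟨b, α, n, h1, h2, h3⟩ := r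
    let p : DD := (⟨tau x, inv_pos.2 ((tt_nonneg x).lt_of_ne' h0)⟩, α, x 3)
    have e1 : pol p = x := by
      rw [eq_comm, eq_rad h1]
      simp [pol, p, tau]
    have b' := (rel_act σ p).1
    rw [e1] at b'
    have e2 : tau x' = tau (pol (act σ p)) := by
      have hd : (σ 1 0 : ℂ) * tau x + σ 1 1 ≠ 0 := by
        simpa [ModularGroup.denom_apply] using UpperHalfPlane.denom_ne_zero σ p.1
      exact mul_right_cancel₀ hd (b.1.trans b'.1.symm)
    have e3 : pol (sh 0 n (act σ p)) = x' := by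
      rw [eq_comm, eq_rad h2, h3, show tt x' = _ from inv_injective (congrArg Complex.im e2),
        show x' 2 = _ from congrArg Complex.re e2, tt_pol]
      simp [pol, sh, act, p, rad, tau]
    have a1 := he k p (pol_mem.1 (e1 ▸ hx))
    have a2 := he (σ • k) _ (pol_mem.1 (e3 ▸ hx'))
    rw [← hs, e1] at a1
    rw [← hs, e3, act_sh, hS] at a2
    rw [← a1, ← a2, ← hG ((s (σ • k))⁻¹ * σ * s k) (mem_gamma (k := k0) ?_), act_mul, act_mul,
      act_inv]
    rw [mul_smul, mul_smul, ← hs, eq_inv_smul_iff, ← hs]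
  have key2 : ∀ (k k' : KK) (x x' : E4), x ∈ UU → x' ∈ UU → Phi k x = Phi k' x' →
      e k * h k x = e k' * h k' x' := by
    intro k k' x x' hx hx' r'
    obtain ⟨σ, rfl, r⟩ := (Phi_eq hx hx').1 r'
    by_cases h0 : tt x = 0
    · have hc := r.1.2 h0
      obtain ⟨b, α, n, h1, h2, h3⟩ := r
      obtain ⟨b1, b2⟩ := (base_iff_zero hc).1 b
      have a := hR σ k α (x 2) (x 3) n hc
      have o : (1 : ℝ) ∈ Icc (0 : ℝ) 1 := by simp
      have c := key σ k _ _ (rad_mem o _ _ _) (rad_mem o _ _ _)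
        (rel_rad hc one_pos.le α (x 2) (x 3) n) (by rw [tt_rad one_pos.le]; norm_num)
      rw [← h3, ← b2] at a c
      rw [eq_rad h1, eq_rad h2, b1, h0]
      rw [mul_inv_eq_iff_eq_mul] at a
      rw [← eq_mul_inv_iff_mul_eq] at c
      rw [a, c]
      group
    · exact key σ k x x' hx hx' r h0
  choose q hq1 hq2 using exists_Phi
  refine pot_triv (g := fun z => e (q z).1 * h (q z).1 (q z).2) (st_HLOC MM G MM ho id _ _ ?_)
  intro z _
  refine ⟨Phi (q z).1 '' NN (q z).2, (isOpen_Phi _ (isOpen_NN _) fun _ h => h.1).mem_nhds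
    ⟨_, mem_NN (hq1 z), hq2 z⟩, pot_mono ((st_HTP.2.2.1 MM G E4 ho _ _ ⟨isOpen_NN _,
      (continuousOn_Phi _).mono fun _ h => h.1, fun V h1 h2 => isOpen_Phi _ h2 fun _ h =>
        (h1 h).1⟩ (injOn_Phi _ _)).2 (fun x => e (q z).1 * h (q z).1 x) _
      (fun x hx => key2 _ _ _ _ (hq1 _) hx.1 (hq2 _)) fun r r' h1 h2 => ?_) inter_subset_right⟩
  rw [hh _ r r' (fun t => (h1 t).1) h2]
  group

end Pool.Agent.Lib.V10
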