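import Pool.Agent.Lib.V10.Blue

set_option autoImplicit false

namespace Pool.Agent.Lib.V10.C14

open Filter Topology Set Metric
open scoped ContDiff
open Pool.Agent.Lib.MP_3eff7f_gt_h14

variable {E X : Type} [NormedAddCommGroup E] [NormedSpace ℝ E]

/-- A solution of the Euler-Lagrange equations of speed at most `En`. -/
def GLe [TopologicalSpace X] (𝒜 : Atl E X) (B : 𝒜.A → BF E) (γ : ℝ → X) (En : ℝ) : Prop :=
  Continuous γ ∧ ∀ t a, ∀ x ∈ 𝒜.U a, 𝒜.Φ a x = γ t → ∃ c : ℝ → E, c t = x ∧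
    ∀ᶠ s in 𝓝 t, c s ∈ 𝒜.U a ∧ 𝒜.Φ a (c s) = γ s ∧ EL (B a) c s ∧
      B a (c s) (deriv c s) (deriv c s) ≤ En ^ 2

theorem el_congr {b b' : BF E} {c c' : ℝ → E} {t : ℝ} (h : EL b c t) (e : c' =ᶠ[𝓝 t] c)
    (eb : b' =ᶠ[𝓝 (c t)] b) : EL b' c' t := by
  refine ⟨h.1.congr_of_eventuallyEq e, fun w w' hw => ?_⟩
  have e2 : (fun y => b' y (deriv c t) (deriv c t)) =ᶠ[𝓝 (c t)]
      fun y => b y (deriv c t) (deriv c t) := eb.mono fun y hy => by simp only [hy]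
  rw [e.eq_of_nhds, e.deriv_eq, e2.fderiv_eq, eb.eq_of_nhds]
  refine (h.2 w w' hw).congr_of_eventuallyEq ?_
  filter_upwards [e, e.deriv, h.1.continuousAt.eventually eb] with s a1 a2 a3
  rw [a1, a2, a3]

theorem coercive [FiniteDimensional ℝ E] {b : E →L[ℝ] E →L[ℝ] ℝ} (h : ∀ v, v ≠ 0 → 0 < b v v) :
    ∃ m, 0 < m ∧ ∀ v, m * ‖v‖ ^ 2 ≤ b v v := by
  have := FiniteDimensional.proper_real E
  have key : ∀ m, (∀ u ∈ sphere (0 : E) 1, m ≤ b u u) → ∀ v, m * ‖v‖ ^ 2 ≤ b v v := by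
    intro m hm v
    rcases eq_or_ne v 0 with rfl | hv
    · simp
    · have h0 := norm_pos_iff.2 hv
      have := hm (‖v‖⁻¹ • v) (by simp [norm_smul, inv_mul_cancel₀ h0.ne'])
      simp only [map_smul, ContinuousLinearMap.smul_apply, smul_eq_mul] at this
      rw [← mul_assoc, ← sq, inv_pow, inv_mul_eq_div, le_div_iff₀ (by positivity)] at this
      exact this
  rcases (sphere (0 : E) 1).eq_empty_or_nonempty with h1 | h1
  · exact ⟨1, one_pos, key 1 (by simp [h1])⟩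
  · obtain ⟨u, hu, hmin⟩ := (isCompact_sphere (0 : E) 1).exists_isMinOn h1
      (f := fun v => b v v) (by fun_prop)
    exact ⟨_, h u (by rintro rfl; simp at hu), key _ fun v hv => hmin hv⟩

theorem small {F : Type} [NormedAddCommGroup F] [NormedSpace ℝ F] {b : E → F} {x : E}
    (h : ContDiffAt ℝ ∞ b x) {m : ℝ} (hm : 0 < m) : ∀ᶠ y in 𝓝 x, ‖fderiv ℝ b y (y - x)‖ < m :=
  ContinuousAt.eventually_lt (((h.fderiv_right (m := 0) (by simp)).continuousAt.clm_apply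
    (by fun_prop)).norm) continuousAt_const (by simpa using hm)

/-- A small ball on which the squared distance to the centre is convex along geodesics. -/
theorem ball_ex [FiniteDimensional ℝ E] {b : BF E} {U : Set E} (hU : IsOpen U)
    (sm : ∀ x ∈ U, ∀ v w, ContDiffAt ℝ ∞ (fun y => b y v w) x) {x : E} (hx : x ∈ U)
    (pos : ∀ v, v ≠ 0 → 0 < b x v v) {V : Set E} (hV : V ∈ 𝓝 x) :
    ∃ r m, 0 < r ∧ 0 < m ∧ ball x r ⊆ V ∧ ∀ y ∈ ball x r, ∀ v, m * ‖v‖ ^ 2 ≤ b y v v ∧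
      -(m * ‖v‖ ^ 2) ≤ fderiv ℝ (fun z => b z v v) y (y - x) := by
  have h1 : ContDiffOn ℝ ∞ b U := contDiffOn_clm_apply.2 fun v => contDiffOn_clm_apply.2 fun w =>
    fun y hy => (sm y hy v w).contDiffWithinAt
  have h2 : ContDiffAt ℝ ∞ b x := h1.contDiffAt (hU.mem_nhds hx)
  obtain ⟨m, hm, h4⟩ := coercive pos
  have e1 : ∀ᶠ y in 𝓝 x, ‖b y - b x‖ < m / 2 := by
    simpa only [dist_eq_norm] using h2.continuousAt.eventually (ball_mem_nhds _ (half_pos hm))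
  have e2 := small h2 (half_pos hm)
  obtain ⟨r, hr, h5⟩ := Metric.mem_nhds_iff.1 (inter_mem hV (inter_mem (hU.mem_nhds hx) (e1.and e2)))
  refine ⟨r, m / 2, hr, half_pos hm, fun y hy => (h5 hy).1, fun y hy v => ?_⟩
  obtain ⟨-, a1, a2, a3⟩ := h5 hy
  constructor
  · have := (b y - b x).le_opNorm₂ v v
    have a4 : ‖b y - b x‖ * ‖v‖ * ‖v‖ ≤ m / 2 * ‖v‖ * ‖v‖ := by gcongr
    have a5 := neg_abs_le ((b y - b x) v v)
    rw [Real.norm_eq_abs] at this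
    simp only [ContinuousLinearMap.sub_apply] at this a5
    nlinarith [h4 v]
  · have d := ((h1.contDiffAt (hU.mem_nhds a1)).differentiableAt (by simp)).hasFDerivAt
    have d2 : HasFDerivAt (fun z => b z v v) _ y :=
      (d.clm_apply (hasFDerivAt_const v y)).clm_apply (hasFDerivAt_const v y)
    rw [d2.fderiv]
    have := (fderiv ℝ b y (y - x)).le_opNorm₂ v v
    have a4 : ‖fderiv ℝ b y (y - x)‖ * ‖v‖ * ‖v‖ ≤ m / 2 * ‖v‖ * ‖v‖ := by gcongr
    have a5 := neg_abs_le (fderiv ℝ b y (y - x) v v)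
    rw [Real.norm_eq_abs] at this
    generalize y - x = z at *
    simp
    nlinarith

theorem rest {b : BF E} {c : ℝ → E} {x : E} {m T : ℝ} (hm : 0 < m) (hT : 0 < T)
    (hp : Function.Periodic c T) (h : ∀ s, EL b c s)
    (hb : ∀ s v, m * ‖v‖ ^ 2 ≤ b (c s) v v ∧
      -(m * ‖v‖ ^ 2) ≤ fderiv ℝ (fun z => b z v v) (c s) (c s - x)) (s t : ℝ) : c s = c t := by
  have d : ∀ s, HasDerivAt c (deriv c s) s := fun s =>
    ((h s).1.differentiableAt (by simp)).hasDerivAt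
  have d1 := fun s => (h s).2 _ _ ((d s).sub_const x)
  have pd : ∀ s, deriv c (s + T) = deriv c s := fun s => by
    refine HasDerivAt.unique ?_ (d s)
    simpa only [hp _] using (d (s + T)).comp_add_const s T
  have pf : Function.Periodic (fun s => b (c s) (deriv c s) (c s - x)) T := fun s => by
    simp only [hp s, pd s]
  have mo : Monotone fun s => b (c s) (deriv c s) (c s - x) :=
    monotone_of_deriv_nonneg (fun s => (d1 s).differentiableAt) fun s => by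
      rw [(d1 s).deriv]
      nlinarith [(hb s (deriv c s)).1, (hb s (deriv c s)).2,
        mul_nonneg hm.le (sq_nonneg ‖deriv c s‖)]
  refine is_const_of_deriv_eq_zero (fun s => (d s).differentiableAt) (fun s => ?_) s t
  have mx : ∀ r, b (c r) (deriv c r) (c r - x) ≤ b (c s) (deriv c s) (c s - x) := fun r => by
    obtain ⟨y, hy, e⟩ := pf.exists_mem_Ico hT r (s - T)
    exact e.le.trans (mo (by linarith [hy.2]))
  have := IsLocalMax.hasDerivAt_eq_zero (Eventually.of_forall mx) (d1 s)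
  have h2 : m * ‖deriv c s‖ ^ 2 ≤ 0 := by
    nlinarith [(hb s (deriv c s)).1, (hb s (deriv c s)).2]
  have h3 : ‖deriv c s‖ ^ 2 ≤ 0 := by
    by_contra h3
    exact absurd h2 (not_le.2 (mul_pos hm (not_le.1 h3)))
  simpa using le_antisymm h3 (sq_nonneg _)

theorem cap [FiniteDimensional ℝ E] [TopologicalSpace X] [T2Space X] {𝒜 : Atl E X} (h : 𝒜.Ok)
    {B₀ : 𝒜.A → BF E} (hB : Met 𝒜 B₀) {K O : Set X} (hK : IsCompact K) (hO : IsOpen O)
    (hKO : K ⊆ O) : ∃ δ, 0 < δ ∧ ∀ B : 𝒜.A → BF E,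
      (∀ a, ∀ x ∈ 𝒜.U a, 𝒜.Φ a x ∈ O → B a x = B₀ a x) → ∀ (γ : ℝ → X) (En T : ℝ), 0 ≤ En →
        0 < T → En * T ≤ δ → Function.Periodic γ T → GLe 𝒜 B γ En → (∃ s, γ s ∈ K) →
          ∀ s t, γ s = γ t := by
  have := FiniteDimensional.proper_real E
  refine hK.induction_on (p := fun K => ∃ δ, 0 < δ ∧ ∀ B : 𝒜.A → BF E,
      (∀ a, ∀ x ∈ 𝒜.U a, 𝒜.Φ a x ∈ O → B a x = B₀ a x) → ∀ (γ : ℝ → X) (En T : ℝ), 0 ≤ En →
        0 < T → En * T ≤ δ → Function.Periodic γ T → GLe 𝒜 B γ En → (∃ s, γ s ∈ K) →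
          ∀ s t, γ s = γ t) ⟨1, one_pos, fun _ _ _ _ _ _ _ _ _ _ ⟨_, h⟩ => h.elim⟩ ?_ ?_ ?_
  · rintro s t hst ⟨δ, h1, h2⟩
    exact ⟨δ, h1, fun B a γ En T b c d e f ⟨r, hr⟩ => h2 B a γ En T b c d e f ⟨r, hst hr⟩⟩
  · rintro s t ⟨δ, h1, h2⟩ ⟨δ', h3, h4⟩
    refine ⟨min δ δ', lt_min h1 h3, fun B a γ En T b c d e f ⟨r, hr⟩ => ?_⟩
    rcases hr with hr | hr
    · exact h2 B a γ En T b c (d.trans (min_le_left _ _)) e f ⟨r, hr⟩
    · exact h4 B a γ En T b c (d.trans (min_le_right _ _)) e f ⟨r, hr⟩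
  intro p hp
  obtain ⟨a, x, hx, rfl⟩ := h.cov p
  obtain ⟨V, hV, hi⟩ := h.linj a x hx
  have om := h.om a
  have hx' := om.opn.mem_nhds hx
  obtain ⟨r, m, hr, hm, hs, hb⟩ := ball_ex om.opn (hB.sm a) hx (hB.pos a x hx)
    (inter_mem hV (inter_mem hx' ((om.cont.continuousAt hx').preimage_mem_nhds
      (hO.mem_nhds (hKO hp)))))
  have s2 : closedBall x (3 / 4 * r) ⊆ ball x r := closedBall_subset_ball (by linarith)
  have s3 : ball x (r / 2) ⊆ ball x r := ball_subset_ball (by linarith)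
  have hq := Real.sqrt_pos.2 hm
  refine ⟨𝒜.Φ a '' ball x (r / 2), mem_nhdsWithin_of_mem_nhds
    ((om.omap _ (fun y hy => (hs (s3 hy)).2.1) isOpen_ball).mem_nhds
      ⟨x, mem_ball_self (half_pos hr), rfl⟩), √m * (r / 4), by positivity, ?_⟩
  rintro B hBB γ En T hE hT hET hp hγ ⟨s₀, x₀, hx₀, e₀⟩
  have eb : ∀ y ∈ ball x r, B a y = B₀ a y := fun y hy => hBB a y (hs hy).2.1 (hs hy).2.2
  let Z : Set (ℝ × E) := {q ∈ Icc s₀ (s₀ + T) ×ˢ closedBall x (3 / 4 * r) | 𝒜.Φ a q.2 = γ q.1} ∩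
    {q | ‖q.2 - x₀‖ ≤ En / √m * (q.1 - s₀)}
  have cZ : IsCompact Z := by
    refine ((isCompact_Icc.prod (isCompact_closedBall _ _)).of_isClosed_subset ?_
      (sep_subset _ _)).inter_right (isClosed_le (by fun_prop) (by fun_prop))
    exact (isClosed_Icc.prod isClosed_closedBall).isClosed_eq (om.cont.comp
      continuousOn_snd fun q hq => (hs (s2 hq.2)).2.1) (hγ.1.comp continuous_fst).continuousOn
  have key : Icc s₀ (s₀ + T) ⊆ Prod.fst '' Z := by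
    refine ((cZ.image continuous_fst).isClosed.inter isClosed_Icc).Icc_subset_of_forall_mem_nhdsWithin
      ⟨(s₀, x₀), ⟨⟨⟨⟨le_rfl, by linarith⟩, ball_subset_closedBall
        (ball_subset_ball (by linarith) hx₀)⟩, e₀⟩, by simp⟩, rfl⟩ ?_
    rintro _ ⟨⟨⟨s, y⟩, ⟨⟨⟨-, hy⟩, e⟩, b1⟩, rfl⟩, hs0, hsT⟩
    obtain ⟨c, c1, c2⟩ := hγ.2 s a y (hs (s2 hy)).2.1 e
    have c3 := c2.self_of_nhds.2.2.1.1.continuousAt.eventually
      (show ∀ᶠ z in 𝓝 (c s), z ∈ ball x r from c1 ▸ isOpen_ball.mem_nhds (s2 hy))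
    obtain ⟨u, hu, hsub⟩ := mem_nhdsGE_iff_exists_Icc_subset.1
      (mem_nhdsWithin_of_mem_nhds (c2.and c3))
    filter_upwards [Ioc_mem_nhdsGT (lt_min hu hsT)] with t ht
    have ht1 := ht.2.trans (min_le_left _ _)
    have ht2 := ht.2.trans (min_le_right _ _)
    have m1 : ‖c t - c s‖ ≤ En / √m * (t - s) :=
      norm_image_sub_le_of_norm_deriv_le_segment' (f' := deriv c)
        (fun p hp => ((hsub ⟨hp.1, hp.2.trans ht1⟩).1.2.2.1.1.differentiableAt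
          (by simp)).hasDerivAt.hasDerivWithinAt) (fun p hp => by
            obtain ⟨⟨-, -, -, a1⟩, a2⟩ := hsub ⟨hp.1, hp.2.le.trans ht1⟩
            rw [eb _ a2] at a1
            have a3 := (hb _ a2 (deriv c p)).1.trans a1
            rw [le_div_iff₀ hq]
            refine abs_le_of_sq_le_sq' ?_ hE |>.2
            rw [mul_pow, Real.sq_sqrt hm.le, mul_comm]
            exact a3) t (right_mem_Icc.2 ht.1.le)
    have m2 : ‖c t - x₀‖ ≤ En / √m * (t - s₀) := by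
      have : ‖y - x₀‖ ≤ En / √m * (s - s₀) := b1
      have := norm_sub_le_norm_sub_add_norm_sub (c t) (c s) x₀
      rw [c1] at this m1
      linarith
    refine ⟨(t, c t), ⟨⟨⟨⟨hs0.trans ht.1.le, ht2⟩, ?_⟩, (hsub ⟨ht.1.le, ht1⟩).1.2.1⟩, m2⟩, rfl⟩
    have m3 : En / √m * (t - s₀) ≤ r / 4 := by
      rw [div_mul_eq_mul_div, div_le_iff₀ hq]
      nlinarith [mul_le_mul_of_nonneg_left (show t - s₀ ≤ T by linarith) hE]
    have := norm_sub_le_norm_sub_add_norm_sub (c t) x₀ x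
    rw [mem_ball_iff_norm] at hx₀
    rw [mem_closedBall_iff_norm]
    linarith
  have : ∀ s, ∃ y ∈ ball x r, 𝒜.Φ a y = γ s := fun s => by
    obtain ⟨t, ht, e⟩ := hp.exists_mem_Ico hT s s₀
    obtain ⟨⟨_, y⟩, ⟨⟨⟨-, hy⟩, e2⟩, -⟩, rfl⟩ := key (Ico_subset_Icc_self ht)
    exact ⟨y, s2 hy, e2.trans e.symm⟩
  choose Y Y1 Y2 using this
  have inj : ∀ {s y}, y ∈ ball x r → 𝒜.Φ a y = γ s → Y s = y := fun {s y} hy e =>
    hi (hs (Y1 s)).1 (hs hy).1 ((Y2 s).trans e.symm)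
  intro s t
  rw [← Y2, ← Y2, rest (b := B₀ a) hm hT (fun s => inj (Y1 s) ((Y2 s).trans (hp s).symm))
    (fun s => ?_) (fun s => hb _ (Y1 s)) s t]
  obtain ⟨c, c1, c2⟩ := hγ.2 s a _ (hs (Y1 s)).2.1 (Y2 s)
  have c3 : ∀ᶠ z in 𝓝 (c s), z ∈ ball x r := c1 ▸ isOpen_ball.mem_nhds (Y1 s)
  have c4 := c2.self_of_nhds.2.2.1
  refine el_congr c4 ?_ (c3.mono fun z hz => (eb z hz).symm)
  filter_upwards [c2, c4.1.continuousAt.eventually c3] with t a1 a2
  exact inj a2 a1.2.1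

end Pool.Agent.Lib.V10.C14
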