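import Pool.Agent.Lib.V10.BlueG
import Pool.Agent.Lib.V10.CAP14

set_option autoImplicit false

namespace Pool.Agent.Lib.V10

open Filter Topology Set
open scoped ContDiff
open Pool.Agent.Lib.MP_3eff7f_gt_h14

namespace O92

theorem GG_nonneg {η : ℝ} (h0 : 0 < η) (h1 : η ≤ 1 / 4) (x v : E4) : 0 ≤ bil (GG η x) v v := by
  rw [bil_apply]
  exact (GG_pos h0 h1 x).posSemidef.dotProduct_mulVec_nonneg v

theorem b_nonneg {η : ℂ → ℝ} {b : BF ℂ} (h : AdmW η b) (ζ v : ℂ) : 0 ≤ b ζ v v := by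
  rcases eq_or_ne v 0 with rfl | hv
  · simp
  · exact (h.bpos ζ v hv).le

/-- The split equations at one time. -/
structure Split (η : ℂ → ℝ) (b : BF ℂ) (En : ℝ) (c : ℝ → E6) (t : ℝ) : Prop where
  cd : ContDiffAt ℝ 2 c t
  cd1 : ContDiffAt ℝ 2 (fun s => (c s).1) t
  el1 : SC14.ELv (fun s => η (c s).2) (fun s => (c s).1) t
  en1 : bil (GG (η (c t).2) (c t).1) (deriv (fun s => (c s).1) t) (deriv (fun s => (c s).1) t) ≤
    En ^ 2
  el2 : deriv (fun s => (c s).1) t = 0 → EL b (fun s => (c s).2) t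
  en2 : b (c t).2 (deriv (fun s => (c s).2) t) (deriv (fun s => (c s).2) t) ≤ En ^ 2

theorem split (hS : St_SP) (hO : St_WOUT) (hM : St_WMET) (D : WD) {η : ℂ → ℝ} {b : BF ℂ}
    (ad : AdmW η b) {En : ℝ} {k : KK} {c : ℝ → E6} {t : ℝ} (hU : c t ∈ D.atl.U (.inl k))
    (hq : 1 / 2 < ‖(c t).2‖) (hc : EL (BW η b (.inl k)) c t)
    (he : BW η b (.inl k) (c t) (deriv c t) (deriv c t) ≤ En ^ 2) : Split η b En c t := by
  have o : IsOpen {y : E6 | y.1 ∈ UU ∧ 1 / 2 < ‖y.2‖} :=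
    (isOpen_UU.preimage continuous_fst).inter (isOpen_lt continuous_const continuous_snd.norm)
  obtain ⟨⟨a1, a2, a3⟩, a4, a5⟩ := hS E4 ℂ (BW η b (.inl k)) (fun z y => bil (GG (η z) y)) b c t
    (fun v => ((hM D η b ad).sm (.inl k) (c t) hU v v).differentiableAt (by simp))
    (by filter_upwards [o.mem_nhds ⟨hU.1, hq⟩] with y hy using hO η b k y hy.1 hy.2.le) hc
  rw [hO η b k _ hU.1 hq.le, G6, osum_apply, ← a2, ← a4] at he
  have n1 := GG_nonneg (ad.pos (c t).2) (ad.le _) (c t).1 (deriv (fun s => (c s).1) t)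
  have n2 := b_nonneg ad (c t).2 (deriv (fun s => (c s).2) t)
  exact ⟨hc.1, a1, a3, by linarith, fun h => a5 (Or.inl (a2 ▸ h)), by linarith⟩

end O92

open O92

theorem st_OFF (hS : St_SP) (hP : St_PL) (hE : St_ETA) (hD : St_ADM) (hO : St_WOUT)
    (hM : St_WMET) : St_OFF := by
  obtain ⟨K, K0, hE⟩ := hE
  refine ⟨K, K0, fun D l hl w En T E0 hT hδ hp hw hq => ?_⟩
  have ad := (hD.1 l hl (K * l)).a1
  have : ∀ s, ∃ m, (m, D.p (w s)) ∈ AA ∧ D.j (m, D.p (w s)) = w s := fun s => by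
    have h := hq s
    rcases D.cov (w s) with ⟨P, h1, e⟩ | ⟨i, q, h1, e⟩
    · rw [← e, D.p_j P h1]
      exact ⟨P.1, h1, rfl⟩
    · have h2 : ‖q.2‖ < 1 / 4 := h1
      have h3 := D.p_h i q h1
      rw [e] at h3
      linarith
  choose m m1 m2 using this
  have key : ∀ t k, ∀ x ∈ UU, Phi k x = m t → ∃ c : ℝ → E6, (c t).1 = x ∧ ∀ᶠ s in 𝓝 t,
      (c s).1 ∈ UU ∧ Phi k (c s).1 = m s ∧ (c s).2 = D.p (w s) ∧
        Split (eta l) (bb (K * l)) En c s := by
    intro t k x hx e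
    have e1 : PP k (x, D.p (w t)) = (m t, D.p (w t)) := Prod.ext e rfl
    obtain ⟨c, c1, c2⟩ := hw.2 t (.inl k) (x, D.p (w t)) ⟨hx, e1 ▸ m1 t⟩
      ((congrArg D.j e1).trans (m2 t))
    refine ⟨c, congrArg Prod.fst c1, c2.mono fun s ⟨b1, b2, b3, b4⟩ => ?_⟩
    have e2 : PP k (c s) = (m s, D.p (w s)) := D.j_inj b1.2 (m1 s) (b2.trans (m2 s).symm)
    have e3 : (c s).2 = D.p (w s) := congrArg Prod.snd e2
    exact ⟨b1.1, congrArg Prod.fst e2, e3, split hS hO hM D ad b1 (e3 ▸ hq s) b3 b4⟩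
  have key' : ∀ t, ∃ (k : KK) (c : ℝ → E6), ∀ᶠ s in 𝓝 t,
      (c s).1 ∈ UU ∧ Phi k (c s).1 = m s ∧ (c s).2 = D.p (w s) ∧
        Split (eta l) (bb (K * l)) En c s := fun t => by
    obtain ⟨⟨k, x⟩, hx, e⟩ := exists_Phi (m t)
    obtain ⟨c, -, h⟩ := key t k x hx e
    exact ⟨k, c, h⟩
  have per : ∀ s, (m (s + T), D.p (w (s + T))) = (m s, D.p (w s)) := fun s =>
    D.j_inj (m1 _) (m1 _) (by rw [m2, m2, hp s])
  have cm : ∀ s t, m s = m t := by
    refine SC14.short_const (η := fun s => eta l (D.p (w s)))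
      ⟨fun s => ad.pos _, fun s => ad.le _, fun t => ?_⟩
      ⟨continuous_iff_continuousAt.2 fun t => ?_, fun t k x hx e => ?_⟩ E0 hT hδ
      fun s => congrArg Prod.fst (per s)
    · obtain ⟨k, c, h⟩ := key' t
      obtain ⟨-, -, b3, b4⟩ := h.self_of_nhds
      have ev : (fun s => D.p (w s)) =ᶠ[𝓝 t] fun s => (c s).2 := h.mono fun s hs => hs.2.2.1.symm
      have d := ((b4.cd.snd.differentiableAt (by simp)).hasDerivAt).congr_of_eventuallyEq ev
      exact (hE _ _ t En E0 d (m1 t).1).1 l hl (b3 ▸ b4.en2)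
    · obtain ⟨k, c, h⟩ := key' t
      obtain ⟨b1, -, -, b4⟩ := h.self_of_nhds
      exact (((continuousOn_Phi k).continuousAt (isOpen_UU.mem_nhds b1)).comp
        (f := fun s => (c s).1) b4.cd1.continuousAt).congr (h.mono fun s hs => hs.2.1)
    · obtain ⟨c, c1, h⟩ := key t k x hx e
      refine ⟨fun s => (c s).1, c1, ?_⟩
      filter_upwards [h, h.eventually_nhds] with s ⟨b1, b2, b3, b4⟩ hs
      refine ⟨b1, b2, b4.cd1, fun u u' hu => ?_, b3 ▸ b4.en1⟩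
      have := b4.el1 u u' hu
      simp only [b3] at this
      refine this.congr_of_eventuallyEq (hs.mono fun r hr => ?_)
      simp only [hr.2.2.1]
  have cz : ∀ s t, D.p (w s) = D.p (w t) := by
    refine hP (K * l) En T (fun s => D.p (w s)) E0 hT (by linarith [kap_le_one])
      (fun s => congrArg Prod.snd (per s)) fun t => ?_
    obtain ⟨k, c, h⟩ := key' t
    obtain ⟨b1, b2, b3, b4⟩ := h.self_of_nhds
    have ev : (fun s => D.p (w s)) =ᶠ[𝓝 t] fun s => (c s).2 := h.mono fun s hs => hs.2.2.1.symm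
    have e0 : (fun s => (c s).1) =ᶠ[𝓝 t] fun _ => (c t).1 := by
      filter_upwards [h, b4.cd1.continuousAt.eventually
        ((isOpen_NN _).mem_nhds (mem_NN b1))] with s hs hn
      exact injOn_Phi k _ hn (mem_NN b1) (hs.2.1.trans ((cm s t).trans b2.symm))
    refine ⟨C14.el_congr (b4.el2 (by rw [e0.deriv_eq, deriv_const])) ev (.refl _ _), ?_⟩
    rw [ev.deriv_eq]
    exact b3 ▸ b4.en2
  intro s t
  rw [← m2 s, ← m2 t, cm s t, cz s t]

end Pool.Agent.Lib.V10
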