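import Pool.Agent.Lib.V10.BlueG

set_option autoImplicit false

namespace Pool.Agent.Lib.V10

open Filter Topology Set Real
open scoped ContDiff
open Pool.Agent.Lib.MP_3eff7f_gt_h14

namespace P38

theorem mu4_pos {r : ℝ} (h : 0 ≤ r) : 0 < mu (1 / 4) r := mu_pos (by norm_num) le_rfl h

theorem Phif_pos (L : ℝ) {r : ℝ} (h : 0 ≤ r) : 0 < Phif L r :=
  div_pos (by positivity) (mu4_pos h)

theorem phi_deriv (L : ℝ) {r : ℝ} (h : 0 ≤ r) : ∃ d, HasDerivAt (Phif L) d r ∧
    0 ≤ Phif L r + r * d ∧ (r < 1 / 2 → 0 < Phif L r + r * d) := by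
  have h1 : HasDerivAt ta (deriv ta r) r := (((smoothTransition.contDiff (n := 1)).comp
    ((contDiff_const.mul contDiff_id).sub contDiff_const)).differentiable (by simp) r).hasDerivAt
  have h2 : 0 ≤ deriv ta r := Monotone.deriv_nonneg fun a b hab =>
    smoothTransition.monotone (by linarith)
  have h3 : 0 ≤ ta r := smoothTransition.nonneg _
  obtain ⟨p, p1, -, p3⟩ := psi_deriv r
  have h4 : HasDerivAt (mu (1 / 4)) (1 + 1 / 4 * p) r := (hasDerivAt_id r).add (p1.const_mul _)
  have hm := mu4_pos h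
  have h5 := (((h1.const_mul L).pow 2).const_add 1).div h4 hm.ne'
  have e : ∀ d, d = ((2 : ℕ) * (L * ta r) ^ (2 - 1) * (L * deriv ta r) * mu (1 / 4) r -
      (1 + (L * ta r) ^ 2) * (1 + 1 / 4 * p)) / mu (1 / 4) r ^ 2 → Phif L r + r * d =
      ((1 + (L * ta r) ^ 2) * (psi r / 4 + r * -p / 4) +
        2 * r * (L ^ 2 * ta r * deriv ta r) * mu (1 / 4) r) / mu (1 / 4) r ^ 2 := by
    rintro _ rfl
    rw [Phif]
    field_simp
    simp only [mu]
    ring
  have := psi_nonneg r
  have : 0 ≤ -p := by linarith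
  refine ⟨_, h5, ?_, fun hr => ?_⟩
  · exact le_of_le_of_eq (by positivity) (e _ rfl).symm
  · have : 0 < psi r := expNegInvGlue.pos_of_pos (by linarith)
    exact lt_of_lt_of_eq (by positivity) (e _ rfl).symm

theorem fd_bb {L d : ℝ} {z : ℂ} (h : HasDerivAt (Phif L) d (Complex.normSq z)) (v w : ℂ) :
    fderiv ℝ (fun y => bb L y v v) z w =
      d * (2 * (z.re * w.re + z.im * w.im)) * (v.re * v.re + v.im * v.im) := by
  have h1 := (Complex.reCLM.hasFDerivAt (x := z)).mul (Complex.reCLM.hasFDerivAt (x := z))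
  have h2 := (Complex.imCLM.hasFDerivAt (x := z)).mul (Complex.imCLM.hasFDerivAt (x := z))
  have h3 := ((HasDerivAt.comp_hasFDerivAt (h₂ := Phif L) z h (h1.add h2)).mul_const
    (v.re * v.re + v.im * v.im)).fderiv
  simp only [bb_apply]
  refine (congrArg (fun f : ℂ →L[ℝ] ℝ => f w) h3).trans ?_
  simp
  ring

end P38

open P38 in
theorem st_PL : St_PL := by
  intro L En T ζ hE hT hET hp h
  have d1 : ∀ s, HasDerivAt ζ (deriv ζ s) s := fun s =>
    ((h s).1.1.differentiableAt (by simp)).hasDerivAt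
  have dre : ∀ s, HasDerivAt (fun s => (ζ s).re) (deriv ζ s).re s := fun s =>
    Complex.reCLM.hasFDerivAt.comp_hasDerivAt s (d1 s)
  have dim : ∀ s, HasDerivAt (fun s => (ζ s).im) (deriv ζ s).im s := fun s =>
    Complex.imCLM.hasFDerivAt.comp_hasDerivAt s (d1 s)
  have pd' : ∀ s, deriv ζ (s + T) = deriv ζ s := fun s => by
    refine HasDerivAt.unique ?_ (d1 s)
    simpa only [hp _] using (d1 (s + T)).comp_add_const s T
  choose d hd h0 h1 using fun s => phi_deriv L (Complex.normSq_nonneg (ζ s))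
  have hpos := fun s => Phif_pos L (Complex.normSq_nonneg (ζ s))
  have dR : ∀ s, HasDerivAt (fun s => bb L (ζ s) (deriv ζ s) (ζ s))
      ((Phif L (Complex.normSq (ζ s)) + Complex.normSq (ζ s) * d s) *
        Complex.normSq (deriv ζ s)) s := fun s => ((h s).1.2 _ _ (d1 s)).congr_deriv (by
    rw [fd_bb (hd s), bb_apply, Complex.normSq_apply (deriv ζ s), Complex.normSq_apply]
    ring)
  have dM : ∀ s, HasDerivAt (fun s => bb L (ζ s) (deriv ζ s) (Complex.I * ζ s)) 0 s := fun s =>
    ((h s).1.2 _ _ ((d1 s).const_mul Complex.I)).congr_deriv (by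
      rw [fd_bb (hd s), bb_apply]
      simp
      ring)
  have mono : Monotone fun s => bb L (ζ s) (deriv ζ s) (ζ s) :=
    monotone_of_deriv_nonneg (fun s => (dR s).differentiableAt) fun s => by
      rw [(dR s).deriv]
      exact mul_nonneg (h0 s) (Complex.normSq_nonneg _)
  have pR : Function.Periodic (fun s => bb L (ζ s) (deriv ζ s) (ζ s)) T := fun s => by
    simp only [hp s, pd' s]
  have cR : ∀ s, bb L (ζ s) (deriv ζ s) (ζ s) = bb L (ζ 0) (deriv ζ 0) (ζ 0) := fun s => by
    obtain ⟨y, hy, e⟩ := pR.exists_mem_Ico₀ hT s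
    exact e.trans (le_antisymm ((mono hy.2.le).trans (by simpa using (pR 0).le)) (mono hy.1))
  have dr : ∀ s, HasDerivAt (fun s => Complex.normSq (ζ s))
      (2 * ((deriv ζ s).re * (ζ s).re + (deriv ζ s).im * (ζ s).im)) s := fun s =>
    (((dre s).mul (dre s)).add ((dim s).mul (dim s))).congr_deriv (by ring)
  have rolle : ∀ {f f' : ℝ → ℝ}, (∀ s, HasDerivAt f (f' s) s) → f T = f 0 →
      ∃ s ∈ Icc 0 T, f' s = 0 := fun hf e => by
    obtain ⟨s, hs, e⟩ := exists_hasDerivAt_eq_zero hT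
      (fun r _ => (hf r).continuousAt.continuousWithinAt) e.symm fun r _ => hf r
    exact ⟨s, Ioo_subset_Icc_self hs, e⟩
  have pT : ζ T = ζ 0 := by simpa using hp 0
  have R0 : ∀ s, (deriv ζ s).re * (ζ s).re + (deriv ζ s).im * (ζ s).im = 0 := fun s => by
    obtain ⟨r, -, hr⟩ := rolle dr (by rw [pT])
    have := (cR s).trans (cR r).symm
    rw [bb_apply, bb_apply, show (deriv ζ r).re * (ζ r).re + (deriv ζ r).im * (ζ r).im = 0 by
      linarith, mul_zero] at this
    exact (mul_eq_zero.1 this).resolve_left (hpos s).ne'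
  have cr : ∀ s, Complex.normSq (ζ s) = Complex.normSq (ζ 0) := fun s =>
    const_of_deriv (fun s => (dr s).congr_deriv (by rw [R0, mul_zero])) s 0
  suffices z : ∀ s, deriv ζ s = 0 from
    is_const_of_deriv_eq_zero (fun s => (d1 s).differentiableAt) z
  intro s
  by_cases hr : Complex.normSq (ζ 0) < 1 / 2
  · have := (dR s).unique ((hasDerivAt_const s _).congr_of_eventuallyEq (.of_forall cR))
    exact Complex.normSq_eq_zero.1 ((mul_eq_zero.1 this).resolve_left (h1 s (cr s ▸ hr)).ne')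
  rw [not_lt] at hr
  have sp : ∀ s, ‖deriv ζ s‖ ≤ En * ‖ζ 0‖ := fun s => by
    have a := (h s).2
    rw [bb_apply, cr, Phif, mu_eq _ hr, ← Complex.normSq_apply, div_mul_eq_mul_div,
      div_le_iff₀ (by linarith)] at a
    refine (abs_le_of_sq_le_sq' ?_ (by positivity)).2
    rw [mul_pow, Complex.sq_norm, Complex.sq_norm]
    nlinarith [mul_nonneg (sq_nonneg (L * ta (Complex.normSq (ζ 0))))
      (Complex.normSq_nonneg (deriv ζ s))]
  obtain ⟨r, hr', e⟩ := rolle (f := fun s => (ζ 0).re * (ζ s).im - (ζ 0).im * (ζ s).re)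
    (fun s => ((dim s).const_mul _).sub ((dre s).const_mul _)) (by rw [pT])
  have near : Complex.normSq (ζ r - ζ 0) ≤ Complex.normSq (ζ 0) := by
    have := norm_image_sub_le_of_norm_deriv_le_segment' (fun s _ => (d1 s).hasDerivWithinAt)
      (fun s _ => sp s) r hr'
    rw [← Complex.sq_norm, ← Complex.sq_norm]
    refine pow_le_pow_left₀ (norm_nonneg _) (this.trans ?_) 2
    have := mul_le_mul_of_nonneg_left hr'.2 hE
    nlinarith [norm_nonneg (ζ 0)]
  have c0 := cr r
  have r0 := R0 r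
  simp only [Complex.normSq_apply, Complex.sub_re, Complex.sub_im] at near c0 hr
  have m0 : (deriv ζ r).im * (ζ r).re - (deriv ζ r).re * (ζ r).im = 0 := by
    refine (mul_eq_zero.1 (?_ : _ * ((ζ 0).re * (ζ r).re + (ζ 0).im * (ζ r).im) = 0)).resolve_right
      (by nlinarith)
    linear_combination ((ζ r).re * (ζ r).re + (ζ r).im * (ζ r).im) * e -
      ((ζ 0).re * (ζ r).im - (ζ 0).im * (ζ r).re) * r0
  have m1 : (deriv ζ s).im * (ζ s).re - (deriv ζ s).re * (ζ s).im = 0 := by
    have := const_of_deriv dM s r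
    rw [bb_apply, bb_apply] at this
    simp only [Complex.I_mul_re, Complex.I_mul_im] at this
    refine (mul_eq_zero.1 ?_).resolve_left (hpos s).ne'
    linear_combination this + Phif L (Complex.normSq (ζ r)) * m0
  have c1 := cr s
  have r1 := R0 s
  simp only [Complex.normSq_apply] at c1
  have n0 : (ζ s).re * (ζ s).re + (ζ s).im * (ζ s).im ≠ 0 := by linarith
  exact Complex.ext (mul_left_cancel₀ n0 (by
    simp only [Complex.zero_re]; linear_combination (ζ s).re * r1 - (ζ s).im * m1))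
    (mul_left_cancel₀ n0 (by
      simp only [Complex.zero_im]; linear_combination (ζ s).im * r1 + (ζ s).re * m1))

end Pool.Agent.Lib.V10
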