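import Pool.Agent.Lib.V10.Alg

set_option autoImplicit false

namespace Pool.Agent.Lib.V10

open Filter Topology Set Real
open scoped ContDiff MatrixGroups
open Pool.Agent.Lib.MP_3eff7f_gt_h14

namespace T38

theorem pol_vv {x x' : E4} {α α' : ℝ} (h : Pol x α) (h' : Pol x' α') (ht : tt x' = tt x)
    (hy : x' 3 = x 3) (e : α' + x' 2 * x' 3 = α + x 2 * x 3) (ζ : ℂ) :
    vv (x, ζ) = vv (x', ζ) := by
  have c := congrArg cos e
  have s := congrArg sin e
  rw [cos_add, cos_add] at c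
  rw [sin_add, sin_add] at s
  refine Prod.ext hy.symm (E4_ext ?_ ?_ rfl rfl) <;> simp only [vv, Matrix.cons_val]
  · rw [h.1, h.2, h'.1, h'.2, ht]
    linear_combination -√(tt x) * c
  · rw [h.1, h.2, h'.1, h'.2, ht]
    linear_combination -√(tt x) * s

theorem T3 (n : ℤ) (k : KK) : ModularGroup.T ^ (3 * n) • k = k := by
  obtain ⟨g, rfl⟩ := QuotientGroup.mk_surjective k
  refine Eq.symm (QuotientGroup.eq.2 ?_)
  have h : ModularGroup.T ^ (3 * n) ∈ CongruenceSubgroup.Gamma 3 := by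
    simpa using CongruenceSubgroup.ModularGroup_T_pow_mem_Gamma 3 (3 * n) (dvd_mul_right 3 n)
  simpa [mul_assoc] using (CongruenceSubgroup.Gamma_normal 3).conj_mem _ h g⁻¹

theorem rel_T (m : ℤ) {q q' : E6} (h : vv q = vv q') (e : q'.1 2 = q.1 2 + m) :
    Rel (ModularGroup.T ^ m) q.1 q'.1 := by
  have hy : q'.1 3 = q.1 3 := (congrArg Prod.fst h).symm
  have hz : q'.2 = q.2 := Complex.ext (congrFun (congrArg Prod.snd h) 2).symm
    (congrFun (congrArg Prod.snd h) 3).symm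
  have ht : tt q'.1 = tt q.1 := by
    have := congrArg n5 h
    change rho q = rho q' at this
    rw [rho_eq, rho_eq, hy, hz] at this
    linarith
  obtain ⟨α, -, hα⟩ := exists_pol q.1
  refine ⟨(base_iff_zero ?_).2 ⟨ht, ?_⟩, α, 0, hα, ?_, ?_⟩
  · simp [ModularGroup.coe_T_zpow]
  · simp [ModularGroup.coe_T_zpow, e]
  · have h1 := congrArg (fun z : E6 => z.1) (tb_vv q')
    rw [← h, e] at h1
    have s := sin_sq_add_cos_sq (q.1 2 * q.1 3)
    simp only [Pol, ht, ModularGroup.coe_T_zpow]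
    constructor
    · rw [← congrFun h1 0]
      simp [tb, vv, add_mul, cos_add, sin_add, cos_sub]
      rw [hα.1, hα.2]
      linear_combination (√(tt q.1) * (cos α * cos (m * q.1 3) + sin α * sin (m * q.1 3))) * s
    · rw [← congrFun h1 1]
      simp [tb, vv, add_mul, cos_add, sin_add, sin_sub]
      rw [hα.1, hα.2]
      linear_combination (√(tt q.1) * (sin α * cos (m * q.1 3) - cos α * sin (m * q.1 3))) * s
  · simp [ModularGroup.coe_T_zpow, hy]

theorem kernel (c c' : CC) (q q' : E6) (h : rho q < 1 / 4) (h' : rho q' < 1 / 4) :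
    PP (rep c) q = PP (rep c') q' ↔
      c = c' ∧ vv q = vv q' ∧ ∃ n : ℤ, q'.1 2 = q.1 2 + 3 * n := by
  constructor
  · intro e
    obtain ⟨σ, h1, h2⟩ := (Phi_eq (mem_UU h) (mem_UU h')).1 (congrArg Prod.fst e)
    have hc : σ 1 0 = 0 := by
      by_contra hc
      linarith [(h2.1.half hc (mem_UU h) (mem_UU h')).1, tt_le_rho q]
    obtain rfl : c = c' := Quotient.out_equiv_out.1 ⟨σ, hc, h1⟩
    obtain ⟨g1, g2, -, -⟩ := CongruenceSubgroup.Gamma_mem.1 (mem_gamma h1)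
    obtain ⟨n, hn⟩ : (3 : ℤ) ∣ σ 0 1 := (ZMod.intCast_zmod_eq_zero_iff_dvd _ 3).1 g2
    obtain ⟨u1, u2⟩ := unit_of_c hc
    have ha : σ 0 0 = 1 := by
      rcases Int.eq_one_or_neg_one_of_mul_eq_one u2 with a | a
      · exact a
      · rw [a] at g1
        exact absurd g1 (by decide)
    obtain ⟨b1, b2⟩ := (base_iff_zero hc).1 h2.1
    obtain ⟨-, α, m, p1, p2, p3⟩ := h2
    simp only [ha, hc, hn, u1, Int.cast_one, one_mul, Int.cast_zero, zero_mul, neg_zero,
      zero_add, Int.cast_mul, Int.cast_ofNat] at p2 p3 b2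
    have hm : m = 0 := by
      rw [rho_eq] at h h'
      have a0 : |q.1 3| < 1 / 2 := abs_lt_of_sq_lt_sq (by nlinarith [tt_nonneg q.1]) (by norm_num)
      have a0' : |q'.1 3| < 1 / 2 :=
        abs_lt_of_sq_lt_sq (by nlinarith [tt_nonneg q'.1]) (by norm_num)
      rw [abs_lt] at a0 a0'
      have a1 : (m : ℝ) < 1 := by nlinarith [pi_gt_three]
      have a2 : (-1 : ℝ) < m := by nlinarith [pi_gt_three]
      have a3 : m < 1 := by exact_mod_cast a1
      have a4 : -1 < m := by exact_mod_cast a2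
      omega
    have hy : q'.1 3 = q.1 3 := by simpa [hm] using p3
    have hz : q.2 = q'.2 := (congrArg Prod.snd e :)
    refine ⟨rfl, ?_, n, b2⟩
    rw [show q' = (q'.1, q.2) by rw [hz]]
    exact pol_vv p1 p2 b1 hy (by rw [hy, b2]; ring) _
  · rintro ⟨rfl, h1, n, h2⟩
    refine Prod.ext ((Phi_eq (mem_UU h) (mem_UU h')).2 ⟨_, (T3 n _).symm,
      rel_T (3 * n) h1 (by rw [h2]; push_cast; ring)⟩) ?_
    exact Complex.ext (congrFun (congrArg Prod.snd h1) 2) (congrFun (congrArg Prod.snd h1) 3)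

theorem omap_PP (k : KK) : OMap (PP k) {q | q.1 ∈ UU} := by
  have := (omap_Phi k).prod (OMap.of_open (continuous_id (X := ℂ)) IsOpenMap.id)
  rw [prod_univ] at this
  exact this

theorem compact_ball (δ : ℝ) : IsCompact {v : V5 | n5 v ≤ δ} := by
  refine Metric.isCompact_of_isClosed_isBounded
    (isClosed_le contDiff_n5.continuous continuous_const)
    ((Metric.isBounded_closedBall (x := 0) (r := |δ| + 1)).subset fun v hv => ?_)
  have h : v.1 ^ 2 + (v.2 0 ^ 2 + v.2 1 ^ 2 + v.2 2 ^ 2 + v.2 3 ^ 2) ≤ δ := hv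
  have a : ∀ r : ℝ, r ^ 2 ≤ δ → ‖r‖ ≤ |δ| + 1 := fun r hr =>
    abs_le.2 ⟨by nlinarith [le_abs_self δ], by nlinarith [le_abs_self δ]⟩
  have := sq_nonneg v.1
  have := sq_nonneg (v.2 0)
  have := sq_nonneg (v.2 1)
  have := sq_nonneg (v.2 2)
  have := sq_nonneg (v.2 3)
  rw [mem_closedBall_zero_iff, Prod.norm_def, max_le_iff, pi_norm_le_iff_of_nonneg (by positivity)]
  refine ⟨a _ (by linarith), fun i => a _ ?_⟩
  fin_cases i <;> simp <;> linarith

theorem compact_tube {δ : ℝ} (hδ : δ < 1 / 4) : IsCompact (Tube δ) := by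
  have : Tube δ = ⋃ c, (fun p : ℝ × V5 => PP (rep c) (tb p.1 p.2)) ''
      (Icc 0 3 ×ˢ {v : V5 | n5 v ≤ δ}) := by
    ext P
    simp only [mem_iUnion]
    constructor
    · rintro ⟨c, q, h, rfl⟩
      have h1 := sub_toIcoDiv_zsmul_mem_Ico three_pos 0 (q.1 2)
      rw [zsmul_eq_mul, zero_add] at h1
      refine ⟨c, (_, vv q), ⟨Ico_subset_Icc_self h1, h⟩, (kernel c c _ _ ?_ (h.trans_lt hδ)).2
        ⟨rfl, vv_tb _ _, toIcoDiv three_pos 0 (q.1 2), by rw [tb_two]; ring⟩⟩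
      rw [rho_tb]
      exact h.trans_lt hδ
    · rintro ⟨c, p, hp, rfl⟩
      exact ⟨c, _, (rho_tb _ _).trans_le hp.2, rfl⟩
  rw [this]
  refine isCompact_iUnion fun c => (isCompact_Icc.prod (compact_ball δ)).image_of_continuousOn
    ((omap_PP _).cont.comp contDiff_tb.continuous.continuousOn fun p hp => mem_UU ?_)
  exact ((rho_tb _ _).trans_le hp.2).trans_lt hδ

theorem core (k : KK) :
    ∃ (c : CC) (r : ℝ), ∀ θ : ℝ, Phi k ![0, 0, θ, 0] = Phi (rep c) ![0, 0, θ + r, 0] := by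
  obtain ⟨σ, h1, h2⟩ : cusp.r k (rep (Quotient.mk cusp k)) :=
    cusp.symm (Quotient.mk_out (s := cusp) k)
  have t0 : ∀ θ : ℝ, tt ![0, 0, θ, 0] = 0 := fun θ => by simp [tt]
  refine ⟨Quotient.mk cusp k, σ 0 0 * σ 0 1, fun θ => (Phi_eq ?_ ?_).2 ⟨σ, h2,
    (base_iff_zero h1).2 ⟨by rw [t0, t0], rfl⟩, 0, 0, .of_zero (t0 _) _, .of_zero (t0 _) _,
    by simp⟩⟩ <;> simp [UU, t0]

theorem choose_spec {c : CC} {q : E6} (h : rho q < 1 / 4) {z : CC × E6}
    (hz : rho z.2 < 1 / 4 ∧ PP (rep z.1) z.2 = PP (rep c) q) : Ff z.2 = Ff q ∧ Xf z.2 = Xf q := by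
  obtain ⟨-, h1, h2⟩ := (kernel _ _ _ _ hz.1 h).1 hz.2
  have e : rho z.2 = rho q := congrArg n5 h1
  refine ⟨?_, by rw [Xf, Xf, e]⟩
  rcases (rho_nonneg q).eq_or_lt with h0 | h0
  · simp [Ff, aa, ss, e, ← h0]
  · obtain ⟨a, b⟩ := (aa_ss_eq (e ▸ h0) h0).2 ⟨h1, h2⟩
    rw [Ff, Ff, e, a, b]

end T38

open T38 in
theorem st_TUBE : St_TUBE := by
  refine ⟨kernel, fun _ => compact_tube, core, omap_PP,
    (isOpen_lt (continuous_norm.comp continuous_snd) continuous_const).inter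
      (compact_tube (δ := 0) (by norm_num)).isClosed.isOpen_compl, fun c q h => ?_, fun c q h => ?_,
    fun P hP => ?_⟩
  · constructor
    · exact fun hA => not_le.1 fun h0 => hA.2 ⟨c, q, h0, rfl⟩
    · refine fun h0 => ⟨?_, ?_⟩
      · have := norm_le_rho q
        change ‖q.2‖ < 2
        nlinarith
      · rintro ⟨c', q', h1, h2⟩
        have e : rho q' = rho q :=
          congrArg n5 ((kernel _ _ _ _ (h1.trans_lt (by norm_num)) h).1 h2).2.1
        linarith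
  · have ex : ∃ z : CC × E6, rho z.2 < 1 / 4 ∧ PP (rep z.1) z.2 = PP (rep c) q := ⟨(c, q), h, rfl⟩
    rw [FP, XP, dif_pos ex, dif_pos ex]
    exact choose_spec h ex.choose_spec
  · by_cases ex : ∃ z : CC × E6, rho z.2 < 1 / 4 ∧ PP (rep z.1) z.2 = P
    · have h : 3 / 16 < rho ex.choose.2 := not_le.1 fun h => hP ⟨_, _, h, ex.choose_spec.2⟩
      rw [FP, XP, dif_pos ex, dif_pos ex, Ff, Xf, smoothTransition.zero_of_nonpos (by linarith),
        smoothTransition.one_of_one_le (by linarith), zero_smul]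
      exact ⟨rfl, rfl⟩
    · rw [FP, XP, dif_neg ex, dif_neg ex]
      exact ⟨rfl, rfl⟩

end Pool.Agent.Lib.V10
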