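import Pool.Agent.Lib.V10.B_TUBE

set_option autoImplicit false

namespace Pool.Agent.Lib.V10

open Filter Topology Set Real
open scoped ContDiff
open Pool.Agent.Lib.MP_3eff7f_gt_h14

/-- The transition germ between two sheets of `MM`. -/
theorem germ_M {k k' : KK} {x x' : E4} (h : x ∈ UU) (h' : x' ∈ UU) (e : Phi k x = Phi k' x') :
    ∃ F : E4 → E4, F x = x' ∧ ContDiffAt ℝ ∞ F x ∧ (∀ᶠ y in 𝓝 x, Phi k' (F y) = Phi k y) ∧
      ∀ η, 0 < η → η ≤ 1 / 4 → Pull (GG η) F x := by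
  obtain ⟨σ, h3, h4⟩ := (Phi_eq h h').1 e
  obtain ⟨F, F1, F2, F3, F4⟩ := h4.locIso h h'
  refine ⟨F, F1, F2, ?_, F4⟩
  filter_upwards [F3, isOpen_UU.mem_nhds h, F2.continuousAt.eventually
    (show ∀ᶠ y in 𝓝 (F x), y ∈ UU from F1 ▸ isOpen_UU.mem_nhds h')] with y a b c
  exact ((Phi_eq b c).2 ⟨σ, h3, a⟩).symm

/-- The transition germ between two sheets of `MM × ℂ`. -/
theorem germ_P {k k' : KK} {q q' : E6} (h : q.1 ∈ UU) (h' : q'.1 ∈ UU) (e : PP k q = PP k' q') :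
    ∃ φ : E6 → E6, φ q = q' ∧ ContDiffAt ℝ ∞ φ q ∧ (∀ᶠ y in 𝓝 q, PP k' (φ y) = PP k y) ∧
      ∀ (η : ℂ → ℝ) (b : BF ℂ), 0 < η q.2 → η q.2 ≤ 1 / 4 → ∀ v w,
        G6 η b q' (fderiv ℝ φ q v) (fderiv ℝ φ q w) = G6 η b q v w := by
  obtain ⟨F, F1, F2, F3, F4⟩ := germ_M h h' (congrArg Prod.fst e)
  have e2 : q.2 = q'.2 := (congrArg Prod.snd e :)
  refine ⟨fun y => (F y.1, y.2), Prod.ext F1 e2, (F2.comp q contDiffAt_fst).prodMk contDiffAt_snd,
    (continuousAt_fst.eventually F3).mono fun y hy => Prod.ext hy rfl, fun η b h0 h1 v w => ?_⟩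
  have := (((F2.differentiableAt (by simp)).hasFDerivAt.comp q hasFDerivAt_fst).prodMk
    (hasFDerivAt_snd (𝕜 := ℝ) (p := q))).fderiv
  rw [show fderiv ℝ (fun y : E6 => (F y.1, y.2)) q = _ from this, G6, G6, osum_apply, osum_apply,
    ← e2, ← F1, ← F4 _ h0 h1]
  rfl

theorem rho_lt {z : E6} {a : ℂ} (h : aa z = a) (ha : ‖a‖ < 1 / 4) : rho z < 1 / 16 := by
  rw [← norm_aa_sq, h]
  nlinarith [norm_nonneg a]

theorem st_WATL : St_WATL := by
  intro D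
  have om : ∀ a, OMap (D.atl.Φ a) (D.atl.U a) := by
    rintro (k | i)
    exacts [D.j_om.comp (st_TUBE.2.2.2.1 k), D.h_om i]
  refine ⟨om, ?_, fun w => ?_, ?_⟩
  · rintro (k | i) x hx
    · refine ⟨_, inter_mem ((om (.inl k)).opn.mem_nhds hx) (continuousAt_fst.preimage_mem_nhds
        ((isOpen_NN x.1).mem_nhds (mem_NN hx.1))), fun y hy y' hy' e => ?_⟩
      have := D.j_inj hy.1.2 hy'.1.2 e
      exact Prod.ext (injOn_Phi k x.1 hy.2 hy'.2 (congrArg Prod.fst this))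
        (congrArg Prod.snd this :)
    · refine ⟨_, (D.h_om i).opn.mem_nhds hx, fun y hy y' hy' e => ?_⟩
      obtain ⟨-, h1, h2⟩ := (D.h_eq i i y hy y' hy').1 e
      exact Prod.ext (by rw [← sti_st i.2 y.1, h2, sti_st]) h1
  · rcases D.cov w with ⟨P, hP, rfl⟩ | ⟨i, q, hq, rfl⟩
    · obtain ⟨⟨k, x⟩, h1, h2⟩ := exists_Phi P.1
      have : PP k (x, P.2) = P := Prod.ext h2 rfl
      exact ⟨.inl k, (x, P.2), ⟨h1, this.symm ▸ hP⟩, congrArg D.j this⟩
    · exact ⟨.inr i, q, hq, rfl⟩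
  · rintro (k | i) (k' | i') x hx x' hx' e
    · obtain ⟨φ, h1, h2, h3, -⟩ := germ_P hx.1 hx'.1 (D.j_inj hx.2 hx'.2 e)
      exact ⟨φ, h1, h2, h3.mono fun y hy => congrArg D.j hy⟩
    · obtain ⟨z, z1, z2, z3, z4⟩ := (D.jh i' _ hx.2 x' hx').1 e
      obtain ⟨φ, rfl, h2, h3, -⟩ := germ_P hx.1 (mem_UU ((rho_lt z3 hx').trans (by norm_num)))
        z2.symm
      have a1 := (contDiffAt_aa z1).comp x h2
      have a2 := (contDiffAt_ss z1).comp x h2
      have a3 : 1 + sg i'.2 * (ss (φ x)).1 ≠ 0 := z4 ▸ one_add_st_ne _ _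
      refine ⟨fun y => (sti i'.2 (ss (φ y)), aa (φ y)),
        Prod.ext ((congrArg _ z4).trans (sti_st _ _)) z3,
        ContDiffAt.prodMk (ContDiffAt.comp (g := sti i'.2) x (contDiffAt_sti a3) a2) a1, ?_⟩
      filter_upwards [h3, (om (.inl k)).opn.mem_nhds hx, (contDiff_rho.continuous.continuousAt.comp
        h2.continuousAt).eventually (lt_mem_nhds z1), a1.continuousAt.norm.eventually
        (gt_mem_nhds (show ‖aa (φ x)‖ < 1 / 4 from z3 ▸ hx')), (continuousAt_const.add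
        (continuousAt_const.mul a2.continuousAt.fst)).eventually_ne a3] with y b1 b2 b3 b4 b5
      exact ((D.jh i' _ b2.2 (sti i'.2 (ss (φ y)), aa (φ y)) b4).2
        ⟨φ y, b3, b1, rfl, (st_sti (n5_ss b3) b5).symm⟩).symm
    · obtain ⟨z, z1, z2, z3, z4⟩ := (D.jh i _ hx'.2 x hx).1 e.symm
      obtain ⟨φ, rfl, h2, h3, -⟩ := germ_P (mem_UU ((rho_lt z3 hx).trans (by norm_num))) hx'.1 z2
      obtain ⟨κ, k1, k2, k3⟩ := exists_kappa z1
      have k4 := k2.self_of_nhds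
      rw [z3, z4] at k1 k4
      have a1 : ContDiffAt ℝ ∞ (fun y : E6 => κ (y.2, st i.2 y.1)) x := k1.comp x
        (contDiffAt_snd.prodMk ((contDiff_st _).contDiffAt.comp x contDiffAt_fst))
      rw [← k4] at h2 h3
      refine ⟨fun y => φ (κ (y.2, st i.2 y.1)), congrArg φ k4,
        ContDiffAt.comp (g := φ) x h2 a1, ?_⟩
      filter_upwards [a1.continuousAt.eventually h3, (D.h_om i).opn.mem_nhds hx,
        continuousAt_snd.eventually_ne (z3 ▸ aa_ne z1 : x.2 ≠ 0)] with y b1 b2 b3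
      obtain ⟨c1, c2, c3⟩ := k3 (y.2, st i.2 y.1) b3 (n5_st _ _)
      have c4 : 0 < rho (κ (y.2, st i.2 y.1)) := by rw [c1]; positivity
      exact (congrArg D.j b1).trans ((D.jh i _ ((st_TUBE.2.2.2.2.2.1 _ _
        ((rho_lt c2 b2).trans (by norm_num))).2 c4) y b2).2 ⟨_, c4, rfl, c2, c3⟩)
    · obtain ⟨h1, h2, h3⟩ := (D.h_eq i i' x hx x' hx').1 e
      have a3 : 1 + sg i'.2 * (st i.2 x.1).1 ≠ 0 := h3 ▸ one_add_st_ne _ _
      have a2 : ContDiffAt ℝ ∞ (fun y : E6 => st i.2 y.1) x :=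
        (contDiff_st _).contDiffAt.comp x contDiffAt_fst
      refine ⟨fun y => (sti i'.2 (st i.2 y.1), y.2),
        Prod.ext ((congrArg _ h3).trans (sti_st _ _)) h2, ContDiffAt.prodMk
        (ContDiffAt.comp (g := sti i'.2) x (contDiffAt_sti a3) a2) contDiffAt_snd, ?_⟩
      filter_upwards [(D.h_om i).opn.mem_nhds hx, (continuousAt_const.add
        (continuousAt_const.mul a2.continuousAt.fst)).eventually_ne a3] with y b1 b2
      exact (D.h_eq i' i (sti i'.2 (st i.2 y.1), y.2) b1 y b1).2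
        ⟨h1.symm, rfl, st_sti (n5_st _ _) b2⟩

end Pool.Agent.Lib.V10
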