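import Pool.Agent.Lib.V10.B_WATL

set_option autoImplicit false

namespace Pool.Agent.Lib.V10

open Filter Topology Set Real
open scoped ContDiff
open Pool.Agent.Lib.MP_3eff7f_gt_h14

namespace C38

/-- The open tube. -/
def OT : Set (MM × ℂ) := ⋃ c, PP (rep c) '' {q | rho q < 1 / 64}

theorem isOpen_OT : IsOpen OT :=
  isOpen_iUnion fun _ => (st_TUBE.2.2.2.1 _).omap _
    (fun _ hq => mem_UU (lt_trans hq (by norm_num)))
    (isOpen_lt contDiff_rho.continuous continuous_const)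

/-- The compact pieces. -/
def KW : KK ⊕ CC × Bool → Set E6 :=
  Sum.elim (fun k => (Box ×ˢ Metric.closedBall 0 (3 / 2)) ∩ PP k ⁻¹' OTᶜ)
    fun _ => {u | nq u ≤ 1} ×ˢ Metric.closedBall 0 (1 / 8)

theorem compact_nq : IsCompact {u : E4 | nq u ≤ 1} := by
  refine (congrArg _ ?_).mp ((T38.compact_ball 1).image continuous_snd)
  ext u
  exact ⟨fun ⟨v, hv, e⟩ => e ▸ (show nq v.2 ≤ 1 from (le_add_of_nonneg_left (sq_nonneg _)).trans hv),
    fun h => ⟨(0, u), by simpa [n5] using h, rfl⟩⟩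

theorem handle {c : CC} {a : ℂ} (ha : ‖a‖ ≤ 1 / 8) {s : V5} (hs : n5 s = 1) :
    ∃ e u, (u, a) ∈ KW (.inr (c, e)) ∧ (u, a) ∈ HD ∧ st e u = s := by
  obtain ⟨e, u, h1, h2⟩ := exists_st hs
  exact ⟨e, u, ⟨h1, mem_closedBall_zero_iff.2 ha⟩, ha.trans_lt (by norm_num), h2⟩

theorem main (D : WD) {P : MM × ℂ} (hP : P ∈ AA) (h : ‖P.2‖ ≤ 3 / 2) :
    ∃ a, ∃ q ∈ KW a, D.atl.Φ a q = D.j P := by
  by_cases h1 : P ∈ OT
  · obtain ⟨c, z, z1, rfl⟩ := mem_iUnion.1 h1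
    have z2 : rho z < 1 / 64 := z1
    obtain ⟨e, u, a1, a2, a3⟩ := handle (c := c) (a := aa z) (s := ss z)
      (abs_le_of_sq_le_sq' (by rw [norm_aa_sq]; linarith) (by norm_num)).2
      (n5_ss ((st_TUBE.2.2.2.2.2.1 c z (by linarith)).1 hP))
    exact ⟨.inr (c, e), _, a1, ((D.jh (c, e) _ hP _ a2).2
      ⟨z, (st_TUBE.2.2.2.2.2.1 c z (by linarith)).1 hP, rfl, rfl, a3.symm⟩).symm⟩
  · obtain ⟨k, x, h2, h3⟩ := exists_box P.1
    have : PP k (x, P.2) = P := Prod.ext h3 rfl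
    exact ⟨.inl k, (x, P.2), ⟨⟨h2, mem_closedBall_zero_iff.2 h⟩, by rwa [mem_preimage, this]⟩,
      congrArg D.j this⟩

end C38

open C38 in
theorem st_WCPT : St_WCPT := by
  intro D
  refine ⟨KW, ?_, fun k q hq => ⟨hq.1.1, mem_closedBall_zero_iff.1 hq.1.2⟩, fun w hw => ?_⟩
  · rintro (k | i)
    · have hc := isCompact_Box.prod (isCompact_closedBall (0 : ℂ) (3 / 2))
      refine ⟨hc.of_isClosed_subset (((st_TUBE.2.2.2.1 k).cont.mono fun q hq =>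
        Box_subset hq.1).preimage_isClosed_of_isClosed hc.isClosed isOpen_OT.isClosed_compl)
        inter_subset_left, fun q hq => ⟨Box_subset hq.1.1,
          (mem_closedBall_zero_iff.1 hq.1.2).trans_lt (by norm_num [RR]), fun ⟨c, z, z1, z2⟩ =>
          hq.2 (mem_iUnion.2 ⟨c, z, lt_of_le_of_lt z1 (by norm_num), z2⟩)⟩⟩
    · exact ⟨compact_nq.prod (isCompact_closedBall _ _),
        fun q hq => (mem_closedBall_zero_iff.1 hq.2).trans_lt (by norm_num)⟩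
  · rcases D.cov w with ⟨P, hP, rfl⟩ | ⟨i, q, hq, rfl⟩
    · exact main D hP (D.p_j P hP ▸ hw)
    · by_cases h : ‖q.2‖ ≤ 1 / 8
      · obtain ⟨e, u, a1, a2, a3⟩ := handle (c := i.1) h (n5_st i.2 q.1)
        exact ⟨.inr (i.1, e), _, a1, (D.h_eq _ i _ a2 q hq).2 ⟨rfl, rfl, a3⟩⟩
      · have h0 : q.2 ≠ 0 := fun e => h (by rw [e]; norm_num)
        obtain ⟨z, z1, z2, z3⟩ := exists_aa_ss h0 (n5_st i.2 q.1)
        have z4 : 0 < rho z := by rw [z1]; positivity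
        have hP := (st_TUBE.2.2.2.2.2.1 i.1 z ((rho_lt z2 hq).trans (by norm_num))).2 z4
        have e := (D.jh i _ hP q hq).2 ⟨z, z4, rfl, z2, z3⟩
        rw [← e] at hw ⊢
        exact main D hP (D.p_j _ hP ▸ hw)

end Pool.Agent.Lib.V10
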