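import Pool.Agent.Lib.V10.B_TUBE
import Pool.Agent.Lib.V10.B_GLUE

set_option autoImplicit false

namespace Pool.Agent.Lib.V10

open Filter Topology Set Real
open scoped ContDiff
open Pool.Agent.Lib.MP_3eff7f_gt_h14

section

variable {Z Y : Type} [TopologicalSpace Z] [TopologicalSpace Y]

theorem OMap.of_subtype {U : Set Z} (hU : IsOpen U) {F' : U → Y} (hc : Continuous F')
    (ho : IsOpenMap F') {F : Z → Y} (e : ∀ x (h : x ∈ U), F x = F' ⟨x, h⟩) : OMap F U := by
  refine ⟨hU, continuousOn_iff_continuous_domRestrict.2 ?_, fun V h1 h2 => ?_⟩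
  · exact (show U.domRestrict F = F' from funext fun x => e x x.2) ▸ hc
  · refine (congrArg _ ?_).mp (ho _ (h2.preimage continuous_subtype_val))
    ext y
    exact ⟨fun ⟨x, hx, h⟩ => ⟨x, hx, (e x x.2).trans h⟩,
      fun ⟨x, hx, h⟩ => ⟨⟨x, h1 hx⟩, hx, (e x _).symm.trans h⟩⟩

theorem OMap.restrict {U : Set Z} {S : Set Y} {F : Z → Y} (h : OMap F U) (hm : MapsTo F U S) :
    Continuous (hm.restrict F U S) ∧ IsOpenMap (hm.restrict F U S) := by
  refine ⟨h.cont.mapsToRestrict hm, fun V hV => ?_⟩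
  refine (congrArg _ ?_).mp ((h.omap _ (Subtype.coe_image_subset U V)
    (h.opn.isOpenMap_subtype_val V hV)).preimage (continuous_subtype_val (p := (· ∈ S))))
  ext y
  exact ⟨fun ⟨_, ⟨x, hx, rfl⟩, e⟩ => ⟨x, hx, Subtype.ext e⟩,
    fun ⟨x, hx, e⟩ => ⟨_, ⟨x, hx, rfl⟩, congrArg Subtype.val e⟩⟩

theorem OMap.discrete {ι : Type} [TopologicalSpace ι] [DiscreteTopology ι] {U : Set Z}
    {F : ι → Z → Y} (hU : IsOpen U) (h : ∀ i, OMap (F i) U) :
    OMap (fun p : ι × Z => F p.1 p.2) {p | p.2 ∈ U} := by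
  refine .of_nhds (hU.preimage continuous_snd) (fun p hp => ContinuousAt.continuousWithinAt ?_)
    fun p hp V hV => mem_of_superset ((h p.1).image_mem hp
      ((Continuous.prodMk_right p.1).continuousAt.preimage_mem_nhds hV))
      fun _ ⟨z, hz, e⟩ => ⟨_, hz, e⟩
  refine (((h p.1).continuousAt hp).comp continuousAt_snd).congr ?_
  filter_upwards [continuousAt_fst.preimage_mem_nhds ((isOpen_discrete {p.1}).mem_nhds rfl)]
    with y hy
  rw [show y.1 = p.1 from hy]
  rfl

end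

theorem exists_not_tube {P : MM × ℂ} (hP : P ∈ AA) : ∃ δ, 0 < δ ∧ δ < 1 / 4 ∧ P ∉ Tube δ := by
  by_cases h : P ∈ Tube (1 / 8)
  · obtain ⟨c, q, h1, rfl⟩ := h
    have h2 : rho q < 1 / 4 := by linarith
    have h3 := (st_TUBE.2.2.2.2.2.1 c q h2).1 hP
    refine ⟨rho q / 2, by linarith, by linarith, fun ⟨c', q', h4, h5⟩ => ?_⟩
    have e : rho q' = rho q := congrArg n5 ((st_TUBE.1 _ _ _ _ (by linarith) h2).1 h5).2.1
    linarith
  · exact ⟨1 / 8, by norm_num, by norm_num, h⟩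

namespace W38

instance : TopologicalSpace CC := ⊥

instance : DiscreteTopology CC := ⟨rfl⟩

/-- The punctured tubes. -/
def ZZ : Set (CC × E6) := {z | z.2 ∈ {q | 0 < rho q ∧ rho q < 1 / 16}}

/-- The handles. -/
def HH : Set (CC × ℂ × V5) := {b | ‖b.2.1‖ < 1 / 4 ∧ n5 b.2.2 = 1}

theorem isOpen_Z : IsOpen {q | 0 < rho q ∧ rho q < 1 / 16} :=
  (isOpen_lt continuous_const contDiff_rho.continuous).inter
    (isOpen_lt contDiff_rho.continuous continuous_const)

theorem mf : MapsTo (fun z : CC × E6 => PP (rep z.1) z.2) ZZ AA := fun z hz =>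
  (st_TUBE.2.2.2.2.2.1 z.1 z.2 (hz.2.trans (by norm_num))).2 hz.1

theorem mg : MapsTo (fun z : CC × E6 => (z.1, aa z.2, ss z.2)) ZZ HH := fun z hz =>
  ⟨lt_of_pow_lt_pow_left₀ 2 (by norm_num) (by rw [norm_aa_sq]; linarith [hz.2]), n5_ss hz.1⟩

theorem of : OMap (fun z : CC × E6 => PP (rep z.1) z.2) ZZ :=
  OMap.discrete (F := fun c => PP (rep c)) isOpen_Z fun _ => (st_TUBE.2.2.2.1 _).mono isOpen_Z
    fun _ hq => mem_UU (hq.2.trans (by norm_num))

theorem cg : Continuous (mg.restrict _ ZZ HH) :=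
  ContinuousOn.mapsToRestrict (fun _ hz => ContinuousAt.continuousWithinAt
    (continuousAt_fst.prodMk (((contDiffAt_aa hz.1).continuousAt.comp continuousAt_snd).prodMk
      ((contDiffAt_ss hz.1).continuousAt.comp continuousAt_snd)))) mg

theorem og : IsOpenMap (mg.restrict _ ZZ HH) := by
  refine isOpenMap_iff_nhds_le.2 fun z V hV => ?_
  obtain ⟨V', h1, h2⟩ := (mem_nhds_subtype _ _ _).1 hV
  obtain ⟨κ, k1, k2, k3⟩ := exists_kappa z.2.1
  have c : ContinuousAt (fun b : HH => (b.1.1, κ b.1.2)) (mg.restrict _ ZZ HH z) :=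
    (continuous_fst.comp continuous_subtype_val).continuousAt.prodMk
      (ContinuousAt.comp (f := fun b : HH => b.1.2) k1.continuousAt
        (continuous_snd.comp continuous_subtype_val).continuousAt)
  have c2 : ContinuousAt (fun b : HH => b.1.2.1) (mg.restrict _ ZZ HH z) := by fun_prop
  filter_upwards [c.preimage_mem_nhds (show V' ∈ 𝓝 (z.1.1, κ (aa z.1.2, ss z.1.2)) by
    rw [k2.self_of_nhds]; exact h1), c2.eventually_ne (aa_ne z.2.1)] with b b1 b2
  obtain ⟨a1, a2, a3⟩ := k3 b.1.2 b2 b.2.2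
  have hz : (b.1.1, κ b.1.2) ∈ ZZ := ⟨by rw [a1]; positivity, by
    rw [a1]; nlinarith [b.2.1, norm_nonneg b.1.2.1]⟩
  have := h2 (a := ⟨_, hz⟩) b1
  rwa [mem_preimage, show mg.restrict _ ZZ HH ⟨_, hz⟩ = b from
    Subtype.ext (Prod.ext rfl (Prod.ext a2 a3))] at this

theorem mh (i : CC × Bool) : MapsTo (fun q : E6 => (i.1, q.2, st i.2 q.1)) HD HH :=
  fun _ hq => ⟨hq, n5_st _ _⟩

theorem isOpen_HD : IsOpen HD := isOpen_lt (continuous_norm.comp continuous_snd) continuous_const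

theorem ch (i : CC × Bool) : Continuous ((mh i).restrict _ HD HH) :=
  ContinuousOn.mapsToRestrict (Continuous.continuousOn (continuous_const.prodMk
    (continuous_snd.prodMk ((contDiff_st _).continuous.comp continuous_fst)))) _

theorem oh (i : CC × Bool) : IsOpenMap ((mh i).restrict _ HD HH) := by
  refine isOpenMap_iff_nhds_le.2 fun z V hV => ?_
  obtain ⟨V', h1, h2⟩ := (mem_nhds_subtype _ _ _).1 hV
  have c : ContinuousAt (fun b : HH => (sti i.2 b.1.2.2, b.1.2.1)) ((mh i).restrict _ HD HH z) :=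
    ContinuousAt.prodMk (ContinuousAt.comp (f := fun b : HH => b.1.2.2) (g := sti i.2)
      (contDiffAt_sti (one_add_st_ne i.2 z.1.1)).continuousAt
      (Continuous.continuousAt (by fun_prop))) (Continuous.continuousAt (by fun_prop))
  have c2 : ContinuousAt (fun b : HH => 1 + sg i.2 * b.1.2.2.1) ((mh i).restrict _ HD HH z) := by
    fun_prop
  have c3 : ContinuousAt (fun b : HH => b.1.1) ((mh i).restrict _ HD HH z) := by fun_prop
  filter_upwards [c.preimage_mem_nhds (show V' ∈ 𝓝 (sti i.2 (st i.2 z.1.1), z.1.2) by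
    rw [sti_st]; exact h1), c2.eventually_ne (one_add_st_ne i.2 z.1.1),
    c3.preimage_mem_nhds ((isOpen_discrete {i.1}).mem_nhds rfl)] with b b1 b2 b3
  have := h2 (a := ⟨(sti i.2 b.1.2.2, b.1.2.1), b.2.1⟩) b1
  rwa [mem_preimage, show (mh i).restrict _ HD HH ⟨(sti i.2 b.1.2.2, b.1.2.1), b.2.1⟩ = b from
    Subtype.ext (Prod.ext (Eq.symm b3) (Prod.ext rfl (st_sti b.2.2 b2)))] at this

theorem rg {b : HH} (h : b.1.2.1 ≠ 0) : b ∈ range (mg.restrict _ ZZ HH) := by
  obtain ⟨z, h1, h2, h3⟩ := exists_aa_ss h b.2.2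
  exact ⟨⟨(b.1.1, z), by rw [h1]; positivity, by
    rw [h1]; nlinarith [b.2.1, norm_nonneg b.1.2.1]⟩, Subtype.ext (Prod.ext rfl (Prod.ext h2 h3))⟩

end W38

open W38 Classical in
theorem st_WEX : St_WEX := by
  obtain ⟨W, _, iA, iB, t2, eA, eB, e, cov⟩ := st_GLUE ZZ AA HH _ _ (of.restrict mf).1
    (of.restrict mf).2 cg og (fun z z' => by
      rw [Subtype.ext_iff, Subtype.ext_iff]
      refine (st_TUBE.1 _ _ _ _ (z.2.2.trans (by norm_num)) (z'.2.2.trans (by norm_num))).trans ?_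
      rw [← aa_ss_eq z.2.1 z'.2.1]
      simp [Prod.ext_iff]) (fun a _ b hb => by
      obtain ⟨δ, d1, d2, d3⟩ := exists_not_tube a.2
      have b0 : b.1.2.1 = 0 := by_contra fun h => hb (rg h)
      have c : ContinuousAt (fun b : HH => ‖b.1.2.1‖ ^ 2) b := by fun_prop
      refine ⟨_, continuous_subtype_val.continuousAt.preimage_mem_nhds
        ((st_TUBE.2.1 δ d2).isClosed.isOpen_compl.mem_nhds d3), _,
        c.preimage_mem_nhds (Iio_mem_nhds (show _ < δ by simpa [b0] using d1)),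
        fun z h1 h2 => h1 ⟨z.1.1, z.1.2, ?_, rfl⟩⟩
      exact ((norm_aa_sq _).symm.trans_lt h2).le)
  let w0 : W := iB ⟨(Quotient.mk cusp k0, 0, st true 0), by norm_num, n5_st _ _⟩
  let j : MM × ℂ → W := fun P => if h : P ∈ AA then iA ⟨P, h⟩ else w0
  let h : CC × Bool → E6 → W := fun i q =>
    if h : q ∈ HD then iB ((mh i).restrict _ HD HH ⟨q, h⟩) else w0
  let p : W → ℂ := fun w => if h : ∃ a, iA a = w then h.choose.1.2 else 0
  have hj : ∀ P (hP : P ∈ AA), j P = iA ⟨P, hP⟩ := fun P hP => dif_pos hP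
  have hh : ∀ i q (hq : q ∈ HD), h i q = iB ((mh i).restrict _ HD HH ⟨q, hq⟩) :=
    fun i q hq => dif_pos hq
  have pA : ∀ a, p (iA a) = a.1.2 := fun a => by
    have ex : ∃ a', iA a' = iA a := ⟨a, rfl⟩
    simp only [p, dif_pos ex, eA.injective ex.choose_spec]
  have pB : ∀ b, p (iB b) = ‖b.1.2.1‖ * ⟨b.1.2.2.2 2, b.1.2.2.2 3⟩ := fun b => by
    by_cases b0 : b.1.2.1 = 0
    · have : ¬∃ a, iA a = iB b := fun ⟨a, ha⟩ => by
        obtain ⟨z, -, rfl⟩ := (e _ _).1 ha
        exact aa_ne z.2.1 b0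
      rw [show p (iB b) = 0 from dif_neg this, b0]
      simp
    · obtain ⟨z, rfl⟩ := rg b0
      rw [← (e _ _).2 ⟨z, rfl, rfl⟩, pA]
      have := congrArg Prod.snd (smul_ss z.2.1)
      refine Complex.ext ?_ ?_
      · simpa [PP, vv] using (congrFun this 2).symm
      · simpa [PP, vv] using (congrFun this 3).symm
  refine ⟨{ W := W, j := j, h := h, p := p
            j_om := .of_subtype st_TUBE.2.2.2.2.1 eA.continuous eA.isOpenMap hj
            j_inj := fun P hP P' hP' e => ?_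
            h_om := fun i => .of_subtype isOpen_HD (eB.continuous.comp (ch i))
              (eB.isOpenMap.comp (oh i)) (hh i)
            h_eq := fun i i' q hq q' hq' => ?_
            jh := fun i P hP q hq => ?_
            cov := fun w => ?_
            p_cont := continuous_iff_continuousAt.2 fun w => ?_
            p_j := fun P hP => by rw [hj P hP, pA]
            p_h := fun i q hq => ?_ }⟩
  · rw [hj P hP, hj P' hP'] at e
    exact congrArg Subtype.val (eA.injective e)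
  · rw [hh i q hq, hh i' q' hq', eB.injective.eq_iff, Subtype.ext_iff]
    simp [Prod.ext_iff]
  · rw [hj P hP, hh i q hq, e]
    constructor
    · rintro ⟨z, h1, h2⟩
      have h3 := congrArg Subtype.val h2
      simp only [MapsTo.val_restrict_apply, Prod.mk.injEq] at h3
      exact ⟨z.1.2, z.2.1, h3.1 ▸ congrArg Subtype.val h1, h3.2⟩
    · rintro ⟨z, h1, h2, h3, h4⟩
      have : rho z < 1 / 16 := by
        rw [← norm_aa_sq, h3]
        nlinarith [show ‖q.2‖ < 1 / 4 from hq, norm_nonneg q.2]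
      exact ⟨⟨(i.1, z), h1, this⟩, Subtype.ext h2, Subtype.ext (Prod.ext rfl (Prod.ext h3 h4))⟩
  · rcases cov w with ⟨a, rfl⟩ | ⟨b, rfl⟩
    · exact .inl ⟨a.1, a.2, hj _ _⟩
    · obtain ⟨s, u, -, hu⟩ := exists_st b.2.2
      exact .inr ⟨(b.1.1, s), (u, b.1.2.1), b.2.1, (hh _ _ b.2.1).trans
        (congrArg iB (Subtype.ext (Prod.ext rfl (Prod.ext rfl hu))))⟩
  · rcases cov w with ⟨a, rfl⟩ | ⟨b, rfl⟩
    · rw [← eA.continuousAt_iff, show p ∘ iA = _ from funext pA]
      fun_prop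
    · rw [← eB.continuousAt_iff, show p ∘ iB = _ from funext pB]
      exact ContinuousAt.mul (by fun_prop) (Complex.equivRealProdCLM.symm.continuous.comp
        (f := fun b : HH => (b.1.2.2.2 2, b.1.2.2.2 3)) (by fun_prop)).continuousAt
  · rw [hh i q hq, pB, norm_mul, Complex.norm_real, norm_norm]
    refine mul_le_of_le_one_right (norm_nonneg _) (pow_le_pow_iff_left₀ (norm_nonneg _)
      zero_le_one two_ne_zero |>.1 ?_)
    have := n5_st i.2 q.1
    rw [Complex.sq_norm, Complex.normSq_mk]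
    simp only [n5, nq] at this
    simp only [MapsTo.val_restrict_apply]
    nlinarith [sq_nonneg (st i.2 q.1).1, sq_nonneg ((st i.2 q.1).2 0), sq_nonneg ((st i.2 q.1).2 1)]

end Pool.Agent.Lib.V10
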