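import Pool.Agent.Lib.V10.B_WATL

set_option autoImplicit false

namespace Pool.Agent.Lib.V10

open Filter Topology Set Real
open scoped ContDiff
open Pool.Agent.Lib.MP_3eff7f_gt_h14

namespace M38

/-- The embedding of the handle in the charts of `W`. -/
noncomputable def fa : KK ⊕ CC × Bool → E6 → Fin 7 → ℝ :=
  Sum.elim (fun k y => FP (PP k y)) fun i q => emb q.2 (st i.2 q.1)

theorem local_tube {c : CC} {z : E6} (h : rho z < 1 / 4) :
    ∀ᶠ y in 𝓝 z, FP (PP (rep c) y) = Ff y ∧ XP (PP (rep c) y) = Xf y :=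
  (contDiff_rho.continuous.continuousAt.eventually (gt_mem_nhds h)).mono fun y hy =>
    st_TUBE.2.2.2.2.2.2.1 c y hy

theorem contDiffAt_g {z : E6} (h : 0 < rho z) :
    ContDiffAt ℝ ∞ (fun y => emb (aa y) (ss y)) z :=
  contDiff_emb.contDiffAt.comp z ((contDiffAt_aa h).prodMk (contDiffAt_ss h))

theorem Ff_eq {z : E6} (h : rho z ≤ 1 / 8) : Ff z = emb (aa z) (ss z) := by
  rw [Ff, smoothTransition.one_of_one_le (by linarith), one_smul]

theorem sm_main {k : KK} {q : E6} (h1 : q.1 ∈ UU) (h2 : PP k q ∈ AA) :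
    ContDiffAt ℝ ∞ (fun y => FP (PP k y)) q ∧ ContDiffAt ℝ ∞ (fun y => XP (PP k y)) q := by
  by_cases h : PP k q ∈ Tube (3 / 16)
  · obtain ⟨c, z, z1, z2⟩ := h
    have z3 : rho z < 1 / 4 := by linarith
    have z4 := (st_TUBE.2.2.2.2.2.1 c z z3).1 (z2 ▸ h2)
    obtain ⟨φ, rfl, a2, a3, -⟩ := germ_P h1 (mem_UU z3) z2.symm
    have a4 := a2.continuousAt.eventually (local_tube (c := c) z3)
    have b1 : ContDiffAt ℝ ∞ Ff (φ q) := (smoothTransition.contDiffAt.comp _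
      (contDiffAt_const.sub (contDiffAt_const.mul contDiff_rho.contDiffAt))).smul (contDiffAt_g z4)
    have b2 : ContDiffAt ℝ ∞ Xf (φ q) := smoothTransition.contDiffAt.comp _
      ((contDiffAt_const.mul contDiff_rho.contDiffAt).sub contDiffAt_const)
    refine ⟨(b1.comp q a2).congr_of_eventuallyEq ?_, (b2.comp q a2).congr_of_eventuallyEq ?_⟩ <;>
      filter_upwards [a3, a4] with y c1 c2
    exacts [c1 ▸ c2.1, c1 ▸ c2.2]
  · have := (((st_TUBE.2.2.2.1 k).continuousAt h1).eventually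
      ((st_TUBE.2.1 _ (by norm_num)).isClosed.isOpen_compl.mem_nhds h)).mono
      fun y hy => st_TUBE.2.2.2.2.2.2.2 _ hy
    exact ⟨contDiffAt_const.congr_of_eventuallyEq (this.mono fun y hy => hy.1),
      contDiffAt_const.congr_of_eventuallyEq (this.mono fun y hy => hy.2)⟩

theorem sm_fa (D : WD) : ∀ a, ∀ x ∈ D.atl.U a, ContDiffAt ℝ ∞ (fa a) x := by
  rintro (k | i) x hx
  · exact (sm_main hx.1 hx.2).1
  · exact contDiff_emb.contDiffAt.comp x (contDiffAt_snd.prodMk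
      ((contDiff_st _).contDiffAt.comp x contDiffAt_fst))

theorem main_handle (D : WD) {k : KK} {i : CC × Bool} {x x' : E6} (hx : PP k x ∈ AA)
    (hx' : x' ∈ HD) (e : D.j (PP k x) = D.h i x') :
    fa (.inl k) x = fa (.inr i) x' ∧ XP (PP k x) = 0 := by
  obtain ⟨z, -, z2, z3, z4⟩ := (D.jh i _ hx x' hx').1 e
  have z5 := rho_lt z3 hx'
  obtain ⟨a, b⟩ := st_TUBE.2.2.2.2.2.2.1 i.1 z (by linarith)
  rw [z2] at a b
  exact ⟨a.trans (by rw [Ff_eq (by linarith), z3, z4]; rfl),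
    b.trans (smoothTransition.zero_of_nonpos (by linarith))⟩

theorem fa_eq (D : WD) : ∀ a b, ∀ x ∈ D.atl.U a, ∀ x' ∈ D.atl.U b,
    D.atl.Φ a x = D.atl.Φ b x' → fa a x = fa b x' := by
  rintro (k | i) (k' | i') x hx x' hx' e
  · exact congrArg FP (D.j_inj hx.2 hx'.2 e)
  · exact (main_handle D hx.2 hx' e).1
  · exact (main_handle D hx'.2 hx e.symm).1.symm
  · obtain ⟨-, h2, h3⟩ := (D.h_eq i i' x hx x' hx').1 e
    exact congrArg₂ emb h2 h3

theorem gram_fa (D : WD) {a b : D.atl.A} {x : E6} (hx : x ∈ D.atl.U a) {φ : E6 → E6}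
    (h1 : ContDiffAt ℝ ∞ φ x) (h2 : φ x ∈ D.atl.U b)
    (h3 : ∀ᶠ y in 𝓝 x, D.atl.Φ b (φ y) = D.atl.Φ a y) (v w : E6) :
    Gram (fa b) (φ x) (fderiv ℝ φ x v) (fderiv ℝ φ x w) = Gram (fa a) x v w := by
  refine Gram_comp h1 (sm_fa D b _ h2) ?_ v w
  filter_upwards [h3, ((st_WATL D).om a).opn.mem_nhds hx, h1.continuousAt.eventually
    (((st_WATL D).om b).opn.mem_nhds h2)] with y a1 a2 a3
  exact fa_eq D _ _ _ a3 _ a2 a1

theorem XP_nonneg (P : MM × ℂ) : 0 ≤ XP P := by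
  unfold XP
  split_ifs
  exacts [smoothTransition.nonneg _, zero_le_one]

theorem G6_pos {η : ℂ → ℝ} {b : BF ℂ} (h : AdmW η b) (q : E6) {v : E6} (hv : v ≠ 0) :
    0 < G6 η b q v v := by
  have a : ∀ u : E4, u ≠ 0 → 0 < bil (GG (η q.2) q.1) u u := fun u hu => by
    rw [bil_apply]
    exact (GG_pos (h.pos _) (h.le _) _).dotProduct_mulVec_pos hu
  rw [G6, osum_apply]
  by_cases h1 : v.1 = 0
  · simpa [h1] using h.bpos q.2 v.2 fun h2 => hv (Prod.ext h1 h2)
  · by_cases h2 : v.2 = 0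
    · simpa [h2] using a _ h1
    · exact add_pos (a _ h1) (h.bpos _ _ h2)

theorem gram_pos (D : WD) {k : KK} {x : E6} (hx : x ∈ D.atl.U (.inl k)) (h : XP (PP k x) = 0)
    {v : E6} (hv : v ≠ 0) : 0 < Gram (fa (.inl k)) x v v := by
  obtain ⟨c, z, z1, z2⟩ : PP k x ∈ Tube (3 / 16) := by_contra fun h' =>
    one_ne_zero ((st_TUBE.2.2.2.2.2.2.2 _ h').2.symm.trans h)
  have z3 : rho z < 1 / 4 := by linarith
  have z5 : z ∈ D.atl.U (.inl (rep c)) := ⟨mem_UU z3, z2 ▸ hx.2⟩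
  have z4 := (st_TUBE.2.2.2.2.2.1 c z z3).1 z5.2
  have z6 : rho z < 1 / 8 := by
    have := smoothTransition.zero_iff_nonpos.1
      ((st_TUBE.2.2.2.2.2.2.1 c z z3).2.symm.trans (z2 ▸ h))
    linarith
  obtain ⟨φ, rfl, a2, a3⟩ := (st_WATL D).tr _ _ x hx z z5 (congrArg D.j z2.symm)
  obtain ⟨κ, k1, k2, -⟩ := exists_kappa z4
  have e : ∀ᶠ y in 𝓝 (φ x), fa (.inl (rep c)) y = emb (aa y) (ss y) := by
    filter_upwards [local_tube (c := c) z3, contDiff_rho.continuous.continuousAt.eventually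
      (gt_mem_nhds z6)] with y b1 b2
    exact b1.1.trans (Ff_eq b2.le)
  rw [← gram_fa D hx a2 z5 a3]
  refine Gram_pos (fderiv_ne_zero (κ := fun f => κ (unemb f)) (sm_fa D _ _ z5)
    (ContDiffAt.comp (g := κ) _ ?_ contDiff_unemb.contDiffAt) ?_
    ((st_WATL D).fderiv_ne hx a2 z5 a3 hv))
  · rwa [e.self_of_nhds, unemb_emb]
  · filter_upwards [e, k2] with y b1 b2
    rwa [b1, unemb_emb]

end M38

open M38 in
theorem st_WMET (hG : St_GSM) : St_WMET := by
  intro D η b h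
  have e1 : ∀ k q v w, BW η b (.inl k) q v w =
      XP (PP k q) * G6 η b q v w + Gram (fa (.inl k)) q v w := fun _ _ _ _ => rfl
  have e2 : ∀ i, BW η b (.inr i) = Gram (fa (.inr i)) := fun _ => rfl
  refine .of_ex (st_WATL D) ?_ ?_ ?_ ?_
  · rintro (k | i) x hx v w
    · exact ((sm_main hx.1 hx.2).2.mul (((hG _ x.1 (h.pos x.2) (h.le _) v.1 w.1).comp x
        ((h.sm.contDiffAt.comp x contDiffAt_snd).prodMk contDiffAt_fst)).add
        ((h.bsm v.2 w.2).contDiffAt.comp x contDiffAt_snd))).add (Gram_sm (sm_fa D _ x hx) v w)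
    · exact Gram_sm (sm_fa D _ x hx) v w
  · rintro (k | i) x hx v w
    · rw [e1, e1, Gram_symm, G6, osum_apply, osum_apply, h.bsymm,
        bil_symm (GG_pos (h.pos _) (h.le _) _)]
    · exact Gram_symm v w
  · rintro (k | i) x hx v hv
    · rw [e1]
      rcases (XP_nonneg (PP k x)).eq_or_lt with h0 | h0
      · simpa [← h0] using gram_pos D hx h0.symm hv
      · exact add_pos_of_pos_of_nonneg (mul_pos h0 (G6_pos h x hv)) (Gram_nonneg v)
    · refine Gram_pos (fderiv_ne_zero (κ := fun f => (sti i.2 (unemb f).2, (unemb f).1))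
        (sm_fa D _ x hx) (ContDiffAt.prodMk (ContDiffAt.comp (g := sti i.2) _
          (contDiffAt_sti ?_) contDiff_unemb.contDiffAt.snd) contDiff_unemb.contDiffAt.fst)
        (.of_forall fun y => ?_) hv)
      · exact one_add_st_ne i.2 x.1
      · simp only [fa, Sum.elim_inr, unemb_emb, sti_st]
  · rintro (k | i) (k' | i') x hx x' hx' e
    · have e' := D.j_inj hx.2 hx'.2 e
      obtain ⟨φ, rfl, h2, h3, h4⟩ := germ_P hx.1 hx'.1 e'
      have h5 := h3.mono fun y hy => congrArg D.j hy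
      exact ⟨φ, rfl, h2.continuousAt, h5, fun v w => by
        rw [e1, e1, h4 η b (h.pos _) (h.le _), e', gram_fa D (a := .inl k) hx h2 hx' h5]⟩
    · obtain ⟨φ, rfl, h2, h3⟩ := (st_WATL D).tr _ _ x hx x' hx' e
      exact ⟨φ, rfl, h2.continuousAt, h3, fun v w => by
        rw [e1, e2, (main_handle D hx.2 hx' e).2, zero_mul, zero_add, gram_fa D hx h2 hx' h3]⟩
    · obtain ⟨φ, rfl, h2, h3⟩ := (st_WATL D).tr _ _ x hx x' hx' e
      exact ⟨φ, rfl, h2.continuousAt, h3, fun v w => by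
        rw [e1, e2, (main_handle D hx'.2 hx e.symm).2, zero_mul, zero_add, gram_fa D hx h2 hx' h3]⟩
    · obtain ⟨φ, rfl, h2, h3⟩ := (st_WATL D).tr _ _ x hx x' hx' e
      exact ⟨φ, rfl, h2.continuousAt, h3, fun v w => by rw [e2, e2, gram_fa D hx h2 hx' h3]⟩

theorem not_tube {P : MM × ℂ} {δ : ℝ} (h : δ < ‖P.2‖ ^ 2) : P ∉ Tube δ := by
  rintro ⟨c, q, h1, rfl⟩
  exact absurd ((norm_le_rho q).trans h1) (not_le.2 h)

theorem st_WOUT : St_WOUT := by
  intro η b k q _ h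
  have : ∀ᶠ y in 𝓝 q, FP (PP k y) = 0 ∧ XP (PP k y) = 1 :=
    ((continuousAt_snd.norm.pow 2).eventually (lt_mem_nhds (show 3 / 16 < ‖q.2‖ ^ 2 by
      nlinarith))).mono fun y hy => st_TUBE.2.2.2.2.2.2.2 _ (not_tube hy)
  change XP (PP k q) • G6 η b q + Gram (fun y => FP (PP k y)) q = _
  rw [this.self_of_nhds.2, one_smul, Gram_zero (this.mono fun y hy => hy.1)]
  exact add_zero (G6 η b q)

end Pool.Agent.Lib.V10
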