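import Pool.Agent.Lib.V10.B_MN
import Pool.Agent.Lib.V10.B_TUBE

set_option autoImplicit false

namespace Pool.Agent.Lib.V10

open Filter Topology Set Real
open Pool.Agent.Lib.MP_3eff7f_gt_h14

namespace S41

theorem pc_MM : PathConnectedSpace MM :=
  have := ChartedSpace.locallyPathConnectedSpace E4 MM
  pathConnectedSpace_iff_connectedSpace.2 inferInstance

theorem tube0 {P : MM × ℂ} (h : P ∈ Tube 0) : P.2 = 0 := by
  obtain ⟨c, q, h, rfl⟩ := h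
  exact norm_eq_zero.1 (pow_eq_zero_iff two_ne_zero |>.1
    (((norm_le_rho q).trans h).antisymm (sq_nonneg _)))

/-- The points off the cores or over `C`. -/
def PC (C : Set ℂ) : Set (MM × ℂ) := {P | ‖P.2‖ < RR ∧ ((P.1, 0) ∉ Tube 0 ∨ P.2 ∈ C)}

theorem PC_sub {C : Set ℂ} (h0 : 0 ∉ C) : PC C ⊆ AA := fun P hP => ⟨hP.1, fun h => by
  have e := tube0 h
  rcases hP.2 with a | a
  · exact a (e ▸ h)
  · exact h0 (e ▸ a)⟩

theorem PC_open {C : Set ℂ} (h : IsOpen C) : IsOpen (PC C) :=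
  (isOpen_lt (continuous_norm.comp continuous_snd) continuous_const).inter
    (((st_TUBE.2.1 0 (by norm_num)).isClosed.isOpen_compl.preimage
      (f := fun P : MM × ℂ => (P.1, 0)) (by fun_prop)).union (h.preimage continuous_snd))

theorem PC_inter (C C' : Set ℂ) : PC C ∩ PC C' = PC (C ∩ C') := by
  ext P
  simp only [PC, mem_inter_iff, mem_ofPred_eq]
  tauto

theorem PC_seg {C : Set ℂ} (hC : Convex ℝ C) {ζ : ℂ} (h1 : ζ ∈ C) (h2 : ‖ζ‖ < RR) {P : MM × ℂ}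
    (hP : P ∈ PC C) {s : ℝ} (hs : s ∈ Icc (0 : ℝ) 1) : (P.1, P.2 + s • (ζ - P.2)) ∈ PC C :=
  ⟨mem_ball_zero_iff.1 ((convex_ball 0 RR).add_smul_sub_mem (mem_ball_zero_iff.2 hP.1)
    (mem_ball_zero_iff.2 h2) hs), hP.2.imp_right fun h => hC.add_smul_sub_mem h h1 hs⟩

theorem PC_pc {C : Set ℂ} (hC : Convex ℝ C) {ζ : ℂ} (h1 : ζ ∈ C) (h2 : ‖ζ‖ < RR) :
    IsPathConnected (PC C) := by
  have := pc_MM
  obtain ⟨m⟩ := this.nonempty
  refine ⟨(m, ζ), ⟨h2, .inr h1⟩, fun P hP => JoinedIn.trans (y := (P.1, ζ)) ?_ (JoinedIn.symm ?_)⟩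
  · exact ⟨(PathConnectedSpace.somePath m P.1).prod (.refl ζ), fun _ => ⟨h2, .inr h1⟩⟩
  · exact ⟨⟨⟨fun s => (P.1, P.2 + (s : ℝ) • (ζ - P.2)), by fun_prop⟩, by simp, by simp⟩,
      fun s => PC_seg hC h1 h2 hP s.2⟩

theorem ex_off : ∃ m : MM, ∀ C, (m, 0) ∈ PC C := by
  have e : rho (![0, 0, 0, 1 / 4], 0) = 1 / 16 := by
    rw [rho_eq]
    simp [tt]
    norm_num
  have := (st_TUBE.2.2.2.2.2.1 (Quotient.mk cusp k0) _ (e.trans_lt (by norm_num))).2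
    (lt_of_lt_of_eq (by norm_num) e.symm)
  exact ⟨_, fun _ => ⟨this.1, .inl this.2⟩⟩

/-- Open half planes. -/
def HP (a b : ℝ) : Set ℂ := {ζ | 0 < a * ζ.re + b * ζ.im}

theorem HP_convex (a b : ℝ) : Convex ℝ (HP a b) :=
  convex_halfSpace_gt (f := fun ζ : ℂ => a * ζ.re + b * ζ.im)
    ⟨fun x y => by simp; ring, fun c x => by simp; ring⟩ 0

theorem HP_open (a b : ℝ) : IsOpen (HP a b) := isOpen_lt continuous_const (by fun_prop)

theorem HP_zero (a b : ℝ) : 0 ∉ HP a b := by simp [HP]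

theorem AA_cov {P : MM × ℂ} (h : P ∈ AA) :
    P ∈ PC (HP 1 0) ∨ ∃ e, P ∈ PC (HP (-1) (sg e)) := by
  by_cases h0 : P.2 = 0
  · exact .inl ⟨h.1, .inl (h0 ▸ h.2)⟩
  by_contra hc
  rw [not_or, not_exists] at hc
  have a : P.2 ∉ HP _ _ := fun a => hc.1 ⟨h.1, .inr a⟩
  have b : P.2 ∉ HP _ _ := fun a => hc.2 true ⟨h.1, .inr a⟩
  have c : P.2 ∉ HP _ _ := fun a => hc.2 false ⟨h.1, .inr a⟩
  simp [sg, HP] at a b c
  exact h0 (Complex.ext (by simp; linarith) (by simp; linarith))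

theorem zeta (e : Bool) : ∃ ζ ∈ HP 1 0 ∩ HP (-1) (sg e), ‖ζ‖ < RR := by
  refine ⟨⟨1 / 2, sg e⟩, ⟨by simp [HP], show 0 < -1 * (1 / 2) + sg e * sg e by
    rw [sg_sq]; norm_num⟩, (Complex.norm_le_abs_re_add_abs_im _).trans_lt ?_⟩
  cases e <;> simp [sg, RR] <;> norm_num

theorem convex_HD : Convex ℝ HD := by
  have := (convex_univ (𝕜 := ℝ) (E := E4)).prod (convex_ball (0 : ℂ) (1 / 4))
  convert this using 1
  ext q
  simp [HD]

theorem mem_HD (u : E4) : (u, (1 / 8 : ℂ)) ∈ HD := by simp [HD]; norm_num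

variable (D : WD)

theorem h_inj (i : CC × Bool) : InjOn (D.h i) HD := fun q hq q' hq' e => by
  obtain ⟨-, a, b⟩ := (D.h_eq i i q hq q' hq').1 e
  exact Prod.ext (by rw [← sti_st i.2 q.1, b, sti_st]) a

theorem h_mem (i : CC × Bool) {q : E6} (hq : q ∈ HD) : D.h i q ∈ D.j '' AA ↔ q.2 ≠ 0 := by
  constructor
  · rintro ⟨P, hP, e⟩
    obtain ⟨z, h1, -, h2, -⟩ := (D.jh i P hP q hq).1 e
    exact h2 ▸ aa_ne h1
  · intro h
    obtain ⟨z, h1, h2, h3⟩ := exists_aa_ss h (n5_st i.2 q.1)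
    have h4 : 0 < rho z := by rw [h1]; positivity
    have h5 := (st_TUBE.2.2.2.2.2.1 i.1 z (by
      rw [h1]; nlinarith [show ‖q.2‖ < 1 / 4 from hq, norm_nonneg q.2])).2 h4
    exact ⟨_, h5, (D.jh i _ h5 q hq).2 ⟨z, h4, rfl, h2, h3⟩⟩

theorem h_pc (i : CC × Bool) : IsPathConnected (D.j '' AA ∩ D.h i '' HD) := by
  have m : ∀ p : E4 × ℝ × ℝ, p.2.1 ∈ Ioo (0 : ℝ) (1 / 4) →
      (p.1, p.2.1 * Complex.exp (p.2.2 * Complex.I)) ∈ HD := fun p hp => by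
    simpa [HD, abs_of_pos hp.1] using hp.2
  have h := (((convex_univ (𝕜 := ℝ) (E := E4)).prod ((convex_Ioo (0 : ℝ) (1 / 4)).prod
    (convex_univ (𝕜 := ℝ) (E := ℝ)))).isPathConnected ⟨(0, 1 / 8, 0), by simp; norm_num⟩).image'
    (f := fun p => D.h i (p.1, p.2.1 * Complex.exp (p.2.2 * Complex.I)))
    ((D.h_om i).cont.comp (by fun_prop) fun p hp => m p hp.2.1)
  convert h using 1
  ext w
  constructor
  · rintro ⟨h1, q, hq, rfl⟩
    exact ⟨(q.1, ‖q.2‖, q.2.arg), ⟨trivial, ⟨norm_pos_iff.2 ((h_mem D i hq).1 h1), hq⟩, trivial⟩,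
      by simp only [Complex.norm_mul_exp_arg_mul_I]⟩
  · rintro ⟨p, hp, rfl⟩
    exact ⟨(h_mem D i (m p hp.2.1)).2 (mul_ne_zero (Complex.ofReal_ne_zero.2 hp.2.1.1.ne')
      (Complex.exp_ne_zero _)), _, m p hp.2.1, rfl⟩

theorem j_pc {C : Set ℂ} (hC : Convex ℝ C) (h0 : 0 ∉ C) {ζ : ℂ} (h1 : ζ ∈ C) (h2 : ‖ζ‖ < RR) :
    IsPathConnected (D.j '' PC C) :=
  (PC_pc hC h1 h2).image' (D.j_om.cont.mono (PC_sub h0))

variable {D} {G : Type} [Group G] {ho : Hol D.W G}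

theorem triv_PC {C : Set ℂ} (hC : Convex ℝ C) (h0 : 0 ∉ C) {ζ : ℂ} (h1 : ζ ∈ C) (h2 : ‖ζ‖ < RR)
    (h : ho.Triv (fun m => D.j (m, ζ)) univ) : ho.Triv D.j (PC C) := by
  have := st_HTP.1 D.W G (MM × ℂ) ho (fun s P => D.j (P.1, P.2 + s • (ζ - P.2))) (PC C)
    (D.j_om.cont.comp (by fun_prop) fun p hp => PC_sub h0 (PC_seg hC h1 h2 hp.2 hp.1))
    fun q q' _ a b => h ⟨fun t => (q t).1, by fun_prop⟩ q' (fun _ => trivial)
      (fun t => by simpa using a t) (congrArg Prod.fst b)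
  simpa using this

theorem triv_base : ho.Triv (fun m => D.j (m, 1 / 8)) univ := by
  have m : ∀ x : MM, (x, (1 / 8 : ℂ)) ∈ AA := fun x =>
    PC_sub (HP_zero 1 0) ⟨by simp [RR]; norm_num, .inr (by simp [HP])⟩
  have := st_MN G (ho.comap ⟨fun x => D.j (x, 1 / 8),
    D.j_om.cont.comp_continuous (by fun_prop) m⟩) fun k q hq => by
    obtain ⟨c, r, hr⟩ := st_TUBE.2.2.1 k
    have e1 : ∀ θ : ℝ, rho (![0, 0, θ, 0], 1 / 8) = (1 / 8) ^ 2 := fun θ => by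
      rw [rho_eq]
      simp [tt]
    have e2 : ∀ θ : ℝ, √(rho (![0, 0, θ, 0], 1 / 8)) = 1 / 8 := fun θ => by
      rw [e1, sqrt_sq (by norm_num)]
    have hd : ∀ t : II, (![0, 0, 1, 0], ((1 / 8 : ℝ) : ℂ) *
        Complex.exp ((2 * π / 3 * (3 * t + r) : ℝ) * Complex.I)) ∈ HD := fun t => by
      rw [HD, mem_ofPred_eq, norm_mul, Complex.norm_exp_ofReal_mul_I]
      simp
      norm_num
    refine st_HTP.2.1 D.W G E6 ho (D.h (c, true)) HD convex_HD (D.h_om _).cont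
      ⟨fun t => (![0, 0, 1, 0], ((1 / 8 : ℝ) : ℂ) *
        Complex.exp ((2 * π / 3 * (3 * t + r) : ℝ) * Complex.I)), by fun_prop⟩ _ hd
      (fun t => (D.jh _ _ (m _) _ (hd t)).2 ⟨(![0, 0, 3 * t + r, 0], 1 / 8), by rw [e1]; norm_num,
        Prod.ext ((hr _).symm.trans (hq t).symm) rfl, by rw [aa, e2]; rfl, ?_⟩) ?_
    · rw [ss, e2]
      refine Prod.ext ?_ (E4_ext ?_ ?_ ?_ ?_) <;> simp [vv, st, nq]
      norm_num
    · refine Prod.ext rfl (congrArg (((1 / 8 : ℝ) : ℂ) * ·)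
        (Complex.exp_eq_exp_iff_exists_int.2 ⟨-1, ?_⟩))
      simp
      ring
  exact fun q q' a b c => (congrArg ho.hol (ContinuousMap.ext b)).trans
    (this q q a (fun _ => rfl) c)

theorem triv_AA : ho.Triv id (D.j '' AA) := by
  obtain ⟨m, hm⟩ := ex_off
  have t0 : ho.Triv D.j (PC (HP 1 0)) := triv_PC (HP_convex _ _) (HP_zero _ _) (by simp [HP])
    (by simp [RR]; norm_num) triv_base
  have t1 : ∀ e, ho.Triv D.j (PC (HP (-1) (sg e))) := fun e => by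
    obtain ⟨ζ, h1, h2⟩ := zeta e
    exact triv_PC (HP_convex _ _) (HP_zero _ _) h1.2 h2 fun q q' _ a b =>
      t0 ⟨fun t => (q t, ζ), by fun_prop⟩ q' (fun _ => ⟨h2, .inr h1.1⟩) a (by simp [b])
  have o : ∀ a b, OMap D.j (PC (HP a b)) := fun a b =>
    D.j_om.mono (PC_open (HP_open _ _)) (PC_sub (HP_zero _ _))
  have i : ∀ a b a' b', D.j '' PC (HP a b) ∩ D.j '' PC (HP a' b') =
      D.j '' PC (HP a b ∩ HP a' b') := fun a b a' b' => by
    rw [← PC_inter, D.j_inj.image_inter (PC_sub (HP_zero _ _)) (PC_sub (HP_zero _ _))]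
  have t : ∀ a b, ho.Triv D.j (PC (HP a b)) → ho.Triv id (D.j '' PC (HP a b)) := fun a b =>
    (st_HTP.2.2.1 _ G _ ho _ _ (o a b) (D.j_inj.mono (PC_sub (HP_zero _ _)))).1
  refine H41.triv_mono (st_HCOV D.W G Bool ho _ (fun e => D.j '' PC (HP (-1) (sg e)))
    ((o _ _).omap _ Subset.rfl (o _ _).opn) (fun e => (o _ _).omap _ Subset.rfl (o _ _).opn)
    (t _ _ t0) (fun e => t _ _ (t1 e)) (fun e => ?_) fun e e' z hz => ?_) ?_
  · obtain ⟨ζ, h1, h2⟩ := zeta e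
    rw [i]
    exact j_pc D ((HP_convex _ _).inter (HP_convex _ _)) (fun h => HP_zero _ _ h.1) h1 h2
  · rw [i] at hz ⊢
    exact ⟨_, mem_image_of_mem _ (hm _), (j_pc D ((HP_convex _ _).inter (HP_convex _ _))
      (fun h => HP_zero _ _ h.1) (ζ := -1) (by simp [HP]) (by simp [RR])).joinedIn _ hz _
        (mem_image_of_mem _ (hm _))⟩
  · rintro _ ⟨P, hP, rfl⟩
    rcases AA_cov hP with h | ⟨e, h⟩
    exacts [.inl (mem_image_of_mem _ h), .inr (mem_iUnion.2 ⟨e, mem_image_of_mem _ h⟩)]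

end S41

open S41 in
theorem st_WSC : St_WSC := by
  intro D
  have hp : ∀ i, IsPathConnected (D.h i '' HD) := fun i =>
    (convex_HD.isPathConnected ⟨_, mem_HD 0⟩).image' (D.h_om i).cont
  refine ⟨?_, fun G _ ho => ?_⟩
  · obtain ⟨m, hm⟩ := ex_off
    have a : ∀ w ∈ D.j '' AA, Joined (D.j (m, 0)) w := by
      rintro _ ⟨P, hP, rfl⟩
      rcases AA_cov hP with h | ⟨e, h⟩
      · exact ((j_pc D (HP_convex _ _) (HP_zero _ _) (ζ := 1) (by simp [HP])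
          (by simp [RR])).joinedIn _ (mem_image_of_mem _ (hm _)) _ (mem_image_of_mem _ h)).joined
      · exact ((j_pc D (HP_convex _ _) (HP_zero _ _) (ζ := -1) (by simp [HP])
          (by simp [RR])).joinedIn _ (mem_image_of_mem _ (hm _)) _ (mem_image_of_mem _ h)).joined
    have b : ∀ w, Joined (D.j (m, 0)) w := fun w => by
      rcases D.cov w with h | ⟨i, h⟩
      · exact a w h
      · exact (a _ ((h_mem D i (mem_HD 0)).2 (by norm_num))).trans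
          ((hp i).joinedIn _ (mem_image_of_mem _ (mem_HD 0)) _ h).joined
    exact ⟨⟨D.j (m, 0)⟩, fun x y => (b x).symm.trans (b y)⟩
  · refine H41.triv_mono (st_HCOV D.W G _ ho _ (fun i => D.h i '' HD)
      (D.j_om.omap _ Subset.rfl D.j_om.opn)
      (fun i => (D.h_om i).omap _ Subset.rfl (D.h_om i).opn) triv_AA
      (fun i => (st_HTP.2.2.1 _ G _ ho _ _ (D.h_om i) (h_inj D i)).1
        (st_HTP.2.1 _ G _ ho _ _ convex_HD (D.h_om i).cont)) (h_pc D) ?_) fun w _ => ?_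
    · rintro i i' _ ⟨⟨q, hq, rfl⟩, q', hq', e⟩
      obtain ⟨e1, e2, e3⟩ := (D.h_eq _ _ _ hq' _ hq).1 e
      have s : ∀ q ∈ HD, ∀ s : II, q + (s : ℝ) • ((q.1, 1 / 8) - q) ∈ HD := fun q hq s =>
        convex_HD.add_smul_sub_mem hq (mem_HD _) s.2
      refine ⟨_, (h_mem D i (mem_HD q.1)).2 (by norm_num),
        ⟨⟨fun t => D.h i (q + (t : ℝ) • ((q.1, 1 / 8) - q)),
          (D.h_om i).cont.comp_continuous (by fun_prop) (s q hq)⟩, by simp, by simp⟩,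
        fun t => ⟨⟨_, s q hq t, rfl⟩, _, s q' hq' t,
          (D.h_eq _ _ _ (s q' hq' t) _ (s q hq t)).2 ⟨e1, by simp [e2], by simp [e3]⟩⟩⟩
    · rcases D.cov w with h | ⟨i, h⟩
      exacts [.inl h, .inr (mem_iUnion.2 ⟨i, h⟩)]

end Pool.Agent.Lib.V10
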