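import Pool.Agent.Lib.V10.B_XEX
import Pool.Agent.Lib.V10.B_WATL

set_option autoImplicit false

namespace Pool.Agent.Lib.V10

open Filter Topology Set
open scoped ContDiff
open Pool.Agent.Lib.MP_3eff7f_gt_h14

namespace X14

theorem main_of {D : WD} {α : D.atl.A} {q : E6} (hq : q ∈ D.atl.U α) {m : MM} {ζ : ℂ}
    (h1 : 1 < ‖ζ‖) (h2 : ‖ζ‖ < RR) (e : D.atl.Φ α q = D.j (m, ζ)) :
    ∃ k, α = .inl k ∧ q.1 ∈ UU ∧ Phi k q.1 = m ∧ q.2 = ζ := by
  rcases α with k | i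
  · have := D.j_inj hq.2 (mem_AA' h1 h2) e
    exact ⟨k, rfl, hq.1, (Prod.ext_iff.1 this).1, (Prod.ext_iff.1 this).2⟩
  · have a := D.p_h i q hq
    have b : ‖q.2‖ < 1 / 4 := hq
    rw [show D.h i q = _ from e, D.p_j _ (mem_AA' h1 h2)] at a
    linarith

theorem germ_X (hM : St_WMET) (hO : St_WOUT) {D : WD} (Y : XD D) (a b : Y.atl.A) {x x' : E10}
    (hx : x ∈ Y.atl.U a) (hx' : x' ∈ Y.atl.U b) (e : Y.atl.Φ a x = Y.atl.Φ b x') :
    ∃ φ : E10 → E10, φ x = x' ∧ ContDiffAt ℝ ∞ φ x ∧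
      (∀ᶠ y in 𝓝 x, Y.atl.Φ b (φ y) = Y.atl.Φ a y) ∧
      ∀ (η : ℂ → ℝ) (ε : ℝ) (β : BF ℂ), Adm η ε β → ∀ v w,
        BX η ε β b x' (fderiv ℝ φ x v) (fderiv ℝ φ x w) = BX η ε β a x v w := by
  obtain ⟨s, α, k⟩ := a
  obtain ⟨s', α', k'⟩ := b
  by_cases hs : s' = s
  · subst hs
    obtain ⟨e1, e2⟩ := Prod.ext_iff.1 ((Y.i_emb s').injective e)
    obtain ⟨ψ, p1, p2, p3⟩ := (st_WATL D).tr α α' _ hx.1 _ hx'.1 e1
    obtain ⟨F, F1, F2, F3, F4⟩ := germ_M hx.2 hx'.2 e2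
    refine ⟨fun y => (ψ y.1, F y.2), Prod.ext p1 F1, (p2.comp x contDiffAt_fst).prodMk
      (F2.comp x contDiffAt_snd), ?_, fun η ε β h v w => ?_⟩
    · filter_upwards [continuousAt_fst.eventually p3, continuousAt_snd.eventually F3] with y a b
      exact congrArg (Y.i s') (Prod.ext a b)
    · have := (((p2.differentiableAt (by simp)).hasFDerivAt.comp x hasFDerivAt_fst).prodMk
        ((F2.differentiableAt (by simp)).hasFDerivAt.comp x hasFDerivAt_snd)).fderiv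
      rw [show fderiv ℝ (fun y : E10 => (ψ y.1, F y.2)) x = _ from this, BX, BX, osum_apply,
        osum_apply, ← F4 _ h.pos h.le,
        ← (hM D η β h.a1).compat α α' _ hx.1 ψ p2 (p1 ▸ hx'.1) p3, ← p1, ← F1]
      rfl
  · obtain rfl : s' = !s := Bool.eq_not.2 hs
    obtain ⟨m, m', ζ, h1, h2, e1, e2⟩ := (Y.i_eq s _ _).1 e
    obtain ⟨h3, h4⟩ := inv_mem h1 h2
    obtain ⟨l, rfl, u, a1, a2⟩ := main_of hx.1 h1 h2 (Prod.ext_iff.1 e1).1
    obtain ⟨l', rfl, u', a3, a4⟩ := main_of hx'.1 h3 h4 (Prod.ext_iff.1 e2).1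
    obtain ⟨F, F1, F2, F3, F4⟩ := germ_M u hx'.2 (a1.trans (Prod.ext_iff.1 e2).2.symm)
    obtain ⟨H, H1, H2, H3, H4⟩ := germ_M hx.2 u' ((Prod.ext_iff.1 e1).2.trans a3.symm)
    subst a2
    have z : x.1.2 ≠ 0 := norm_pos_iff.1 (one_pos.trans h1)
    have c : Continuous fun y : E10 => ‖y.1.2‖ := by fun_prop
    have ci : ContDiffAt ℝ ∞ (fun y : E10 => (RR : ℂ) / y.1.2) x := by
      simp only [div_eq_mul_inv]
      exact contDiffAt_const.mul (ContDiffAt.comp (g := fun ζ : ℂ => ζ⁻¹) x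
        ((contDiffAt_inv ℂ z).restrict_scalars ℝ) contDiffAt_fst.snd)
    refine ⟨fun y => ((H y.2, RR / y.1.2), F y.1.1), Prod.ext (Prod.ext H1 a4.symm) F1,
      ((H2.comp x contDiffAt_snd).prodMk ci).prodMk
        (ContDiffAt.comp (g := F) x F2 contDiffAt_fst.fst), ?_, fun η ε β h v w => ?_⟩
    · filter_upwards [continuousAt_fst.fst.eventually F3, continuousAt_snd.eventually H3,
        c.continuousAt.eventually (lt_mem_nhds h1), c.continuousAt.eventually (gt_mem_nhds h2)]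
        with y b1 b2 b3 b4
      exact ((Y.i_eq s _ _).2 ⟨_, _, _, b3, b4, rfl,
        Prod.ext (congrArg (fun m => D.j (m, RR / y.1.2)) b2) b1⟩).symm
    · have d0 : HasDerivAt (fun ζ : ℂ => (RR : ℂ) / ζ) (-(RR / x.1.2 ^ 2)) x.1.2 := by
        simpa [div_eq_mul_inv] using (hasDerivAt_inv z).const_mul (RR : ℂ)
      have d1 : HasFDerivAt (fun y : E10 => y.1) _ x := hasFDerivAt_fst (𝕜 := ℝ)
      have := ((((H2.differentiableAt (by simp)).hasFDerivAt.comp x hasFDerivAt_snd).prodMk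
        ((d0.hasFDerivAt.restrictScalars ℝ).comp x d1.snd)).prodMk
        (HasFDerivAt.comp (g := F) x (F2.differentiableAt (by simp)).hasFDerivAt d1.fst)).fderiv
      rw [show fderiv ℝ (fun y : E10 => ((H y.2, (RR : ℂ) / y.1.2), F y.1.1)) x = _ from this,
        BX, BX, osum_apply, osum_apply, hO _ _ _ _ u (by linarith),
        hO _ _ _ _ u' (by rw [a4]; linarith), G6, G6, osum_apply, osum_apply, a4, h.thin _ h1,
        h.thin _ h3, ← F4 _ h.pos h.le, ← H4 _ h.pos h.le, ← h.inv _ h1 h2, F1, H1]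
      simp [mul_comm]
      ring

end X14

theorem st_XATL (hM : St_WMET) (hO : St_WOUT) : St_XATL := by
  intro D Y
  have W := st_WATL D
  have ok : Y.atl.Ok := by
    refine ⟨fun a => ?_, fun a x hx => ?_, fun p => ?_, fun a b x hx x' hx' e => ?_⟩
    · exact ((OMap.of_open (Y.i_emb a.1).continuous (Y.i_emb a.1).isOpenMap).comp
        ((W.om a.2.1).prod (omap_Phi a.2.2))).mono ((W.om a.2.1).opn.prod isOpen_UU)
        fun _ h => ⟨h, trivial⟩
    · obtain ⟨V, hV, hi⟩ := W.linj _ _ hx.1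
      refine ⟨_, prod_mem_nhds hV ((isOpen_NN x.2).mem_nhds (mem_NN hx.2)), fun y hy y' hy' e => ?_⟩
      obtain ⟨e1, e2⟩ := Prod.ext_iff.1 ((Y.i_emb _).injective e)
      exact Prod.ext (hi hy.1 hy'.1 e1) (injOn_Phi _ _ hy.2 hy'.2 e2)
    · obtain ⟨s, y, rfl⟩ := Y.cov p
      obtain ⟨α, q, hq, e1⟩ := W.cov y.1
      obtain ⟨⟨k, x⟩, hx, e2⟩ := exists_Phi y.2
      exact ⟨(s, α, k), (q, x), ⟨hq, hx⟩, congrArg (Y.i s) (Prod.ext e1 e2)⟩
    · obtain ⟨φ, h1, h2, h3, -⟩ := X14.germ_X hM hO Y a b hx hx' e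
      exact ⟨φ, h1, h2, h3⟩
  refine ⟨ok, fun η ε β h => Met.of_ex ok (fun a x hx v w => ?_) (fun a x hx v w => ?_)
    (fun a x hx v hv => ?_) fun a b x hx x' hx' e => ?_⟩
  · simp only [BX, osum_apply, bil_eq_sum]
    exact (((hM D η β h.a1).sm _ _ hx.1 _ _).comp x contDiffAt_fst).add
      (ContDiffAt.sum fun i _ => ContDiffAt.sum fun j _ =>
        (((GG_sm h.pos h.le i j).contDiffAt.comp x contDiffAt_snd).mul contDiffAt_const).mul
          contDiffAt_const)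
  · rw [BX, osum_apply, osum_apply, (hM D η β h.a1).symm _ _ hx.1, bil_symm (GG_pos h.pos h.le _)]
  · rw [BX, osum_apply, bil_apply]
    have p := (hM D η β h.a1).pos _ _ hx.1 v.1
    have g := GG_pos h.pos h.le x.2
    by_cases h1 : v.1 = 0
    · simpa [h1] using g.dotProduct_mulVec_pos (x := v.2) fun h2 => hv (Prod.ext h1 h2)
    · exact add_pos_of_pos_of_nonneg (p h1) (g.posSemidef.dotProduct_mulVec_nonneg v.2)
  · obtain ⟨φ, h1, h2, h3, h4⟩ := X14.germ_X hM hO Y a b hx hx' e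
    exact ⟨φ, h1, h2.continuousAt, h3, h4 η ε β h⟩

end Pool.Agent.Lib.V10
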