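import Pool.Agent.Lib.V10.B_WEX
import Pool.Agent.Lib.V10.B_HOL

set_option autoImplicit false

namespace Pool.Agent.Lib.V10

open Filter Topology Set
open Pool.Agent.Lib.MP_3eff7f_gt_h14

namespace X14

theorem mem_AA {P : MM × ℂ} (h0 : P.2 ≠ 0) (h : ‖P.2‖ < RR) : P ∈ AA := by
  refine ⟨h, ?_⟩
  rintro ⟨c, q, h1, rfl⟩
  exact h0 (by simpa [PP] using le_antisymm ((norm_le_rho q).trans h1) (sq_nonneg _))

theorem mem_AA' {m : MM} {ζ : ℂ} (h0 : 1 < ‖ζ‖) (h : ‖ζ‖ < RR) : (m, ζ) ∈ AA :=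
  mem_AA (norm_pos_iff.1 (one_pos.trans h0)) h

theorem norm_RR (ζ : ℂ) : ‖(RR : ℂ) / ζ‖ = 2 / ‖ζ‖ := by simp [RR]

theorem inv_mem {ζ : ℂ} (h0 : 1 < ‖ζ‖) (h : ‖ζ‖ < RR) :
    1 < ‖(RR : ℂ) / ζ‖ ∧ ‖(RR : ℂ) / ζ‖ < RR := by
  have := one_pos.trans h0
  rw [norm_RR, lt_div_iff₀ this, div_lt_iff₀ this]
  unfold RR at *
  constructor <;> linarith

theorem RR_RR (ζ : ℂ) : (RR : ℂ) / (RR / ζ) = ζ := div_div_cancel₀ (by simp [RR])

theorem of_p (D : WD) {w : D.W} (h : 1 / 4 ≤ ‖D.p w‖) :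
    ∃ m, (m, D.p w) ∈ AA ∧ D.j (m, D.p w) = w := by
  rcases D.cov w with ⟨P, hP, rfl⟩ | ⟨i, q, hq, rfl⟩
  · rw [D.p_j P hP]
    exact ⟨P.1, hP, rfl⟩
  · exact absurd (h.trans (D.p_h i q hq)) (not_le.2 hq)

/-- The seam. -/
def ZS : Set ((MM × ℂ) × MM) := {z | 1 < ‖z.1.2‖ ∧ ‖z.1.2‖ < RR}

theorem isOpen_ZS : IsOpen ZS :=
  have c : Continuous fun z : (MM × ℂ) × MM => ‖z.1.2‖ := by fun_prop
  (isOpen_lt continuous_const c).inter (isOpen_lt c continuous_const)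

/-- The swap. -/
noncomputable def sw (z : ZS) : ZS := ⟨((z.1.2, RR / z.1.1.2), z.1.1.1), inv_mem z.2.1 z.2.2⟩

theorem sw_sw (z : ZS) : sw (sw z) = z :=
  Subtype.ext (Prod.ext (Prod.ext rfl (RR_RR _)) rfl)

theorem continuous_sw : Continuous sw :=
  Continuous.subtype_mk (Continuous.prodMk (Continuous.prodMk (by fun_prop)
    (continuous_const.div (by fun_prop) fun z => norm_pos_iff.1 (one_pos.trans z.2.1)))
    (by fun_prop)) _

instance : PathConnectedSpace MM :=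
  haveI := ChartedSpace.locPathConnectedSpace E4 MM
  PathConnectedSpace.of_locPathConnectedSpace

end X14

open X14

theorem st_XEX : St_XEX := by
  intro D
  have om : OMap (fun z : (MM × ℂ) × MM => (D.j z.1, z.2)) ZS :=
    (D.j_om.prod (OMap.of_open (continuous_id (X := MM)) IsOpenMap.id)).mono isOpen_ZS
      fun z hz => ⟨mem_AA' hz.1 hz.2, trivial⟩
  let f : ZS → D.W × MM := fun z => (D.j z.1.1, z.1.2)
  have cf : Continuous f := continuousOn_iff_continuous_domRestrict.1 om.cont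
  have of : IsOpenMap f := fun V hV => by
    have := om.omap _ (Subtype.coe_image_subset ZS V) (isOpen_ZS.isOpenMap_subtype_val V hV)
    rwa [image_image] at this
  have inj : Function.Injective f := fun z z' e => Subtype.ext (Prod.ext
    (D.j_inj (mem_AA' z.2.1 z.2.2) (mem_AA' z'.2.1 z'.2.2) (congrArg Prod.fst e))
    (Prod.ext_iff.1 e).2)
  let τ : ZS ≃ₜ ZS := ⟨⟨sw, sw, sw_sw, sw_sw⟩, continuous_sw, continuous_sw⟩
  have pf : ∀ z, D.p (f z).1 = z.1.1.2 := fun z => D.p_j _ (mem_AA' z.2.1 z.2.2)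
  have out : ∀ a ∉ range f, {y : D.W × MM | ‖D.p y.1‖ < 6 / 5} ∈ 𝓝 a := fun a ha => by
    refine (isOpen_lt (D.p_cont.comp continuous_fst).norm continuous_const).mem_nhds ?_
    by_contra h
    have h1 : 6 / 5 ≤ ‖D.p a.1‖ := not_lt.1 h
    obtain ⟨m, h2, h3⟩ := of_p D (w := a.1) (by linarith)
    exact ha ⟨⟨((m, D.p a.1), a.2), by change 1 < ‖D.p a.1‖; linarith, h2.1⟩, Prod.ext h3 rfl⟩
  obtain ⟨P, _, iA, iB, t2, eA, eB, e, cov⟩ := st_GLUE ZS _ _ f (f ∘ τ) cf of (cf.comp τ.continuous)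
    (of.comp τ.isOpenMap) (fun z z' => by rw [inj.eq_iff, (inj.comp τ.injective).eq_iff])
    fun a ha b hb => ⟨_, out a ha, _, out b (by rwa [τ.surjective.range_comp] at hb),
      fun z h1 h2 => by
        have a1 : ‖D.p (f z).1‖ < 6 / 5 := h1
        have a2 : ‖D.p (f (sw z)).1‖ < 6 / 5 := h2
        rw [pf] at a1 a2
        have a3 : ‖(RR : ℂ) / z.1.1.2‖ < 6 / 5 := a2
        rw [norm_RR, div_lt_iff₀ (one_pos.trans z.2.1)] at a3
        linarith⟩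
  refine ⟨{ X := P, i := fun s => bif s then iA else iB, i_emb := ?_, i_eq := ?_, cov := ?_ }⟩
  · rintro (_ | _)
    exacts [eB, eA]
  · rintro (_ | _) y y'
    · refine eq_comm.trans ((e y' y).trans ⟨?_, ?_⟩)
      · rintro ⟨z, rfl, rfl⟩
        exact ⟨_, _, _, (sw z).2.1, (sw z).2.2, rfl, congrArg f (sw_sw z).symm⟩
      · rintro ⟨m, m', ζ, h1, h2, rfl, rfl⟩
        exact ⟨sw ⟨((m, ζ), m'), h1, h2⟩, rfl, congrArg f (sw_sw _)⟩
    · refine (e y y').trans ⟨?_, ?_⟩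
      · rintro ⟨z, rfl, rfl⟩
        exact ⟨_, _, _, z.2.1, z.2.2, rfl, rfl⟩
      · rintro ⟨m, m', ζ, h1, h2, rfl, rfl⟩
        exact ⟨⟨((m, ζ), m'), h1, h2⟩, rfl, rfl⟩
  · intro x
    rcases cov x with ⟨a, h⟩ | ⟨a, h⟩
    exacts [⟨true, a, h⟩, ⟨false, a, h⟩]

theorem st_XCOV : St_XCOV := by
  intro D Y x
  obtain ⟨s, y, rfl⟩ := Y.cov x
  by_cases h : ‖D.p y.1‖ ≤ 3 / 2
  · exact ⟨s, y, h, rfl⟩
  · have h1 := not_le.1 h
    obtain ⟨m, h2, h3⟩ := of_p D (w := y.1) (by linarith)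
    have h4 : 1 < ‖D.p y.1‖ := by linarith
    have h5 := inv_mem h4 h2.1
    refine ⟨!s, (D.j (y.2, RR / D.p y.1), m), ?_,
      ((Y.i_eq s _ _).2 ⟨m, y.2, _, h4, h2.1, Prod.ext h3.symm rfl, rfl⟩).symm⟩
    rw [D.p_j _ (mem_AA' h5.1 h5.2), norm_RR, div_le_iff₀ (by linarith)]
    linarith

theorem st_XTOP (hC : St_WCPT) (hS : St_WSC) : St_XTOP := by
  intro D Y
  obtain ⟨pc, fl⟩ := hS D
  have ci := fun s => (Y.i_emb s).continuous
  constructor
  · obtain ⟨K, h1, -, h3⟩ := hC D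
    have co : ∀ a, ContinuousOn (D.atl.Φ a) (D.atl.U a) := by
      rintro (k | i)
      · exact D.j_om.cont.comp ((st_TUBE.2.2.2.1 k).cont.mono fun _ h => h.1) fun _ h => h.2
      · exact (D.h_om i).cont
    have h4 : IsCompact (⋃ a : KK ⊕ CC × Bool, D.atl.Φ a '' K a) := isCompact_iUnion fun a =>
      (h1 a).1.image_of_continuousOn ((co a).mono (h1 a).2)
    refine ⟨(isCompact_iUnion fun s => (h4.prod isCompact_univ).image (ci s)).of_isClosed_subset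
      isClosed_univ fun x _ => ?_⟩
    obtain ⟨s, y, h5, rfl⟩ := st_XCOV D Y x
    obtain ⟨a, h6⟩ := h3 _ h5
    exact mem_iUnion.2 ⟨s, y, ⟨mem_iUnion.2 ⟨a, h6⟩, trivial⟩, rfl⟩
  have pr : ∀ s, IsPathConnected (range (Y.i s)) := fun s => isPathConnected_range (ci s)
  have nr : ∀ r φ : ℝ, 1 < r → ‖(r : ℂ) * Complex.exp (φ * Complex.I)‖ = r := fun r φ h => by
    rw [norm_mul, Complex.norm_exp_ofReal_mul_I, mul_one, Complex.norm_real,
      Real.norm_of_nonneg (by linarith)]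
  have pi : IsPathConnected (range (Y.i true) ∩ range (Y.i false)) := by
    have a : IsPathConnected ((univ : Set (MM × MM)) ×ˢ (Ioo (1 : ℝ) 2 ×ˢ (univ : Set ℝ))) :=
      isPathConnected_univ.prod (((convex_Ioo 1 2).prod convex_univ).isPathConnected
        ⟨(3 / 2, 0), by norm_num, trivial⟩)
    have b := a.image' (f := fun z : (MM × MM) × ℝ × ℝ =>
      Y.i true (D.j (z.1.1, z.2.1 * Complex.exp (z.2.2 * Complex.I)), z.1.2))
      ((ci true).comp_continuousOn ((D.j_om.cont.comp (Continuous.continuousOn (by fun_prop))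
        fun z hz => mem_AA' ((nr _ _ hz.2.1.1).symm ▸ hz.2.1.1)
          ((nr _ _ hz.2.1.1).symm ▸ hz.2.1.2)).prodMk (by fun_prop)))
    convert b using 1
    ext x
    constructor
    · rintro ⟨⟨y, rfl⟩, y', e⟩
      obtain ⟨m, m', ζ, h1, h2, rfl, -⟩ := (Y.i_eq true y y').1 e.symm
      exact ⟨((m, m'), ‖ζ‖, ζ.arg), ⟨trivial, ⟨h1, h2⟩, trivial⟩, by
        simp only [Complex.norm_mul_exp_arg_mul_I]⟩
    · rintro ⟨z, hz, rfl⟩
      exact ⟨⟨_, rfl⟩, _, ((Y.i_eq true _ _).2 ⟨_, _, _, (nr _ _ hz.2.1.1).symm ▸ hz.2.1.1,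
        (nr _ _ hz.2.1.1).symm ▸ hz.2.1.2, rfl, rfl⟩).symm⟩
  have un : range (Y.i true) ∪ range (Y.i false) = univ := eq_univ_of_forall fun x => by
    obtain ⟨_ | _, y, h⟩ := Y.cov x
    exacts [Or.inr ⟨y, h⟩, Or.inl ⟨y, h⟩]
  have : PathConnectedSpace Y.X :=
    pathConnectedSpace_iff_univ.2 (un ▸ (pr true).union (pr false) pi.nonempty)
  refine st_HOL Y.X fun G _ ho => ?_
  obtain ⟨m₀⟩ : Nonempty MM := inferInstance
  have sl : ∀ (s : Bool) (q : C(II, D.W)) (q' : C(II, Y.X)), (∀ t, q' t = Y.i s (q t, m₀)) →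
      q 0 = q 1 → ho.hol q' = 1 := fun s q q' h1 h2 => by
    rw [← fl G (ho.comap ⟨fun w => Y.i s (w, m₀), by have := ci s; fun_prop⟩) q q
      (fun _ => trivial) (fun _ => rfl) h2]
    exact congrArg ho.hol (ContinuousMap.ext h1)
  have n1 : 1 < ‖(3 / 2 : ℂ)‖ := by norm_num
  have n2 : ‖(3 / 2 : ℂ)‖ < RR := by norm_num [RR]
  have n3 := inv_mem n1 n2
  have tr : ∀ s, ho.Triv id (range (Y.i s)) := fun s => by
    rw [← image_univ]
    refine (st_HTP.2.2.1 _ _ _ ho _ _ (.of_open (ci s) (Y.i_emb s).isOpenMap)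
      (Y.i_emb s).injective.injOn).1 fun q q' _ h2 h3 => ?_
    rw [← st_HPROD _ _ G (ho.comap ⟨Y.i s, ci s⟩) (D.j (m₀, 3 / 2)) m₀
      (fun r r' _ a b => sl s r _ (fun t => congrArg (Y.i s) (a t)) b)
      (fun r r' _ a b => sl (!s) (H41.img (F := fun m => D.j (m, RR / (3 / 2))) (Ω := univ)
        (D.j_om.cont.comp (by fun_prop) fun _ _ => mem_AA' n3.1 n3.2) r fun _ => trivial) _
        (fun t => (congrArg (Y.i s) (a t)).trans
          ((Y.i_eq s _ _).2 ⟨m₀, r t, 3 / 2, n1, n2, rfl, rfl⟩))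
        (congrArg (fun m => D.j (m, RR / (3 / 2))) b)) q q (fun _ => trivial) (fun _ => rfl) h3]
    exact congrArg ho.hol (ContinuousMap.ext h2)
  have := st_HCOV Y.X G Unit ho (range (Y.i true)) (fun _ => range (Y.i false))
    (Y.i_emb _).isOpen_range (fun _ => (Y.i_emb _).isOpen_range) (tr _) (fun _ => tr _)
    (fun _ => pi) fun _ _ z hz => by
      obtain ⟨z', h1, h2⟩ := pi.nonempty
      exact ⟨z', h1, by simpa using (pr false).joinedIn z hz.1 z' h2⟩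
  rwa [iUnion_const, un] at this

end Pool.Agent.Lib.V10
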