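import Pool.Agent.Lib.MP_3eff7f_gt_h14.Final

set_option autoImplicit false

namespace Pool.Agent.Lib.V10

open Filter Topology Set MeasureTheory
open scoped ContDiff Manifold MatrixGroups
open Pool.Agent.Lib.MP_3eff7f_gt_h14

/-! ### Etale atlases, metrics and geodesics -/

/-- Fields of bilinear forms. -/
abbrev BF (E : Type) [NormedAddCommGroup E] [NormedSpace ℝ E] : Type :=
  E → E →L[ℝ] E →L[ℝ] ℝ

/-- A family of parametrisations. -/
structure Atl (E X : Type) where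
  A : Type
  U : A → Set E
  Φ : A → E → X

section Generic

variable {E : Type} [NormedAddCommGroup E] [NormedSpace ℝ E] {X : Type}

/-- `F` is continuous and open on the open set `U`. -/
structure OMap {Z Y : Type} [TopologicalSpace Z] [TopologicalSpace Y] (F : Z → Y) (U : Set Z) :
    Prop where
  opn : IsOpen U
  cont : ContinuousOn F U
  omap : ∀ V, V ⊆ U → IsOpen V → IsOpen (F '' V)

/-- A smooth etale atlas. -/
structure Atl.Ok [TopologicalSpace X] (𝒜 : Atl E X) : Prop where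
  om : ∀ a, OMap (𝒜.Φ a) (𝒜.U a)
  linj : ∀ a, ∀ x ∈ 𝒜.U a, ∃ V ∈ 𝓝 x, InjOn (𝒜.Φ a) V
  cov : ∀ p, ∃ a, ∃ x ∈ 𝒜.U a, 𝒜.Φ a x = p
  tr : ∀ a b, ∀ x ∈ 𝒜.U a, ∀ x' ∈ 𝒜.U b, 𝒜.Φ a x = 𝒜.Φ b x' →
    ∃ φ : E → E, φ x = x' ∧ ContDiffAt ℝ ∞ φ x ∧ ∀ᶠ y in 𝓝 x, 𝒜.Φ b (φ y) = 𝒜.Φ a y

/-- A Riemannian metric in an etale atlas. -/
structure Met (𝒜 : Atl E X) (B : 𝒜.A → BF E) : Prop where
  sm : ∀ a, ∀ x ∈ 𝒜.U a, ∀ v w, ContDiffAt ℝ ∞ (fun y => B a y v w) x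
  symm : ∀ a, ∀ x ∈ 𝒜.U a, ∀ v w, B a x v w = B a x w v
  pos : ∀ a, ∀ x ∈ 𝒜.U a, ∀ v, v ≠ 0 → 0 < B a x v v
  compat : ∀ a b, ∀ x ∈ 𝒜.U a, ∀ φ : E → E, ContDiffAt ℝ ∞ φ x → φ x ∈ 𝒜.U b →
    (∀ᶠ y in 𝓝 x, 𝒜.Φ b (φ y) = 𝒜.Φ a y) →
    ∀ v w, B b (φ x) (fderiv ℝ φ x v) (fderiv ℝ φ x w) = B a x v w

/-- The Euler-Lagrange equation, tested on all vector fields along the curve. -/
def EL (B : BF E) (c : ℝ → E) (t : ℝ) : Prop :=
  ContDiffAt ℝ 2 c t ∧ ∀ (w : ℝ → E) (w' : E), HasDerivAt w w' t →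
    HasDerivAt (fun s => B (c s) (deriv c s) (w s))
      (1 / 2 * fderiv ℝ (fun y => B y (deriv c t) (deriv c t)) (c t) (w t) +
        B (c t) (deriv c t) w') t

/-- A geodesic of speed `En`, seen in all parametrisations. -/
def Geod [TopologicalSpace X] (𝒜 : Atl E X) (B : 𝒜.A → BF E) (γ : ℝ → X) (En : ℝ) : Prop :=
  Continuous γ ∧ ∀ t a, ∀ x ∈ 𝒜.U a, 𝒜.Φ a x = γ t → ∃ c : ℝ → E, c t = x ∧
    ∀ᶠ s in 𝓝 t, c s ∈ 𝒜.U a ∧ 𝒜.Φ a (c s) = γ s ∧ EL (B a) c s ∧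
      B a (c s) (deriv c s) (deriv c s) = En ^ 2

/-- The Gram determinant. -/
noncomputable def gd {ι : Type} [Fintype ι] [DecidableEq ι] (β : ι → E)
    (b : E →L[ℝ] E →L[ℝ] ℝ) : ℝ :=
  (Matrix.of fun i j => b (β i) (β j)).det

/-- The measure of a compact piece is at most the integral of the density. -/
def VolLe {ι : Type} [Fintype ι] [DecidableEq ι] [MeasurableSpace E] [MeasurableSpace X]
    (β : ι → E) (ν : Measure E) (𝒜 : Atl E X) (B : 𝒜.A → BF E) (μ : Measure X) : Prop :=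
  ∀ a S, IsCompact S → S ⊆ 𝒜.U a →
    μ (𝒜.Φ a '' S) ≤ ∫⁻ x in S, ENNReal.ofReal √(gd β (B a x)) ∂ν

/-- The orthogonal sum of two forms. -/
noncomputable def osum {F : Type} [NormedAddCommGroup F] [NormedSpace ℝ F]
    (b : E →L[ℝ] E →L[ℝ] ℝ) (b' : F →L[ℝ] F →L[ℝ] ℝ) : (E × F) →L[ℝ] (E × F) →L[ℝ] ℝ :=
  b.bilinearComp (.fst ℝ E F) (.fst ℝ E F) + b'.bilinearComp (.snd ℝ E F) (.snd ℝ E F)

theorem osum_apply {F : Type} [NormedAddCommGroup F] [NormedSpace ℝ F]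
    (b : E →L[ℝ] E →L[ℝ] ℝ) (b' : F →L[ℝ] F →L[ℝ] ℝ) (v w : E × F) :
    osum b b' v w = b v.1 w.1 + b' v.2 w.2 := rfl

/-- The pull-back of the Euclidean metric. -/
noncomputable def Gram {m : ℕ} (f : E → Fin m → ℝ) : BF E := fun x =>
  (bil 1).bilinearComp (fderiv ℝ f x) (fderiv ℝ f x)

theorem Gram_apply {m : ℕ} (f : E → Fin m → ℝ) (x v w : E) :
    Gram f x v w = fderiv ℝ f x v ⬝ᵥ fderiv ℝ f x w := by
  simp [Gram, bil_apply]

end Generic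

/-- Coefficients of a metric that depend on the chart. -/
structure MData2 {n : ℕ} (M : Type) [TopologicalSpace M] [ChartedSpace (Fin n → ℝ) M]
    (G : OpenPartialHomeomorph M (Fin n → ℝ) → MF n) : Prop where
  sm : ∀ e ∈ atlas (Fin n → ℝ) M, ∀ x ∈ e.target, ∀ i j, ContDiffAt ℝ ∞ (fun y => G e y i j) x
  pos : ∀ e ∈ atlas (Fin n → ℝ) M, ∀ x ∈ e.target, (G e x).PosDef
  compat : ∀ e ∈ atlas (Fin n → ℝ) M, ∀ e' ∈ atlas (Fin n → ℝ) M, ∀ x ∈ e.target,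
    e.symm x ∈ e'.source → ∀ v w, bil (G e' (e' (e.symm x)))
      (fderiv ℝ (fun y => e' (e.symm y)) x v) (fderiv ℝ (fun y => e' (e.symm y)) x w) =
      bil (G e x) v w

/-! ### Holonomy -/

abbrev II : Type := unitInterval

/-- A flat holonomy: a group element for each path. -/
structure Hol (Z G : Type) [TopologicalSpace Z] [Group G] where
  hol : C(II, Z) → G
  cst : ∀ z, hol (.const II z) = 1
  sq : ∀ (H : C(II × II, Z)) (a b c d : C(II, Z)), (∀ s, a s = H (s, 0)) → (∀ t, b t = H (1, t)) →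
    (∀ t, c t = H (0, t)) → (∀ s, d s = H (s, 1)) → hol a * hol b = hol c * hol d

section Hol

variable {Z G E : Type} [TopologicalSpace Z] [Group G] [TopologicalSpace E]

/-- The pull-back of a holonomy. -/
def Hol.comap (ho : Hol Z G) (f : C(E, Z)) : Hol E G where
  hol q := ho.hol (f.comp q)
  cst z := ho.cst (f z)
  sq H _ _ _ _ ha hb hc hd := ho.sq (f.comp H) _ _ _ _ (fun s => congrArg f (ha s))
    (fun s => congrArg f (hb s)) (fun s => congrArg f (hc s)) fun s => congrArg f (hd s)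

/-- The images under `F` of the loops in `Ω` have trivial holonomy. -/
def Hol.Triv (ho : Hol Z G) (F : E → Z) (Ω : Set E) : Prop :=
  ∀ (q : C(II, E)) (q' : C(II, Z)), (∀ t, q t ∈ Ω) → (∀ t, q' t = F (q t)) → q 0 = q 1 →
    ho.hol q' = 1

/-- `g` is a potential for the holonomy of the images under `F` of the paths in `Ω`. -/
def Hol.Pot (ho : Hol Z G) (F : E → Z) (Ω : Set E) (g : E → G) : Prop :=
  ∀ (q : C(II, E)) (q' : C(II, Z)), (∀ t, q t ∈ Ω) → (∀ t, q' t = F (q t)) →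
    ho.hol q' = (g (q 0))⁻¹ * g (q 1)

end Hol

/-- All flat holonomies are trivial on loops. -/
def Flat (Z : Type) [TopologicalSpace Z] : Prop :=
  ∀ (G : Type) [Group G] (ho : Hol Z G), ho.Triv id univ

/-! ### The tube around the core loops -/

abbrev E6 : Type := E4 × ℂ

abbrev V5 : Type := ℝ × E4

abbrev E10 : Type := E6 × E4

def RR : ℝ := 2

def nq (w : E4) : ℝ := w 0 ^ 2 + w 1 ^ 2 + w 2 ^ 2 + w 3 ^ 2

def n5 (v : V5) : ℝ := v.1 ^ 2 + nq v.2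

/-- The normal coordinate. -/
noncomputable def vv (q : E6) : V5 :=
  (q.1 3, ![q.1 0 * Real.cos (q.1 2 * q.1 3) - q.1 1 * Real.sin (q.1 2 * q.1 3),
    q.1 0 * Real.sin (q.1 2 * q.1 3) + q.1 1 * Real.cos (q.1 2 * q.1 3), q.2.re, q.2.im])

/-- The point with given angle and normal coordinate. -/
noncomputable def tb (θ : ℝ) (v : V5) : E6 :=
  (![v.2 0 * Real.cos (θ * v.1) + v.2 1 * Real.sin (θ * v.1),
    v.2 1 * Real.cos (θ * v.1) - v.2 0 * Real.sin (θ * v.1), θ, v.1], ⟨v.2 2, v.2 3⟩)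

noncomputable def rho (q : E6) : ℝ := n5 (vv q)

/-- The disc coordinate of the handle. -/
noncomputable def aa (q : E6) : ℂ :=
  (√(rho q) : ℝ) * Complex.exp ((2 * Real.pi / 3 * q.1 2 : ℝ) * Complex.I)

/-- The sphere coordinate of the handle. -/
noncomputable def ss (q : E6) : V5 := (√(rho q))⁻¹ • vv q

def sg (e : Bool) : ℝ := if e then 1 else -1

/-- Inverse stereographic projection. -/
noncomputable def st (e : Bool) (u : E4) : V5 :=
  (sg e * ((1 - nq u) / (1 + nq u)), (2 / (1 + nq u)) • u)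

/-- Stereographic projection. -/
noncomputable def sti (e : Bool) (s : V5) : E4 := (1 + sg e * s.1)⁻¹ • s.2

/-- Two sheets with the same cusp. -/
def cusp : Setoid KK where
  r k k' := ∃ σ : SL(2, ℤ), σ 1 0 = 0 ∧ k' = σ • k
  iseqv :=
    { refl := fun k => ⟨1, by simp, (one_smul _ _).symm⟩
      symm := fun ⟨σ, h1, h2⟩ => ⟨σ⁻¹, by
        simpa [Matrix.SpecialLinearGroup.SL2_inv_expl] using h1, by rw [h2, inv_smul_smul]⟩
      trans := fun ⟨σ, h1, h2⟩ ⟨σ', h3, h4⟩ => ⟨σ' * σ, by simp [mul_SL, h1, h3],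
        by rw [h4, h2, mul_smul]⟩ }

/-- The cusps. -/
def CC : Type := Quotient cusp

instance : Finite CC := inferInstanceAs (Finite (Quotient cusp))

/-- One sheet for each cusp. -/
noncomputable def rep (c : CC) : KK := Quotient.out (s := cusp) c

noncomputable def PP (k : KK) (q : E6) : MM × ℂ := (Phi k q.1, q.2)

/-- The closed tube. -/
def Tube (δ : ℝ) : Set (MM × ℂ) := {p | ∃ c q, rho q ≤ δ ∧ PP (rep c) q = p}

/-- The complement of the core loops. -/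
def AA : Set (MM × ℂ) := {p | ‖p.2‖ < RR ∧ p ∉ Tube 0}

/-- The domain of the handle charts. -/
def HD : Set E6 := {q | ‖q.2‖ < 1 / 4}

/-- The product of `MM` with a disc, after surgery on the core loops. -/
structure WD where
  W : Type
  [top : TopologicalSpace W]
  [t2 : T2Space W]
  j : MM × ℂ → W
  h : CC × Bool → E6 → W
  p : W → ℂ
  j_om : OMap j AA
  j_inj : InjOn j AA
  h_om : ∀ i, OMap (h i) HD
  h_eq : ∀ i i', ∀ q ∈ HD, ∀ q' ∈ HD,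
    h i q = h i' q' ↔ i.1 = i'.1 ∧ q.2 = q'.2 ∧ st i.2 q.1 = st i'.2 q'.1
  jh : ∀ i, ∀ P ∈ AA, ∀ q ∈ HD, j P = h i q ↔
    ∃ z, 0 < rho z ∧ PP (rep i.1) z = P ∧ aa z = q.2 ∧ ss z = st i.2 q.1
  cov : ∀ w, (∃ P ∈ AA, j P = w) ∨ ∃ i, ∃ q ∈ HD, h i q = w
  p_cont : Continuous p
  p_j : ∀ P ∈ AA, p (j P) = P.2
  p_h : ∀ i, ∀ q ∈ HD, ‖p (h i q)‖ ≤ ‖q.2‖

attribute [instance] WD.top WD.t2

/-- The atlas of `W`. -/
noncomputable def WD.atl (D : WD) : Atl E6 D.W where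
  A := KK ⊕ CC × Bool
  U := Sum.elim (fun k => {q | q.1 ∈ UU ∧ PP k q ∈ AA}) fun _ => HD
  Φ := Sum.elim (fun k q => D.j (PP k q)) D.h

def emb (a : ℂ) (s : V5) : Fin 7 → ℝ := ![a.re, a.im, s.1, s.2 0, s.2 1, s.2 2, s.2 3]

noncomputable def Ff (z : E6) : Fin 7 → ℝ :=
  Real.smoothTransition (3 - 16 * rho z) • emb (aa z) (ss z)

noncomputable def Xf (z : E6) : ℝ := Real.smoothTransition (16 * rho z - 1)

open Classical in
/-- The cut-off embedding of the handle. -/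
noncomputable def FP (P : MM × ℂ) : Fin 7 → ℝ :=
  if h : ∃ z : CC × E6, rho z.2 < 1 / 4 ∧ PP (rep z.1) z.2 = P then Ff h.choose.2 else 0

open Classical in
/-- The cut-off function of the product metric. -/
noncomputable def XP (P : MM × ℂ) : ℝ :=
  if h : ∃ z : CC × E6, rho z.2 < 1 / 4 ∧ PP (rep z.1) z.2 = P then Xf h.choose.2 else 1

noncomputable def G6 (η : ℂ → ℝ) (b : BF ℂ) : BF E6 := fun q =>
  osum (bil (GG (η q.2) q.1)) (b q.2)

/-- The metric of `W`. -/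
noncomputable def BW (η : ℂ → ℝ) (b : BF ℂ) : KK ⊕ CC × Bool → BF E6 :=
  Sum.elim (fun k q => XP (PP k q) • G6 η b q + Gram (fun y => FP (PP k y)) q)
    fun i => Gram fun q : E6 => emb q.2 (st i.2 q.1)

/-- The closed manifold: two copies of `W × MM`. -/
structure XD (D : WD) where
  X : Type
  [top : TopologicalSpace X]
  [t2 : T2Space X]
  i : Bool → D.W × MM → X
  i_emb : ∀ s, IsOpenEmbedding (i s)
  i_eq : ∀ s y y', i s y = i (!s) y' ↔ ∃ (m m' : MM) (ζ : ℂ), 1 < ‖ζ‖ ∧ ‖ζ‖ < RR ∧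
    y = (D.j (m, ζ), m') ∧ y' = (D.j (m', RR / ζ), m)
  cov : ∀ x, ∃ s y, i s y = x

attribute [instance] XD.top XD.t2

/-- The atlas of `X`. -/
noncomputable def XD.atl {D : WD} (Y : XD D) : Atl E10 Y.X where
  A := Bool × (KK ⊕ CC × Bool) × KK
  U a := D.atl.U a.2.1 ×ˢ UU
  Φ a x := Y.i a.1 (D.atl.Φ a.2.1 x.1, Phi a.2.2 x.2)

/-- The metric of `X`. -/
noncomputable def BX (η : ℂ → ℝ) (ε : ℝ) (b : BF ℂ) :
    Bool × (KK ⊕ CC × Bool) × KK → BF E10 := fun a x =>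
  osum (BW η b a.2.1 x.1) (bil (GG ε x.2))

/-- Admissible data for `W`. -/
structure AdmW (η : ℂ → ℝ) (b : BF ℂ) : Prop where
  sm : ContDiff ℝ ∞ η
  pos : ∀ ζ, 0 < η ζ
  le : ∀ ζ, η ζ ≤ 1 / 4
  bsm : ∀ v w, ContDiff ℝ ∞ fun ζ => b ζ v w
  bsymm : ∀ ζ v w, b ζ v w = b ζ w v
  bpos : ∀ ζ v, v ≠ 0 → 0 < b ζ v v

/-- Admissible data for `X`. -/
structure Adm (η : ℂ → ℝ) (ε : ℝ) (b : BF ℂ) : Prop where
  a1 : AdmW η b
  pos : 0 < ε
  le : ε ≤ 1 / 4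
  thin : ∀ ζ, 1 < ‖ζ‖ → η ζ = ε
  inv : ∀ ζ, 1 < ‖ζ‖ → ‖ζ‖ < RR → ∀ v w,
    b (RR / ζ) (-(RR / ζ ^ 2) * v) (-(RR / ζ ^ 2) * w) = b ζ v w

noncomputable def β6 : Module.Basis (Fin 4 ⊕ Fin 2) ℝ E6 :=
  (Pi.basisFun ℝ (Fin 4)).prod Complex.basisOneI

noncomputable def β10 : Module.Basis ((Fin 4 ⊕ Fin 2) ⊕ Fin 4) ℝ E10 :=
  β6.prod (Pi.basisFun ℝ (Fin 4))

end Pool.Agent.Lib.V10
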