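import Pool.Agent.Lib.V10.BlueT
import Pool.Agent.Lib.SC14.LF

set_option autoImplicit false

namespace Pool.Agent.Lib.V10

open Filter Topology Set MeasureTheory
open scoped ContDiff Manifold MatrixGroups
open Pool.Agent.Lib.MP_3eff7f_gt_h14

/-! ### The data of the metric -/

/-- The Euclidean form of the plane. -/
noncomputable def euc : ℂ →L[ℝ] ℂ →L[ℝ] ℝ :=
  Complex.reCLM.smulRight Complex.reCLM + Complex.imCLM.smulRight Complex.imCLM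

theorem euc_apply (v w : ℂ) : euc v w = v.re * w.re + v.im * w.im := by simp [euc]

/-- Step from `0` on `r ≤ 1/2` to `1` on `r ≥ 1`. -/
noncomputable def ta (r : ℝ) : ℝ := Real.smoothTransition (2 * r - 1)

/-- The fibre parameter of the first factor. -/
noncomputable def eta (l : ℝ) (ζ : ℂ) : ℝ := 1 / 4 * Real.exp (-(l * ta (Complex.normSq ζ) ^ 2))

/-- The thin value of the fibre parameter. -/
noncomputable def eps (l : ℝ) : ℝ := 1 / 4 * Real.exp (-l)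

/-- The conformal factor of the base. -/
noncomputable def Phif (L r : ℝ) : ℝ := (1 + (L * ta r) ^ 2) / mu (1 / 4) r

/-- The metric of the base. -/
noncomputable def bb (L : ℝ) : BF ℂ := fun ζ => Phif L (Complex.normSq ζ) • euc

theorem bb_apply (L : ℝ) (ζ v w : ℂ) :
    bb L ζ v w = Phif L (Complex.normSq ζ) * (v.re * w.re + v.im * w.im) := by
  simp [bb, euc_apply]

/-- An extremal of speed at most `En`, seen in all parametrisations. -/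
def GeodLe {E : Type} [NormedAddCommGroup E] [NormedSpace ℝ E] {X : Type} [TopologicalSpace X]
    (𝒜 : Atl E X) (B : 𝒜.A → BF E) (γ : ℝ → X) (En : ℝ) : Prop :=
  Continuous γ ∧ ∀ t a, ∀ x ∈ 𝒜.U a, 𝒜.Φ a x = γ t → ∃ c : ℝ → E, c t = x ∧
    ∀ᶠ s in 𝓝 t, c s ∈ 𝒜.U a ∧ 𝒜.Φ a (c s) = γ s ∧ EL (B a) c s ∧
      B a (c s) (deriv c s) (deriv c s) ≤ En ^ 2

/-! ### Blocks -/

/-- No escape. -/
def St_NE : Prop :=
  ∀ (Y F : Type) [TopologicalSpace Y] [NormedAddCommGroup F] [NormedSpace ℝ F] (γ : ℝ → Y)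
    (V K : Set Y) (f : ℝ → F) (C a T : ℝ), Continuous γ → IsOpen V → IsClosed K → K ⊆ V →
    γ a ∈ V → 0 ≤ C → (∀ s, γ s ∈ V → ∃ f', HasDerivAt f f' s ∧ ‖f'‖ ≤ C) →
    (∀ s, γ s ∈ V → ‖f s - f a‖ ≤ C * T → γ s ∈ K) → ∀ s ∈ Icc a (a + T), γ s ∈ K

/-- The Euler-Lagrange equation passes to the summands. -/
def St_SP : Prop :=
  ∀ (E F : Type) [NormedAddCommGroup E] [NormedSpace ℝ E] [NormedAddCommGroup F]
    [NormedSpace ℝ F] (G : BF (E × F)) (A : F → BF E) (B : BF F) (c : ℝ → E × F) (t : ℝ),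
    (∀ v, DifferentiableAt ℝ (fun y => G y v v) (c t)) →
    (∀ᶠ y in 𝓝 (c t), G y = osum (A y.2 y.1) (B y.2)) → EL G c t →
    (ContDiffAt ℝ 2 (fun s => (c s).1) t ∧ deriv (fun s => (c s).1) t = (deriv c t).1 ∧
      ∀ (w : ℝ → E) (w' : E), HasDerivAt w w' t →
        HasDerivAt (fun s => A (c s).2 (c s).1 (deriv (fun s => (c s).1) s) (w s))
          (1 / 2 * fderiv ℝ (fun y => A (c t).2 y (deriv (fun s => (c s).1) t)
              (deriv (fun s => (c s).1) t)) (c t).1 (w t) +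
            A (c t).2 (c t).1 (deriv (fun s => (c s).1) t) w') t) ∧
    deriv (fun s => (c s).2) t = (deriv c t).2 ∧
      (((deriv c t).1 = 0 ∨ ∀ z z', A z = A z') → EL B (fun s => (c s).2) t)

/-- A fixed metric has no short closed extremal through a compact set. -/
def St_CAP : Prop :=
  ∀ (E X : Type) [NormedAddCommGroup E] [NormedSpace ℝ E] [FiniteDimensional ℝ E]
    [TopologicalSpace X] [T2Space X] (𝒜 : Atl E X) (B₀ : 𝒜.A → BF E) (K O : Set X), 𝒜.Ok →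
    Met 𝒜 B₀ → IsCompact K → IsOpen O → K ⊆ O → ∃ δ > 0, ∀ B : 𝒜.A → BF E,
      (∀ a, ∀ x ∈ 𝒜.U a, 𝒜.Φ a x ∈ O → B a x = B₀ a x) →
      ∀ (γ : ℝ → X) (En T : ℝ), 0 ≤ En → 0 < T → En * T ≤ δ → Function.Periodic γ T →
        GeodLe 𝒜 B γ En → (∃ s, γ s ∈ K) → ∀ s t, γ s = γ t

/-- No short closed geodesic in the base. -/
def St_PL : Prop :=
  ∀ (L En T : ℝ) (ζ : ℝ → ℂ), 0 ≤ En → 0 < T → En * T ≤ 1 → Function.Periodic ζ T →
    (∀ s, EL (bb L) ζ s ∧ bb L (ζ s) (deriv ζ s) (deriv ζ s) ≤ En ^ 2) → ∀ s t, ζ s = ζ t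

/-- The data are admissible. -/
def St_ADM : Prop :=
  (∀ l ≥ 0, ∀ L : ℝ, Adm (eta l) (eps l) (bb L)) ∧
    ∀ (l L : ℝ) (ζ : ℂ), Complex.normSq ζ ≤ 1 / 2 → eta l ζ = eta 0 ζ ∧ bb L ζ = bb 0 ζ

/-- The fibre parameter and the radius vary slowly. -/
def St_ETA : Prop :=
  ∃ K ≥ 0, ∀ (ζ : ℝ → ℂ) (ζ' : ℂ) (s En : ℝ), 0 ≤ En → HasDerivAt ζ ζ' s → ‖ζ s‖ < 2 →
    (∀ l ≥ 0, bb (K * l) (ζ s) ζ' ζ' ≤ En ^ 2 →
      ∃ d, HasDerivAt (fun r => eta l (ζ r)) d s ∧ |d| ≤ En * eta l (ζ s)) ∧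
    ∀ L : ℝ, (1 < ‖ζ s‖ → bb L (ζ s) ζ' ζ' ≤ En ^ 2) →
      ∃ d, HasDerivAt (fun r => Real.smoothTransition (4 * Complex.normSq (ζ r) - 8)) d s ∧
        |d| ≤ K * En

/-- A short closed geodesic of `X` lies in one half and splits. -/
def St_HALF : Prop :=
  ∃ δ > 0, ∀ (D : WD) (Y : XD D), ∀ l ≥ 0, ∀ (L : ℝ) (γ : ℝ → Y.X) (En T : ℝ), 0 ≤ En → 0 < T →
    En * T ≤ δ → Function.Periodic γ T → Geod Y.atl (BX (eta l) (eps l) (bb L)) γ En →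
    ∃ (e : Bool) (w : ℝ → D.W) (n : ℝ → MM), (∀ s, γ s = Y.i e (w s, n s)) ∧
      GeodLe D.atl (BW (eta l) (bb L)) w En ∧ SC14.LocEL (fun _ => eps l) En n

/-- A short closed extremal of `W` outside the tube is constant. -/
def St_OFF : Prop :=
  ∃ K ≥ 0, ∀ D : WD, ∀ l ≥ 0, ∀ (w : ℝ → D.W) (En T : ℝ), 0 ≤ En → 0 < T → En * T ≤ kap / 16 →
    Function.Periodic w T → GeodLe D.atl (BW (eta l) (bb (K * l))) w En →
    (∀ s, 1 / 2 < ‖D.p (w s)‖) → ∀ s t, w s = w t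

/-- The density of `W` on a compact chart piece. -/
def St_DEN : Prop :=
  ∀ (D : WD) (a : KK ⊕ CC × Bool) (S : Set E6), IsCompact S → S ⊆ D.atl.U a →
    (∀ k, a = .inl k → ∀ q ∈ S, q.1 ∈ Box) → ∃ A > 0, ∀ l ≥ 0, ∀ L : ℝ, ∀ q ∈ S,
      √(gd β6 (BW (eta l) (bb L) a q)) ≤ A * (1 + L ^ 2)

/-- The volume estimate. -/
def St_VOL : Prop :=
  ∀ (D : WD) (Y : XD D) [MeasurableSpace Y.X], ∃ A > 0, ∀ l ≥ 2, ∀ (L : ℝ) (μ : Measure Y.X),
    VolLe β10 volume Y.atl (BX (eta l) (eps l) (bb L)) μ →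
    μ univ ≤ ENNReal.ofReal (A * (1 + L ^ 2) * √(eps l))

end Pool.Agent.Lib.V10
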