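import Pool.Agent.Lib.V10.Blue

set_option autoImplicit false

namespace Pool.Agent.Lib.V10

open Filter Topology Set MeasureTheory
open scoped ContDiff Manifold MatrixGroups
open Pool.Agent.Lib.MP_3eff7f_gt_h14

/-! ### From an etale atlas to a Riemannian manifold -/

def St_MB : Prop := ∀ (n : ℕ) (M : Type) [TopologicalSpace M] [ChartedSpace (Fin n → ℝ) M]
  [IsManifold 𝓘(ℝ, Fin n → ℝ) ∞ M] (G : OpenPartialHomeomorph M (Fin n → ℝ) → MF n),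
  MData2 M G → ∃ g : RMetric (Fin n → ℝ) M,
    (∀ e ∈ atlas (Fin n → ℝ) M, ∀ x ∈ e.target, coeff g e x = G e x) ∧
    ∀ γ : ℝ → M, ContMDiff 𝓘(ℝ, ℝ) 𝓘(ℝ, Fin n → ℝ) 2 γ → ∀ e ∈ atlas (Fin n → ℝ) M, ∀ t,
      γ t ∈ e.source → ip g (γ t) (vel (Fin n → ℝ) γ t) (vel (Fin n → ℝ) γ t) =
        bil (G e (e (γ t))) (deriv (fun s => e (γ s)) t) (deriv (fun s => e (γ s)) t)

def St_MV : Prop := ∀ (n : ℕ) (M : Type) [TopologicalSpace M] [ChartedSpace (Fin n → ℝ) M]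
  [IsManifold 𝓘(ℝ, Fin n → ℝ) ∞ M] [MeasurableSpace M] [BorelSpace M] [CompactSpace M]
  [Nonempty M] (G : OpenPartialHomeomorph M (Fin n → ℝ) → MF n), MData2 M G →
  ∃ μ : Measure M, ∀ e ∈ atlas (Fin n → ℝ) M, ∀ A : Set M, MeasurableSet A → A ⊆ e.source →
    μ A = ∫⁻ x in e '' A, dens (G e) x

def St_ML : Prop := ∀ (n : ℕ) (G : MF n) (U : Set (Fin n → ℝ)), IsOpen U →
  (∀ x ∈ U, ∀ i j, ContDiffAt ℝ ∞ (fun y => G y i j) x) → (∀ x ∈ U, (G x).PosDef) →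
  ∀ (x : ℝ → Fin n → ℝ) (t : ℝ), x t ∈ U → ContDiffAt ℝ 2 x t → GeodEq G x t →
    EL (fun y => bil (G y)) x t ∧
      HasDerivAt (fun s => bil (G (x s)) (deriv x s) (deriv x s)) 0 t

def St_MAN : Prop := ∀ (E X : Type) [NormedAddCommGroup E] [NormedSpace ℝ E] [MeasurableSpace E]
  [BorelSpace E] [TopologicalSpace X] [CompactSpace X] [T2Space X] [Nonempty X]
  [MeasurableSpace X] [BorelSpace X] (ι : Type) [Fintype ι] [DecidableEq ι]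
  (β : Module.Basis ι ℝ E) (n : ℕ), Fintype.card ι = n → ∀ 𝒜 : Atl E X, 𝒜.Ok →
  ∃ (_ : ChartedSpace (Fin n → ℝ) X) (_ : IsManifold 𝓘(ℝ, Fin n → ℝ) ∞ X),
    ∀ B : 𝒜.A → BF E, Met 𝒜 B → ∃ (g : RMetric (Fin n → ℝ) X) (μ : Measure X),
      IsVolume g μ ∧ VolLe β β.addHaar 𝒜 B μ ∧ ∀ γ : ℝ → X, IsGeodesic g γ →
        ∃ En : ℝ, 0 ≤ En ∧ Geod 𝒜 B γ En ∧ ∀ T, length g γ 0 T = ENNReal.ofReal (En * T)

def St_LIN : Prop := β6.addHaar = volume ∧ β10.addHaar = volume ∧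
  (∀ (b : E6 →L[ℝ] E6 →L[ℝ] ℝ) (A : Matrix (Fin 4) (Fin 4) ℝ),
    gd β10 (osum b (bil A)) = gd β6 b * A.det) ∧
  ∀ (A : Matrix (Fin 4) (Fin 4) ℝ) (b : ℂ →L[ℝ] ℂ →L[ℝ] ℝ),
    gd β6 (osum (bil A) b) = A.det * (b 1 1 * b Complex.I Complex.I - b 1 Complex.I * b Complex.I 1)

/-! ### Topology -/

def St_GLUE : Prop := ∀ (Z A B : Type) [TopologicalSpace Z] [TopologicalSpace A]
  [TopologicalSpace B] [T2Space A] [T2Space B] (f : Z → A) (g : Z → B), Continuous f →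
  IsOpenMap f → Continuous g → IsOpenMap g → (∀ z z', f z = f z' ↔ g z = g z') →
  (∀ a ∉ range f, ∀ b ∉ range g, ∃ U ∈ 𝓝 a, ∃ V ∈ 𝓝 b, ∀ z, f z ∈ U → g z ∉ V) →
  ∃ (P : Type) (_ : TopologicalSpace P) (iA : A → P) (iB : B → P), T2Space P ∧
    IsOpenEmbedding iA ∧ IsOpenEmbedding iB ∧ (∀ a b, iA a = iB b ↔ ∃ z, f z = a ∧ g z = b) ∧
    ∀ p, (∃ a, iA a = p) ∨ ∃ b, iB b = p

def St_HOL : Prop := ∀ (Y : Type) [TopologicalSpace Y] [PathConnectedSpace Y],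
  Flat Y → SimplyConnectedSpace Y

/-- A potential exists where loops are trivial. -/
def St_HPOT : Prop := ∀ (Z G E : Type) [TopologicalSpace Z] [Group G] [TopologicalSpace E]
  (ho : Hol Z G) (F : E → Z) (Ω : Set E), ContinuousOn F Ω → ho.Triv F Ω → ∃ g, ho.Pot F Ω g

/-- A local potential is a potential. -/
def St_HLOC : Prop := ∀ (Z G E : Type) [TopologicalSpace Z] [Group G] [TopologicalSpace E]
  (ho : Hol Z G) (F : E → Z) (Ω : Set E) (g : E → G),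
  (∀ x ∈ Ω, ∃ V ∈ 𝓝 x, ho.Pot F (Ω ∩ V) g) → ho.Pot F Ω g

/-- Homotopy invariance, convex domains, embedded domains, transport. -/
def St_HTP : Prop :=
  (∀ (Z G E : Type) [TopologicalSpace Z] [Group G] [TopologicalSpace E] (ho : Hol Z G)
    (H : ℝ → E → Z) (Ω : Set E), ContinuousOn (fun p : ℝ × E => H p.1 p.2) (Icc 0 1 ×ˢ Ω) →
    ho.Triv (H 1) Ω → ho.Triv (H 0) Ω) ∧
  (∀ (Z G E : Type) [TopologicalSpace Z] [Group G] [NormedAddCommGroup E] [NormedSpace ℝ E]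
    (ho : Hol Z G) (F : E → Z) (Ω : Set E), Convex ℝ Ω → ContinuousOn F Ω → ho.Triv F Ω) ∧
  (∀ (Z G E : Type) [TopologicalSpace Z] [Group G] [TopologicalSpace E] (ho : Hol Z G)
    (F : E → Z) (Ω : Set E), OMap F Ω → InjOn F Ω → (ho.Triv F Ω → ho.Triv id (F '' Ω)) ∧
    ∀ (g : E → G) (g' : Z → G), (∀ x ∈ Ω, g' (F x) = g x) → ho.Pot F Ω g →
      ho.Pot id (F '' Ω) g') ∧
  ∀ (Z G E E' T : Type) [TopologicalSpace Z] [Group G] [TopologicalSpace E] [TopologicalSpace E']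
    [TopologicalSpace T] (ho : Hol Z G) (F : E → Z) (Ω : Set E) (g : E → G) (F' : E' → Z)
    (Ω' : Set E') (g' : E' → G) (S : Set T) (φ : T → E) (φ' : T → E'), ho.Pot F Ω g →
    ho.Pot F' Ω' g' → ContinuousOn F Ω → IsPathConnected S → ContinuousOn φ S →
    ContinuousOn φ' S → (∀ s ∈ S, φ s ∈ Ω ∧ φ' s ∈ Ω' ∧ F (φ s) = F' (φ' s)) →
    ∀ s ∈ S, ∀ s' ∈ S, g (φ s) * (g' (φ' s))⁻¹ = g (φ s') * (g' (φ' s'))⁻¹

/-- Open covers. -/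
def St_HCOV : Prop := ∀ (Z G ι : Type) [TopologicalSpace Z] [Group G] (ho : Hol Z G) (U : Set Z)
  (V : ι → Set Z), IsOpen U → (∀ i, IsOpen (V i)) → ho.Triv id U → (∀ i, ho.Triv id (V i)) →
  (∀ i, IsPathConnected (U ∩ V i)) →
  (∀ i j, ∀ z ∈ V i ∩ V j, ∃ z' ∈ U, JoinedIn (V i ∩ V j) z z') → ho.Triv id (U ∪ ⋃ i, V i)

/-- Products. -/
def St_HPROD : Prop := ∀ (A B G : Type) [TopologicalSpace A] [TopologicalSpace B]
  [PathConnectedSpace A] [PathConnectedSpace B] [Group G] (ho : Hol (A × B) G) (a₀ : A) (b₀ : B),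
  ho.Triv (fun a => (a, b₀)) univ → ho.Triv (fun b => (a₀, b)) univ → ho.Triv id univ

/-- The Cayley complex of `SL(2, ℤ/3)` is simply connected. -/
def St_GRP : Prop := ∀ (G : Type) [Group G] (τ σ : KK → G),
  (∀ k, τ k * τ (ModularGroup.T • k) * τ (ModularGroup.T • ModularGroup.T • k) = 1) →
  (∀ k, σ k * σ (ModularGroup.S • k) * σ (ModularGroup.S • ModularGroup.S • k) *
    σ (ModularGroup.S • ModularGroup.S • ModularGroup.S • k) = 1) →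
  (∀ k, (τ k * σ (ModularGroup.T • k)) * (τ ((ModularGroup.S * ModularGroup.T) • k) *
      σ (ModularGroup.T • (ModularGroup.S * ModularGroup.T) • k)) *
    (τ ((ModularGroup.S * ModularGroup.T) ^ 2 • k) *
      σ (ModularGroup.T • (ModularGroup.S * ModularGroup.T) ^ 2 • k)) =
    σ k * σ (ModularGroup.S • k)) →
  ∃ γ : KK → G, ∀ k, γ (ModularGroup.T • k) = γ k * τ k ∧ γ (ModularGroup.S • k) = γ k * σ k

/-- The fundamental group of `MM` is normally generated by the cusp loops. -/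
def St_MN : Prop := ∀ (G : Type) [Group G] (ho : Hol MM G),
  (∀ (k : KK) (q : C(II, MM)), (∀ t, q t = Phi k ![0, 0, 3 * (t : ℝ), 0]) → ho.hol q = 1) →
  ho.Triv id univ

/-! ### The surgery -/

def St_TUBE : Prop :=
  (∀ c c' q q', rho q < 1 / 4 → rho q' < 1 / 4 → (PP (rep c) q = PP (rep c') q' ↔
    c = c' ∧ vv q = vv q' ∧ ∃ n : ℤ, q'.1 2 = q.1 2 + 3 * n)) ∧
  (∀ δ < 1 / 4, IsCompact (Tube δ)) ∧
  (∀ k, ∃ (c : CC) (r : ℝ), ∀ θ : ℝ, Phi k ![0, 0, θ, 0] = Phi (rep c) ![0, 0, θ + r, 0]) ∧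
  (∀ k, OMap (PP k) {q | q.1 ∈ UU}) ∧ IsOpen AA ∧
  (∀ c q, rho q < 1 / 4 → (PP (rep c) q ∈ AA ↔ 0 < rho q)) ∧
  (∀ c q, rho q < 1 / 4 → FP (PP (rep c) q) = Ff q ∧ XP (PP (rep c) q) = Xf q) ∧
  ∀ P ∉ Tube (3 / 16), FP P = 0 ∧ XP P = 1

def St_WEX : Prop := Nonempty WD

def St_WATL : Prop := ∀ D : WD, D.atl.Ok

def St_GSM : Prop := ∀ (η : ℝ) (x : E4), 0 < η → η ≤ 1 / 4 → ∀ v w : E4,
  ContDiffAt ℝ ∞ (fun p : ℝ × E4 => bil (GG p.1 p.2) v w) (η, x)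

def St_WMET : Prop := ∀ (D : WD) (η : ℂ → ℝ) (b : BF ℂ), AdmW η b → Met D.atl (BW η b)

def St_WOUT : Prop := ∀ (η : ℂ → ℝ) (b : BF ℂ) (k : KK) (q : E6), q.1 ∈ UU → 1 / 2 ≤ ‖q.2‖ →
  BW η b (.inl k) q = G6 η b q

def St_WCPT : Prop := ∀ D : WD, ∃ K : KK ⊕ CC × Bool → Set E6,
  (∀ a, IsCompact (K a) ∧ K a ⊆ D.atl.U a) ∧
  (∀ k, ∀ q ∈ K (.inl k), q.1 ∈ Box ∧ ‖q.2‖ ≤ 3 / 2) ∧
  ∀ w, ‖D.p w‖ ≤ 3 / 2 → ∃ a, ∃ q ∈ K a, D.atl.Φ a q = w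

def St_WSC : Prop := ∀ D : WD, PathConnectedSpace D.W ∧ Flat D.W

def St_XEX : Prop := ∀ D : WD, Nonempty (XD D)

/-- Every point lies in the compact part of one of the halves. -/
def St_XCOV : Prop := ∀ (D : WD) (Y : XD D) (x : Y.X), ∃ s y, ‖D.p y.1‖ ≤ 3 / 2 ∧ Y.i s y = x

def St_XTOP : Prop := ∀ (D : WD) (Y : XD D), CompactSpace Y.X ∧ SimplyConnectedSpace Y.X

def St_XATL : Prop := ∀ (D : WD) (Y : XD D), Y.atl.Ok ∧
  ∀ (η : ℂ → ℝ) (ε : ℝ) (b : BF ℂ), Adm η ε b → Met Y.atl (BX η ε b)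

/-! ### Geometry and the final statement -/

def St_GEO : Prop := ∀ (D : WD) (Y : XD D) [MeasurableSpace Y.X] [BorelSpace Y.X],
  ∃ δ : ℝ, 0 < δ ∧ ∀ v : ℝ, 0 < v → ∃ (η : ℂ → ℝ) (ε : ℝ) (b : BF ℂ), Adm η ε b ∧
    (∀ (γ : ℝ → Y.X) (En T : ℝ), 0 ≤ En → Geod Y.atl (BX η ε b) γ En → 0 < T →
      Function.Periodic γ T → En * T ≤ δ → ∀ s t, γ s = γ t) ∧
    ∀ μ : Measure Y.X, VolLe β10 volume Y.atl (BX η ε b) μ → μ univ ≤ ENNReal.ofReal v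

def St_FIN : Prop :=
  ∃ (M : Type) (_ : TopologicalSpace M) (_ : ChartedSpace (Fin 10 → ℝ) M)
    (_ : IsManifold 𝓘(ℝ, Fin 10 → ℝ) ∞ M) (_ : MeasurableSpace M) (_ : BorelSpace M),
    T2Space M ∧ CompactSpace M ∧ SimplyConnectedSpace M ∧
    ∀ C : ℝ, 0 < C → ∃ (g : RMetric (Fin 10 → ℝ) M) (μ : Measure M), IsVolume g μ ∧
      ∀ (γ : ℝ → M) (T : ℝ), IsGeodesic g γ → (∃ s t, γ s ≠ γ t) → 0 < T →
        (∀ t, γ (t + T) = γ t) →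
        ENNReal.ofReal C * μ Set.univ ^ (1 / 10 : ℝ) < length g γ 0 T

theorem st_FIN (hM : St_MAN) (hL : St_LIN) (hW : St_WEX) (hX : St_XEX) (hT : St_XTOP)
    (hA : St_XATL) (hG : St_GEO) : St_FIN := by
  obtain ⟨D⟩ := hW
  obtain ⟨Y⟩ := hX D
  obtain ⟨h1, h2⟩ := hT D Y
  let _ : MeasurableSpace Y.X := borel _
  have : BorelSpace Y.X := ⟨rfl⟩
  obtain ⟨c1, c2, h3⟩ := hM E10 Y.X _ β10 10 (by simp) Y.atl (hA D Y).1
  obtain ⟨δ, hδ, h4⟩ := hG D Y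
  refine ⟨Y.X, inferInstance, c1, c2, inferInstance, inferInstance, inferInstance, h1, h2,
    fun C hC => ?_⟩
  obtain ⟨η, ε, b, h5, h6, h7⟩ := h4 ((δ / C) ^ 10) (by positivity)
  obtain ⟨g, μ, g1, g2, g3⟩ := h3 _ ((hA D Y).2 η ε b h5)
  refine ⟨g, μ, g1, fun γ T hγ ⟨s, t, hst⟩ hT hp => ?_⟩
  obtain ⟨En, e1, e2, e3⟩ := g3 γ hγ
  have e4 : δ < En * T := not_le.1 fun h => hst (h6 γ En T e1 e2 hT hp h s t)
  have e5 : μ univ ≤ ENNReal.ofReal (δ / C) ^ 10 := by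
    rw [← ENNReal.ofReal_pow (by positivity)]
    exact h7 μ (hL.2.1 ▸ g2)
  rw [e3]
  refine lt_of_le_of_lt ?_ ((ENNReal.ofReal_lt_ofReal_iff (hδ.trans e4)).2 e4)
  calc _ ≤ ENNReal.ofReal C * (ENNReal.ofReal (δ / C) ^ 10) ^ (1 / 10 : ℝ) := by gcongr
    _ = _ := by
      rw [one_div, show (10 : ℝ) = (10 : ℕ) by norm_num,
        ENNReal.pow_rpow_inv_natCast (by norm_num), ← ENNReal.ofReal_mul hC.le,
        mul_div_cancel₀ _ hC.ne']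

end Pool.Agent.Lib.V10
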