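import Pool.Agent.Lib.V10.B_MAN
import Pool.Agent.Lib.V10.B_LIN
import Pool.Agent.Lib.V10.B_XEX
import Pool.Agent.Lib.V10.B_XATL
import Pool.Agent.Lib.V10.B_WMET
import Pool.Agent.Lib.V10.B_WCPT
import Pool.Agent.Lib.V10.B_WSC

set_option autoImplicit false

namespace Pool.Agent.Lib.V10

theorem wmet : St_WMET := st_WMET st_GSM

theorem xatl : St_XATL := st_XATL wmet st_WOUT

theorem xtop : St_XTOP := st_XTOP st_WCPT st_WSC

theorem fin_of_geo (hG : St_GEO) : St_FIN := st_FIN st_MAN st_LIN st_WEX st_XEX xtop xatl hG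

end Pool.Agent.Lib.V10
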