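import Pool.Agent.Lib.V10.B_XATL
import Pool.Agent.Lib.V10.CAP14
import Pool.Agent.Lib.V10.BlueG
import Pool.Agent.Lib.V10.Top

set_option autoImplicit false

namespace Pool.Agent.Lib.V10

open Filter Topology Set
open scoped ContDiff
open Pool.Agent.Lib.MP_3eff7f_gt_h14 Pool.Agent.Lib.SC14 X14

namespace G14

section Split

variable {E F : Type} [NormedAddCommGroup E] [NormedSpace ℝ E] [NormedAddCommGroup F]
  [NormedSpace ℝ F] {B : BF (E × F)} {c : ℝ → E × F} {t : ℝ}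

theorem d_fst (h : ContDiffAt ℝ 2 c t) : deriv (fun s => (c s).1) t = (deriv c t).1 :=
  ((ContinuousLinearMap.fst ℝ E F).hasFDerivAt.comp_hasDerivAt t
    (h.differentiableAt (by simp)).hasDerivAt).deriv

theorem d_snd (h : ContDiffAt ℝ 2 c t) : deriv (fun s => (c s).2) t = (deriv c t).2 :=
  ((ContinuousLinearMap.snd ℝ E F).hasFDerivAt.comp_hasDerivAt t
    (h.differentiableAt (by simp)).hasDerivAt).deriv

theorem el_fst (h : EL B c t) (hd : ∀ v, DifferentiableAt ℝ (fun y => B y v v) (c t)) {w : ℝ → E}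
    {w' : E} (hw : HasDerivAt w w' t) : HasDerivAt (fun s => B (c s) (deriv c s) (w s, 0))
      (1 / 2 * fderiv ℝ (fun x => B (x, (c t).2) (deriv c t) (deriv c t)) (c t).1 (w t) +
        B (c t) (deriv c t) (w', 0)) t := by
  have := (HasFDerivAt.comp (g := fun y => B y (deriv c t) (deriv c t)) (c t).1
    (hd _).hasFDerivAt
    (hasFDerivAt_prodMk_left (𝕜 := ℝ) (c t).1 (c t).2)).fderiv
  rw [show fderiv ℝ (fun x => B (x, (c t).2) (deriv c t) (deriv c t)) (c t).1 = _ from this]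
  exact h.2 _ _ (hw.prodMk (hasDerivAt_const t 0))

theorem el_snd (h : EL B c t) (hd : ∀ v, DifferentiableAt ℝ (fun y => B y v v) (c t)) {w : ℝ → F}
    {w' : F} (hw : HasDerivAt w w' t) : HasDerivAt (fun s => B (c s) (deriv c s) (0, w s))
      (1 / 2 * fderiv ℝ (fun x => B ((c t).1, x) (deriv c t) (deriv c t)) (c t).2 (w t) +
        B (c t) (deriv c t) (0, w')) t := by
  have := (HasFDerivAt.comp (g := fun y => B y (deriv c t) (deriv c t)) (c t).2
    (hd _).hasFDerivAt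
    (hasFDerivAt_prodMk_right (𝕜 := ℝ) (c t).1 (c t).2)).fderiv
  rw [show fderiv ℝ (fun x => B ((c t).1, x) (deriv c t) (deriv c t)) (c t).2 = _ from this]
  exact h.2 _ _ ((hasDerivAt_const t 0).prodMk hw)

theorem ev2 (h : ContDiffAt ℝ 2 c t) : ∀ᶠ s in 𝓝 t, ContDiffAt ℝ 2 c s := h.eventually (by simp)

end Split

section X

variable {η : ℂ → ℝ} {ε : ℝ} {b : BF ℂ} {t : ℝ}

theorem bx_fst {a : Bool × (KK ⊕ CC × Bool) × KK} {c : ℝ → E10} (h : EL (BX η ε b a) c t)
    (hd : ∀ v, DifferentiableAt ℝ (fun y => BX η ε b a y v v) (c t)) :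
    EL (BW η b a.2.1) (fun s => (c s).1) t := by
  refine ⟨h.1.fst, fun w w' hw => ?_⟩
  have := el_fst h hd hw
  simp only [BX, osum_apply, map_zero, add_zero, fderiv_add_const] at this
  rw [d_fst h.1]
  exact this.congr_of_eventuallyEq ((ev2 h.1).mono fun s hs => by simp only [d_fst hs])

theorem bx_snd {a : Bool × (KK ⊕ CC × Bool) × KK} {c : ℝ → E10} (h : EL (BX η ε b a) c t)
    (hd : ∀ v, DifferentiableAt ℝ (fun y => BX η ε b a y v v) (c t)) :
    ELv (fun _ => ε) (fun s => (c s).2) t := by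
  intro w w' hw
  have := el_snd h hd hw
  simp only [BX, osum_apply, map_zero, zero_add, fderiv_const_add] at this
  rw [d_snd h.1]
  exact this.congr_of_eventuallyEq ((ev2 h.1).mono fun s hs => by simp only [d_snd hs])

end X

theorem bil_nonneg {η : ℝ} (h0 : 0 < η) (h1 : η ≤ 1 / 4) (x v : E4) : 0 ≤ bil (GG η x) v v := by
  rw [bil_apply]
  exact (GG_pos h0 h1 x).posSemidef.dotProduct_mulVec_nonneg v

theorem met_nonneg {E X : Type} [NormedAddCommGroup E] [NormedSpace ℝ E] {𝒜 : Atl E X}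
    {B : 𝒜.A → BF E} (h : Met 𝒜 B) {a : 𝒜.A} {x : E} (hx : x ∈ 𝒜.U a) (v : E) :
    0 ≤ B a x v v := by
  rcases eq_or_ne v 0 with rfl | hv
  · simp
  · exact (h.pos a x hx v hv).le

theorem Phif_ge (L : ℝ) {ζ : ℂ} (h : ‖ζ‖ < 2) : (1 / 2) ^ 2 ≤ Phif L (Complex.normSq ζ) := by
  have a : Complex.normSq ζ ≤ 4 := by
    rw [Complex.normSq_eq_norm_sq]
    nlinarith [norm_nonneg ζ]
  have b := (mu_mono (η := 1 / 4) (by norm_num) le_rfl a).trans (mu_eq _ (by norm_num)).le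
  rw [Phif, le_div_iff₀ (mu_pos (by norm_num) le_rfl (Complex.normSq_nonneg ζ))]
  nlinarith [sq_nonneg (L * ta (Complex.normSq ζ))]

variable {D : WD} (Y : XD D)

open Classical in
/-- The radial function seen from one pole. -/
noncomputable def rad (s : Bool) (x : Y.X) : ℝ :=
  if h : ∃ y, Y.i s y = x then max ‖D.p h.choose.1‖ 1 else 2

theorem rad_i (s : Bool) (y : D.W × MM) : rad Y s (Y.i s y) = max ‖D.p y.1‖ 1 := by
  have h : ∃ y', Y.i s y' = Y.i s y := ⟨y, rfl⟩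
  rw [rad, dif_pos h, (Y.i_emb s).injective h.choose_spec]

theorem rad_not (s : Bool) (y : D.W × MM) : rad Y s (Y.i (!s) y) = 2 / max ‖D.p y.1‖ 1 := by
  by_cases h : ∃ y', Y.i s y' = Y.i (!s) y
  · obtain ⟨y', e⟩ := h
    obtain ⟨m, m', ζ, h1, h2, rfl, rfl⟩ := (Y.i_eq s _ _).1 e
    obtain ⟨h3, h4⟩ := inv_mem h1 h2
    rw [← e, rad_i, D.p_j _ (mem_AA' h1 h2), D.p_j _ (mem_AA' h3 h4), max_eq_left h1.le,
      max_eq_left h3.le, norm_RR, div_div_cancel₀ two_ne_zero]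
  · rw [rad, dif_neg h, max_eq_right, div_one]
    by_contra h1
    have h2 := not_le.1 h1
    obtain ⟨m, h3, h4⟩ := of_p D (w := y.1) (by linarith)
    obtain ⟨h5, h6⟩ := inv_mem h2 h3.1
    exact h ⟨_, (Y.i_eq s _ _).2 ⟨y.2, m, _, h5, h6, rfl, Prod.ext (by rw [RR_RR, h4]) rfl⟩⟩

theorem rad_cont (s : Bool) : Continuous (rad Y s) := by
  have c : Continuous fun y : D.W × MM => max ‖D.p y.1‖ 1 :=
    (D.p_cont.comp continuous_fst).norm.max continuous_const
  refine continuous_iff_continuousAt.2 fun x => ?_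
  obtain ⟨e, y, rfl⟩ := Y.cov x
  rw [← (Y.i_emb e).continuousAt_iff]
  by_cases h : e = s
  · subst h
    exact (show rad Y e ∘ Y.i e = _ from funext (rad_i Y e)) ▸ c.continuousAt
  · obtain rfl : e = !s := Bool.eq_not.2 h
    exact (show rad Y s ∘ Y.i (!s) = _ from funext (rad_not Y s)) ▸ (continuous_const.div c
      fun y => (one_pos.trans_le (le_max_right _ _)).ne').continuousAt

theorem rad_lt {s : Bool} {x : Y.X} (h : rad Y s x < 2) : ∃ y, Y.i s y = x := by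
  by_contra h1
  rw [rad, dif_neg h1] at h
  exact lt_irrefl _ h

end G14

open G14

theorem st_CAP : St_CAP := fun _ _ _ _ _ _ _ _ _ _ _ h1 h2 h3 h4 h5 => C14.cap h1 h2 h3 h4 h5

theorem st_SP : St_SP := by
  intro E F _ _ _ _ G A B c t hd e h
  have h' : EL (fun y => osum (A y.2 y.1) (B y.2)) c t :=
    C14.el_congr h (EventuallyEq.refl _ _) (e.mono fun y hy => hy.symm)
  have hd' : ∀ v, DifferentiableAt ℝ (fun y : E × F => osum (A y.2 y.1) (B y.2) v v) (c t) :=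
    fun v => (hd v).congr_of_eventuallyEq (e.mono fun y hy => congrArg (fun b => b v v) hy.symm)
  refine ⟨⟨h.1.fst, d_fst h.1, fun w w' hw => ?_⟩, d_snd h.1, fun z => ⟨h.1.snd, fun w w' hw => ?_⟩⟩
  · have := el_fst h' hd' hw
    simp only [osum_apply, map_zero, add_zero, fderiv_add_const] at this
    rw [d_fst h.1]
    exact this.congr_of_eventuallyEq ((ev2 h.1).mono fun s hs => by simp only [d_fst hs])
  · have := el_snd h' hd' hw
    have e2 : fderiv ℝ (fun x => osum (A x (c t).1) (B x) (deriv c t) (deriv c t)) (c t).2 =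
        fderiv ℝ (fun x => B x (deriv c t).2 (deriv c t).2) (c t).2 := by
      rcases z with z | z
      · simp only [osum_apply, z, map_zero, zero_add]
      · refine Eq.trans ?_ (fderiv_const_add (A (c t).2 (c t).1 (deriv c t).1 (deriv c t).1))
        congr 1
        funext x
        rw [osum_apply, z x (c t).2]
    rw [e2] at this
    simp only [osum_apply, map_zero, zero_add] at this
    rw [d_snd h.1]
    exact this.congr_of_eventuallyEq ((ev2 h.1).mono fun s hs => by simp only [d_snd hs])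

theorem st_HALF (hD : St_ADM) : St_HALF := by
  refine ⟨1 / 8, by norm_num, fun D Y l hl L γ En T hE hT hET hp hγ => ?_⟩
  have ad := hD.1 l hl L
  have mX := (xatl D Y).2 _ _ _ ad
  have mW := wmet D _ _ ad.a1
  obtain ⟨e, y₀, h₀, e₀⟩ := st_XCOV D Y (γ 0)
  have cf := (rad_cont Y e).comp hγ.1
  have key : Icc 0 T ⊆ {t | rad Y e (γ t) ≤ 3 / 2 + 2 * En * t} := by
    refine ((isClosed_le cf (by fun_prop)).inter isClosed_Icc).Icc_subset_of_forall_mem_nhdsWithin
      (show rad Y e (γ 0) ≤ _ by rw [← e₀, rad_i, max_le_iff]; constructor <;> linarith) ?_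
    rintro t ⟨h1, t0, tT⟩
    have h2 : rad Y e (γ t) ≤ 3 / 2 + 2 * En * t := h1
    by_cases h3 : rad Y e (γ t) < 3 / 2
    · filter_upwards [mem_nhdsWithin_of_mem_nhds (cf.continuousAt.eventually (gt_mem_nhds h3)),
        self_mem_nhdsWithin] with r a b
      have : 0 ≤ 2 * En * r := by have := t0.trans (le_of_lt b); positivity
      have a2 : rad Y e (γ r) < 3 / 2 := a
      change rad Y e (γ r) ≤ _
      linarith
    have h4 : rad Y e (γ t) < 2 := by nlinarith [mul_le_mul_of_nonneg_left tT.le hE]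
    obtain ⟨y, hy⟩ := rad_lt Y h4
    rw [← hy, rad_i] at h2 h3
    have h5 : 1 < ‖D.p y.1‖ := by
      by_contra h
      rw [max_eq_right (not_lt.1 h)] at h3
      exact h3 (by norm_num)
    obtain ⟨m, h6, h7⟩ := of_p D (w := y.1) (by linarith)
    obtain ⟨⟨k, x⟩, hx, rfl⟩ := exists_Phi m
    obtain ⟨⟨k', x'⟩, hx', e'⟩ := exists_Phi y.2
    obtain ⟨c, c1, c2⟩ := hγ.2 t (e, .inl k, k') ((x, D.p y.1), x') ⟨⟨hx, h6⟩, hx'⟩
      ((congrArg (Y.i e) (Prod.ext h7 e')).trans hy)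
    have c3 : ∀ᶠ s in 𝓝 t, 1 < ‖(c s).1.2‖ :=
      c2.self_of_nhds.2.2.1.1.continuousAt.fst.snd.norm.eventually
        (lt_mem_nhds (show 1 < ‖(c t).1.2‖ by rw [c1]; exact h5))
    obtain ⟨u, hu, hsub⟩ := mem_nhdsGE_iff_exists_Icc_subset.1
      (mem_nhdsWithin_of_mem_nhds (c2.and c3))
    filter_upwards [Ioc_mem_nhdsGT hu] with r hr
    have m1 : ‖(c r).1.2 - (c t).1.2‖ ≤ 2 * En * (r - t) :=
      norm_image_sub_le_of_norm_deriv_le_segment' (f := fun s => (c s).1.2)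
        (f' := fun s => (deriv c s).1.2) (fun p hp => (((ContinuousLinearMap.snd ℝ E4 ℂ).comp
          (ContinuousLinearMap.fst ℝ E6 E4)).hasFDerivAt.comp_hasDerivAt p
          ((hsub ⟨hp.1, hp.2.trans hr.2⟩).1.2.2.1.1.differentiableAt
            (by simp)).hasDerivAt).hasDerivWithinAt) (fun p hp => by
          obtain ⟨⟨a0, -, -, a1⟩, a2⟩ := hsub ⟨hp.1, hp.2.le.trans hr.2⟩
          rw [BX, osum_apply, st_WOUT _ _ _ _ a0.1.1 (by linarith), G6, osum_apply, bb_apply,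
            ← Complex.normSq_apply, Complex.normSq_eq_norm_sq (deriv c p).1.2] at a1
          have a3 := bil_nonneg ad.pos ad.le (c p).2 (deriv c p).2
          have a4 := bil_nonneg (ad.a1.pos (c p).1.2) (ad.a1.le _) (c p).1.1 (deriv c p).1.1
          have a5 := mul_le_mul_of_nonneg_right (Phif_ge L (ζ := (c p).1.2) a0.1.2.1)
            (sq_nonneg ‖(deriv c p).1.2‖)
          exact (abs_le_of_sq_le_sq' (by nlinarith) (by positivity)).2) r
        (right_mem_Icc.2 hr.1.le)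
    obtain ⟨⟨a0, a1, -⟩, a2⟩ := hsub ⟨hr.1.le, hr.2⟩
    change rad Y e (γ r) ≤ _
    rw [← a1]
    change rad Y e (Y.i e (D.j (PP k (c r).1), _)) ≤ _
    rw [rad_i, D.p_j _ a0.1.2, max_eq_left (show 1 ≤ ‖(PP k (c r).1).2‖ from a2.le)]
    rw [max_eq_left h5.le] at h2
    have := norm_sub_norm_le (c r).1.2 (c t).1.2
    rw [c1] at this m1
    change ‖(c r).1.2‖ ≤ _
    linarith
  have : ∀ s, ∃ y, Y.i e y = γ s := fun s => by
    obtain ⟨r, hr, e⟩ := hp.exists_mem_Ico₀ hT s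
    have h2 : rad Y _ (γ r) ≤ 3 / 2 + 2 * En * r := key (Ico_subset_Icc_self hr)
    exact e ▸ rad_lt Y (by nlinarith [mul_le_mul_of_nonneg_left hr.2.le hE])
  choose y hy using this
  have cy : Continuous y := (Y.i_emb e).isInducing.continuous_iff.2
    ((show Y.i e ∘ y = γ from funext hy) ▸ hγ.1)
  have loc : ∀ t α k, ∀ q ∈ D.atl.U α, ∀ x ∈ UU, D.atl.Φ α q = (y t).1 → Phi k x = (y t).2 →
      ∃ c : ℝ → E10, c t = (q, x) ∧ ∀ᶠ s in 𝓝 t, ((c s).1 ∈ D.atl.U α ∧
        D.atl.Φ α (c s).1 = (y s).1 ∧ EL (BW (eta l) (bb L) α) (fun s => (c s).1) s ∧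
        BW (eta l) (bb L) α (c s).1 (deriv (fun s => (c s).1) s) (deriv (fun s => (c s).1) s) ≤
          En ^ 2) ∧ (c s).2 ∈ UU ∧ Phi k (c s).2 = (y s).2 ∧ ContDiffAt ℝ 2 (fun s => (c s).2) s ∧
        ELv (fun _ => eps l) (fun s => (c s).2) s ∧ bil (GG (eps l) (c s).2)
          (deriv (fun s => (c s).2) s) (deriv (fun s => (c s).2) s) ≤ En ^ 2 := by
    intro t α k q hq x hx e1 e2
    obtain ⟨c, c1, c2⟩ := hγ.2 t (e, α, k) (q, x) ⟨hq, hx⟩
      ((congrArg (Y.i e) (Prod.ext e1 e2)).trans (hy t))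
    refine ⟨c, c1, c2.mono fun s ⟨a1, a2, a3, a4⟩ => ?_⟩
    obtain ⟨b1, b2⟩ := Prod.ext_iff.1 ((Y.i_emb e).injective (a2.trans (hy s).symm))
    have hd := fun v => (mX.sm _ _ a1 v v).differentiableAt (by simp)
    rw [BX, osum_apply] at a4
    have b3 := bil_nonneg ad.pos ad.le (c s).2 (deriv c s).2
    have b4 := met_nonneg mW a1.1 (deriv c s).1
    rw [d_fst a3.1, d_snd a3.1]
    exact ⟨⟨a1.1, b1, bx_fst a3 hd, by linarith⟩, a1.2, b2, a3.1.snd, bx_snd a3 hd, by linarith⟩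
  refine ⟨e, fun s => (y s).1, fun s => (y s).2, fun s => (hy s).symm,
    ⟨cy.fst, fun t α q hq e1 => ?_⟩, cy.snd, fun t k x hx e2 => ?_⟩
  · obtain ⟨⟨k, x⟩, hx, e2⟩ := exists_Phi (y t).2
    obtain ⟨c, c1, c2⟩ := loc t α k q hq x hx e1 e2
    exact ⟨fun s => (c s).1, congrArg Prod.fst c1, c2.mono fun s h => h.1⟩
  · obtain ⟨α, q, hq, e1⟩ := (st_WATL D).cov (y t).1
    obtain ⟨c, c1, c2⟩ := loc t α k q hq x hx e1 e2
    exact ⟨fun s => (c s).2, congrArg Prod.snd c1, c2.mono fun s h => h.2⟩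

end Pool.Agent.Lib.V10
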