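import Pool.Agent.Lib.V10.V41
import Pool.Agent.Lib.V10.B_OFF
import Pool.Agent.Lib.V10.B_PL
import Pool.Agent.Lib.V10.G14

set_option autoImplicit false

namespace Pool.Agent.Lib.V10

theorem final : St_FIN :=
  fin_of_geo (st_GEO st_CAP (st_HALF st_ADM)
    (st_OFF st_SP st_PL st_ETA st_ADM st_WOUT wmet) st_VOL st_ADM st_WATL wmet st_WCPT)

end Pool.Agent.Lib.V10
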