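import Pool.Agent.Lib.V10.BlueT

set_option autoImplicit false

namespace Pool.Agent.Lib.V10

open Filter Topology Set
open scoped ContDiff
open Pool.Agent.Lib.MP_3eff7f_gt_h14

section OMap

variable {Z Y W : Type} [TopologicalSpace Z] [TopologicalSpace Y] [TopologicalSpace W]

theorem OMap.mono {F : Z → Y} {U V : Set Z} (h : OMap F U) (hV : IsOpen V) (hs : V ⊆ U) :
    OMap F V :=
  ⟨hV, h.cont.mono hs, fun _ h1 h2 => h.omap _ (h1.trans hs) h2⟩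

theorem OMap.comp {F : Z → Y} {U : Set Z} {F' : Y → W} {U' : Set Y} (h' : OMap F' U')
    (h : OMap F U) : OMap (fun z => F' (F z)) {z | z ∈ U ∧ F z ∈ U'} :=
  ⟨h.cont.isOpen_inter_preimage h.opn h'.opn,
    h'.cont.comp (h.cont.mono fun _ hz => hz.1) fun _ hz => hz.2, fun V h1 h2 => by
      rw [← image_image]
      refine h'.omap _ ?_ (h.omap V (fun z hz => (h1 hz).1) h2)
      rintro _ ⟨z, hz, rfl⟩
      exact (h1 hz).2⟩

theorem OMap.of_open {F : Z → Y} (hc : Continuous F) (ho : IsOpenMap F) : OMap F univ :=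
  ⟨isOpen_univ, hc.continuousOn, fun V _ h => ho V h⟩

theorem OMap.continuousAt {F : Z → Y} {U : Set Z} (h : OMap F U) {x : Z} (hx : x ∈ U) :
    ContinuousAt F x :=
  h.cont.continuousAt (h.opn.mem_nhds hx)

theorem OMap.image_mem {F : Z → Y} {U V : Set Z} (h : OMap F U) {x : Z} (hx : x ∈ U)
    (hV : V ∈ 𝓝 x) : F '' V ∈ 𝓝 (F x) := by
  obtain ⟨O, h1, h2, h3⟩ := mem_nhds_iff.1 (inter_mem hV (h.opn.mem_nhds hx))
  exact mem_of_superset ((h.omap O (fun _ hz => (h1 hz).2) h2).mem_nhds (mem_image_of_mem _ h3))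
    (image_mono fun _ hz => (h1 hz).1)

theorem OMap.of_nhds {F : Z → Y} {U : Set Z} (ho : IsOpen U) (hc : ContinuousOn F U)
    (h : ∀ x ∈ U, ∀ V ∈ 𝓝 x, F '' V ∈ 𝓝 (F x)) : OMap F U :=
  ⟨ho, hc, fun V h1 h2 => isOpen_iff_mem_nhds.2 <| by
    rintro _ ⟨x, hx, rfl⟩
    exact h x (h1 hx) V (h2.mem_nhds hx)⟩

theorem OMap.prod {W' : Type} [TopologicalSpace W'] {F : Z → Y} {U : Set Z} {F' : W → W'}
    {U' : Set W} (h : OMap F U) (h' : OMap F' U') :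
    OMap (fun p : Z × W => (F p.1, F' p.2)) (U ×ˢ U') := by
  refine .of_nhds (h.opn.prod h'.opn) ((h.cont.comp continuousOn_fst fun _ hp => hp.1).prodMk
    (h'.cont.comp continuousOn_snd fun _ hp => hp.2)) fun x hx V hV => ?_
  obtain ⟨V1, h1, V2, h2, h3⟩ := mem_nhds_prod_iff.1 hV
  refine mem_of_superset (prod_mem_nhds (h.image_mem hx.1 h1) (h'.image_mem hx.2 h2)) ?_
  rintro ⟨_, _⟩ ⟨⟨a, ha, rfl⟩, b, hb, rfl⟩
  exact ⟨(a, b), h3 ⟨ha, hb⟩, rfl⟩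

theorem OMap.congr {F F' : Z → Y} {U : Set Z} (h : OMap F U) (e : EqOn F' F U) : OMap F' U :=
  ⟨h.opn, h.cont.congr e, fun V h1 h2 => by
    rw [image_congr fun x hx => e (h1 hx)]
    exact h.omap V h1 h2⟩

/-- An open map with a continuous local section through each point. -/
theorem OMap.of_section {F : Z → Y} {U : Set Z} (ho : IsOpen U) (hc : ContinuousOn F U)
    (h : ∀ x ∈ U, ∃ κ : Y → Z, ContinuousAt κ (F x) ∧ κ (F x) = x ∧
      ∀ᶠ y in 𝓝 (F x), F (κ y) = y) : OMap F U := by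
  refine .of_nhds ho hc fun x hx V hV => ?_
  obtain ⟨κ, h1, h2, h3⟩ := h x hx
  filter_upwards [h3, h1.eventually (show ∀ᶠ z in 𝓝 (κ (F x)), z ∈ V from h2.symm ▸ hV)]
    with y a b
  exact ⟨_, b, a⟩

theorem omap_Phi (k : KK) : OMap (Phi k) UU :=
  ⟨isOpen_UU, continuousOn_Phi k, fun _ h1 h2 => isOpen_Phi k h2 h1⟩

omit [TopologicalSpace W] in
theorem germ_unique {F : Y → W} {V : Set Y} {φ ψ : Z → Y} {x : Z} (hV : V ∈ 𝓝 (φ x))
    (hF : InjOn F V) (hφ : ContinuousAt φ x) (hψ : ContinuousAt ψ x) (e : ψ x = φ x)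
    (h : ∀ᶠ y in 𝓝 x, F (φ y) = F (ψ y)) : φ =ᶠ[𝓝 x] ψ := by
  filter_upwards [h, hφ.eventually hV, hψ.eventually (show ∀ᶠ z in 𝓝 (ψ x), z ∈ V from e ▸ hV)]
    with y a b c
  exact hF b c a

end OMap

variable {E : Type} [NormedAddCommGroup E] [NormedSpace ℝ E] {X : Type} [TopologicalSpace X]
  {𝒜 : Atl E X}

/-- Compatibility has to be checked on one germ only. -/
theorem Met.of_ex (hA : 𝒜.Ok) {B : 𝒜.A → BF E}
    (sm : ∀ a, ∀ x ∈ 𝒜.U a, ∀ v w, ContDiffAt ℝ ∞ (fun y => B a y v w) x)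
    (symm : ∀ a, ∀ x ∈ 𝒜.U a, ∀ v w, B a x v w = B a x w v)
    (pos : ∀ a, ∀ x ∈ 𝒜.U a, ∀ v, v ≠ 0 → 0 < B a x v v)
    (h : ∀ a b, ∀ x ∈ 𝒜.U a, ∀ x' ∈ 𝒜.U b, 𝒜.Φ a x = 𝒜.Φ b x' → ∃ φ : E → E, φ x = x' ∧
      ContinuousAt φ x ∧ (∀ᶠ y in 𝓝 x, 𝒜.Φ b (φ y) = 𝒜.Φ a y) ∧
      ∀ v w, B b x' (fderiv ℝ φ x v) (fderiv ℝ φ x w) = B a x v w) : Met 𝒜 B := by
  refine ⟨sm, symm, pos, fun a b x hx φ h1 h2 h3 v w => ?_⟩
  obtain ⟨ψ, a1, a2, a3, a4⟩ := h a b x hx _ h2 h3.self_of_nhds.symm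
  obtain ⟨V, hV, hi⟩ := hA.linj b _ h2
  rw [(germ_unique hV hi h1.continuousAt a2 a1
    ((h3.and a3).mono fun y hy => hy.1.trans hy.2.symm)).fderiv_eq]
  exact a4 v w

/-- Smoothness of a function has to be checked in one parametrisation only. -/
theorem Atl.Ok.contDiffAt (hA : 𝒜.Ok) {F : Type} [NormedAddCommGroup F] [NormedSpace ℝ F]
    (f : X → F) {a b : 𝒜.A} {x x' : E} (hx : x ∈ 𝒜.U a) (hx' : x' ∈ 𝒜.U b)
    (e : 𝒜.Φ a x = 𝒜.Φ b x') (h : ContDiffAt ℝ ∞ (fun y => f (𝒜.Φ b y)) x') :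
    ContDiffAt ℝ ∞ (fun y => f (𝒜.Φ a y)) x := by
  obtain ⟨φ, rfl, h2, h3⟩ := hA.tr a b x hx x' hx' e
  exact (h.comp x h2).congr_of_eventuallyEq (h3.mono fun y hy => congrArg f hy.symm)

theorem fderiv_ne_zero {F : Type} [NormedAddCommGroup F] [NormedSpace ℝ F] {f : E → F}
    {κ : F → E} {x : E} (hf : ContDiffAt ℝ ∞ f x) (hκ : ContDiffAt ℝ ∞ κ (f x))
    (h : ∀ᶠ y in 𝓝 x, κ (f y) = y) {v : E} (hv : v ≠ 0) : fderiv ℝ f x v ≠ 0 := by
  intro h0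
  have h1 := ((hκ.differentiableAt (by simp)).hasFDerivAt.comp x
    (hf.differentiableAt (by simp)).hasFDerivAt).unique
    ((hasFDerivAt_id x).congr_of_eventuallyEq h)
  have := DFunLike.congr_fun h1 v
  simp only [ContinuousLinearMap.comp_apply, h0, map_zero, ContinuousLinearMap.id_apply] at this
  exact hv this.symm

/-- Transition germs have injective differential. -/
theorem Atl.Ok.fderiv_ne (hA : 𝒜.Ok) {a b : 𝒜.A} {x : E} (hx : x ∈ 𝒜.U a) {φ : E → E}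
    (h1 : ContDiffAt ℝ ∞ φ x) (h2 : φ x ∈ 𝒜.U b) (h3 : ∀ᶠ y in 𝓝 x, 𝒜.Φ b (φ y) = 𝒜.Φ a y)
    {v : E} (hv : v ≠ 0) : fderiv ℝ φ x v ≠ 0 := by
  obtain ⟨ψ, a1, a2, a3⟩ := hA.tr b a _ h2 x hx h3.self_of_nhds
  obtain ⟨V, hV, hi⟩ := hA.linj a x hx
  refine fderiv_ne_zero h1 a2 ?_ hv
  refine germ_unique (φ := fun y => ψ (φ y)) (ψ := id) (a1.symm ▸ hV) hi
    (a2.continuousAt.comp h1.continuousAt) continuousAt_id a1.symm ?_
  filter_upwards [h3, h1.continuousAt.eventually a3] with y a b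
  exact b.trans a

section Gram

variable {m : ℕ} {f : E → Fin m → ℝ} {x : E}

theorem Gram_sm (hf : ContDiffAt ℝ ∞ f x) (v w : E) :
    ContDiffAt ℝ ∞ (fun y => Gram f y v w) x := by
  have h : ContDiffAt ℝ ∞ (fderiv ℝ f) x := hf.fderiv_right (by simp)
  simp only [Gram_apply, dotProduct]
  exact ContDiffAt.sum fun i _ => (contDiffAt_pi.1 (h.clm_apply contDiffAt_const) i).mul
    (contDiffAt_pi.1 (h.clm_apply contDiffAt_const) i)

theorem Gram_symm (v w : E) : Gram f x v w = Gram f x w v := by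
  rw [Gram_apply, Gram_apply, dotProduct_comm]

theorem Gram_nonneg (v : E) : 0 ≤ Gram f x v v := by
  rw [Gram_apply]
  exact Finset.sum_nonneg fun i _ => mul_self_nonneg _

theorem Gram_pos {v : E} (h : fderiv ℝ f x v ≠ 0) : 0 < Gram f x v v :=
  (Gram_nonneg v).lt_of_ne fun e => h (dotProduct_self_eq_zero.1 (by rw [← Gram_apply, ← e]))

theorem Gram_comp {F : Type} [NormedAddCommGroup F] [NormedSpace ℝ F] {g : F → Fin m → ℝ}
    {φ : E → F} (hφ : ContDiffAt ℝ ∞ φ x) (hg : ContDiffAt ℝ ∞ g (φ x))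
    (e : ∀ᶠ y in 𝓝 x, g (φ y) = f y) (v w : E) :
    Gram g (φ x) (fderiv ℝ φ x v) (fderiv ℝ φ x w) = Gram f x v w := by
  have := (((hg.differentiableAt (by simp)).hasFDerivAt.comp x
    (hφ.differentiableAt (by simp)).hasFDerivAt).congr_of_eventuallyEq
      (EventuallyEq.symm e)).fderiv
  rw [Gram_apply, Gram_apply, this]
  rfl

theorem Gram_zero (e : ∀ᶠ y in 𝓝 x, f y = 0) : Gram f x = 0 := by
  ext v w
  have : fderiv ℝ f x = 0 := by
    rw [EventuallyEq.fderiv_eq (f := fun _ => 0) e, fderiv_fun_const]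
    rfl
  simp [Gram_apply, this]

end Gram

end Pool.Agent.Lib.V10
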