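import Pool.Agent.Lib.V10.B_GEO
import Pool.Agent.Lib.V10.B_ADM
import Pool.Agent.Lib.V10.Top

set_option autoImplicit false

namespace Pool.Agent.Lib.V10

open Filter Topology Set Real MeasureTheory
open Pool.Agent.Lib.MP_3eff7f_gt_h14

namespace V41

theorem box_le {ε : ℝ} (h0 : 0 < ε) (h1 : ε ≤ 1 / 16) :
    ∫⁻ x in Box, dens (GG ε) x ≤ ENNReal.ofReal (2 * (48 / kap + 192) * √ε) := by
  have a : √(√ε) ^ 2 = √ε := sq_sqrt (sqrt_nonneg _)
  have b : √(√ε) ^ 4 = ε := by rw [show 4 = 2 * 2 from rfl, pow_mul, a, sq_sqrt h0.le]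
  have c : √(√ε) ≤ 1 / 2 := sqrt_le_iff.2 ⟨by norm_num, sqrt_le_iff.2 ⟨by norm_num, by linarith⟩⟩
  have d := lintegral_slab (sqrt_pos.2 (sqrt_pos.2 h0)) c
  rw [a, b] at d
  have hk := kap_pos
  refine (lintegral_mono_set ?_).trans ((lintegral_union_le _ _ _).trans
    ((add_le_add (d 0) (d π)).trans ?_))
  · rintro x ⟨c1, c2, c3⟩
    rcases le_total (x 3) π with h | h
    · exact Or.inl ⟨c1, abs_le.1 c2, c3.1, by linarith⟩
    · exact Or.inr ⟨c1, abs_le.1 c2, h, by linarith [c3.2]⟩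
  · rw [← ENNReal.ofReal_add (by positivity) (by positivity)]
    exact ENNReal.ofReal_le_ofReal (le_of_eq (by ring))

theorem det_le {η : ℝ} (h0 : 0 < η) (h1 : η ≤ 1 / 4) {x : E4} (hx : x ∈ Box) :
    √(GG η x).det ≤ 3 * kap⁻¹ := by
  have hk := kap_pos
  refine (ENNReal.ofReal_le_ofReal_iff (by positivity)).1 (dens_le h0 h1 hx.1 ?_)
  rw [div_le_iff₀ (mu_pos h0 h1 (tt_nonneg x)), inv_mul_eq_div, le_div_iff₀ hk]
  exact kap_le_mu h0 h1 (tt_nonneg x)

theorem cont_gd {E ι : Type} [NormedAddCommGroup E] [NormedSpace ℝ E] [Fintype ι] [DecidableEq ι]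
    (β : ι → E) {B : BF E} {x : E} (h : ∀ v w, ContinuousAt (fun y => B y v w) x) :
    ContinuousAt (fun y => √(gd β (B y))) x :=
  continuous_sqrt.continuousAt.comp ((continuous_id.matrix_det).continuousAt.comp
    (f := fun y => Matrix.of fun i j => B y (β i) (β j))
    (continuousAt_pi.2 fun _ => continuousAt_pi.2 fun _ => h _ _))

/-- The volume of `X` is at most a constant times the size of the base metric on the annulus
times `√ε`. -/
theorem vol_le (hC : St_WCPT) (hX : St_XCOV) (hL : St_LIN) (hO : St_WOUT) (hM : St_WMET)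
    (D : WD) (Y : XD D) [MeasurableSpace Y.X] {η₀ : ℂ → ℝ} {b₀ : BF ℂ} (h₀ : AdmW η₀ b₀) :
    ∃ C : ℝ, 0 < C ∧ ∀ (η : ℂ → ℝ) (ε : ℝ) (b : BF ℂ) (Λ : ℝ), AdmW η b → 0 < ε → ε ≤ 1 / 16 →
      (∀ ζ, ‖ζ‖ < 1 / 2 → η ζ = η₀ ζ ∧ b ζ = b₀ ζ) → 1 ≤ Λ →
      (∀ ζ, 1 / 2 ≤ ‖ζ‖ → ‖ζ‖ ≤ 3 / 2 →
        b ζ 1 1 * b ζ Complex.I Complex.I - b ζ 1 Complex.I * b ζ Complex.I 1 ≤ Λ ^ 2) →
      ∀ μ : Measure Y.X, VolLe β10 volume Y.atl (BX η ε b) μ →
        μ univ ≤ ENNReal.ofReal (C * Λ * √ε) := by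
  obtain ⟨K, k1, k2, k3⟩ := hC D
  have hk := kap_pos
  have : Fintype Y.atl.A := @Fintype.ofFinite (Bool × (KK ⊕ CC × Bool) × KK) inferInstance
  have b1 : ∀ a, ∃ M : ℝ, (∀ q ∈ K a, √(gd β6 (BW η₀ b₀ a q)) ≤ M) ∧ volume.real (K a) ≤ M := by
    intro a
    have c : ContinuousOn (fun q => √(gd β6 (BW η₀ b₀ a q))) (K a) := fun q hq =>
      (cont_gd _ fun v w =>
        ((hM D _ _ h₀).sm a q ((k1 a).2 hq) v w).continuousAt).continuousWithinAt
    obtain ⟨M, h⟩ := ((k1 a).1.image_of_continuousOn c).bddAbove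
    exact ⟨max M (volume.real (K a)), fun q hq => le_max_of_le_left (h (mem_image_of_mem _ hq)),
      le_max_right _ _⟩
  choose M m1 m2 using b1
  obtain ⟨N, hN⟩ := (finite_range M).bddAbove
  let R := max N (3 * kap⁻¹)
  have r0 : 0 < R := lt_max_of_lt_right (by positivity)
  have r1 : ∀ a, M a ≤ R := fun a => le_max_of_le_left (hN (mem_range_self a))
  refine ⟨Fintype.card Y.atl.A * (R * R * (2 * (48 / kap + 192))) + 1, by positivity,
    fun η ε b Λ h e0 e1 he l1 l2 μ hμ => ?_⟩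
  have e2 : ε ≤ 1 / 4 := by linarith
  have p1 : ∀ a, ∀ q ∈ K a, √(gd β6 (BW η b a q)) ≤ R * Λ := by
    have p0 : ∀ a, ∀ q ∈ K a, √(gd β6 (BW η₀ b₀ a q)) ≤ R * Λ := fun a q hq =>
      ((m1 a q hq).trans (r1 a)).trans (le_mul_of_one_le_right r0.le l1)
    rintro (k | i) q hq
    · rcases lt_or_ge ‖q.2‖ (1 / 2) with c | c
      · rw [BW_congr k q (he _ c).1 (he _ c).2]
        exact p0 _ q hq
      · rw [hO η b k q (Box_subset (k2 k q hq).1) c, G6, hL.2.2.2,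
          sqrt_mul (GG_pos (h.pos _) (h.le _) _).det_pos.le]
        exact mul_le_mul ((det_le (h.pos _) (h.le _) (k2 k q hq).1).trans (le_max_right _ _))
          (sqrt_le_iff.2 ⟨by linarith, l2 _ c (k2 k q hq).2⟩) (sqrt_nonneg _) r0.le
    · rw [BW_inr η η₀ b b₀]
      exact p0 _ q hq
  have md : Measurable (dens (GG ε)) := ENNReal.measurable_ofReal.comp (continuous_sqrt.comp
    (Continuous.matrix_det (continuous_matrix fun i j => (GG_sm e0 e2 i j).continuous))).measurable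
  have p2 : ∀ a : Y.atl.A, μ (Y.atl.Φ a '' (K a.2.1 ×ˢ Box)) ≤
      ENNReal.ofReal (R * R * (2 * (48 / kap + 192)) * Λ * √ε) := fun a => by
    have c := (k1 a.2.1).1.prod isCompact_Box
    refine (hμ a _ c (prod_mono (k1 _).2 Box_subset)).trans ((setLIntegral_mono' c.measurableSet
      (g := fun x => ENNReal.ofReal (R * Λ) * dens (GG ε) x.2) fun x hx => ?_).trans ?_)
    · rw [show BX η ε b a x = osum (BW η b a.2.1 x.1) (bil (GG ε x.2)) from rfl, hL.2.2.1,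
        sqrt_mul' _ (GG_pos e0 e2 _).det_pos.le,
        ENNReal.ofReal_mul (sqrt_nonneg _)]
      exact mul_le_mul' (ENNReal.ofReal_le_ofReal (p1 _ _ hx.1)) le_rfl
    · rw [Measure.volume_eq_prod, ← Measure.prod_restrict,
        lintegral_prod_mul (f := fun _ => ENNReal.ofReal (R * Λ)) aemeasurable_const
          md.aemeasurable, setLIntegral_const, ← ofReal_measureReal (k1 _).1.measure_lt_top.ne]
      refine (mul_le_mul' (mul_le_mul' le_rfl (ENNReal.ofReal_le_ofReal ((m2 _).trans (r1 _))))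
        (box_le e0 e1)).trans ?_
      rw [← ENNReal.ofReal_mul (by positivity), ← ENNReal.ofReal_mul (by positivity)]
      exact ENNReal.ofReal_le_ofReal (le_of_eq (by ring))
  have hU : (univ : Set Y.X) ⊆ ⋃ a, Y.atl.Φ a '' (K a.2.1 ×ˢ Box) := fun x _ => by
    obtain ⟨s, ⟨w, m⟩, h1, rfl⟩ := hX D Y x
    obtain ⟨a, q, hq, rfl⟩ := k3 w h1
    obtain ⟨k, z, hz, rfl⟩ := exists_box m
    exact mem_iUnion.2 ⟨(s, a, k), (q, z), ⟨hq, hz⟩, rfl⟩
  refine (measure_mono hU).trans ((measure_iUnion_fintype_le _ _).trans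
    ((Finset.sum_le_card_nsmul _ _ _ fun a _ => p2 a).trans ?_))
  rw [← ENNReal.ofReal_nsmul]
  refine ENNReal.ofReal_le_ofReal ?_
  rw [nsmul_eq_mul, Finset.card_univ]
  have : 0 ≤ Λ * √ε := by positivity
  linarith

end V41

theorem st_VOL : St_VOL := by
  intro D Y _
  obtain ⟨C, c0, h⟩ := V41.vol_le st_WCPT st_XCOV st_LIN st_WOUT wmet D Y (st_ADM.1 0 le_rfl 0).a1
  refine ⟨C * 4, by positivity, fun l hl L μ hμ => ?_⟩
  have a := st_ADM.1 l (by linarith) L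
  have e : eps l ≤ 1 / 16 := by
    have := quadratic_le_exp_of_nonneg (x := l) (by linarith)
    rw [eps, exp_neg, ← div_eq_mul_inv, div_le_iff₀ (exp_pos _)]
    nlinarith
  refine (h _ _ _ (4 * (1 + L ^ 2)) a.a1 a.pos e (fun ζ hζ => st_ADM.2 l L ζ ?_) (by nlinarith)
    (fun ζ hζ _ => ?_) μ hμ).trans (le_of_eq (by rw [mul_assoc C 4]))
  · rw [Complex.normSq_eq_norm_sq]
    nlinarith [norm_nonneg ζ]
  · have r : 1 / 4 ≤ Complex.normSq ζ := by
      rw [Complex.normSq_eq_norm_sq]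
      nlinarith
    have p := A92.Phif_pos L (Complex.normSq_nonneg ζ)
    have q : Phif L (Complex.normSq ζ) ≤ 4 * (1 + L ^ 2) := by
      have m := r.trans (le_mu (η := 1 / 4) (by norm_num) _)
      have t : (L * ta (Complex.normSq ζ)) ^ 2 ≤ L ^ 2 := by
        rw [mul_pow]
        exact mul_le_of_le_one_right (sq_nonneg _)
          (pow_le_one₀ (smoothTransition.nonneg _) (smoothTransition.le_one _))
      rw [Phif, div_le_iff₀ (by linarith)]
      nlinarith [sq_nonneg L]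
    simp only [bb_apply]
    simp
    nlinarith

end Pool.Agent.Lib.V10
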